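import Pool.Agent.H42.SN.Count

set_option autoImplicit false

/-!
# Counting tuples: several entries
-/

namespace Pool.Agent.H42.SN

open Finset Filter Topology

theorem radN_mul_le {a : ℤ} {c : ℤ} (hc : 0 < c) (hac : IsCoprime c a) :
    (radN (a * c) : ℝ) ≤ radN a * c := by
  rw [radN_mul hac.symm, Nat.cast_mul]
  apply mul_le_mul_of_nonneg_left _ (by positivity)
  have h1 : radN c ≤ c.natAbs := Nat.le_of_dvd (Int.natAbs_pos.mpr hc.ne') radN_dvd
  have h2 : ((radN c : ℕ) : ℝ) ≤ (c.natAbs : ℝ) := by exact_mod_cast h1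
  rwa [Nat.cast_natAbs, Int.cast_abs, abs_of_pos (by exact_mod_cast hc)] at h2

/-- Several additional entries. -/
theorem chainCount {K t Y N : ℕ} {T Lg : ℝ} (hp : Par K t T Lg Y N) {j : ℕ} (hj : j + t ≤ K)
    {a₀ : Fin j → ℤ} (ha₀ : Core a₀)
    (hL : Real.log |((∏ i, a₀ i : ℤ) : ℝ)| + t * Real.log T ≤ Lg) :
    ∀ t' : ℕ, t' ≤ t → ∃ F : Finset (Fin (j + t') → ℤ), N ^ t' ≤ F.card ∧ ∀ a ∈ F, Core a ∧
      (∀ i : Fin j, a (Fin.castAdd t' i) = a₀ i) ∧ Even (∑ i, a i - ∑ i, a₀ i - t') ∧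
      |((∑ i, a i - ∑ i, a₀ i : ℤ) : ℝ)| ≤ t' * T ∧
      (radN (∏ i, a i) : ℝ) ≤ radN (∏ i, a₀ i) * T ^ t' ∧
      |((∏ i, a i : ℤ) : ℝ)| ≤ |((∏ i, a₀ i : ℤ) : ℝ)| * T ^ t' ∧
      ∀ i, (∃ i', a i = a₀ i') ∨ |(a i : ℝ)| ≤ T := by
  classical
  have hT1 := hp.hT
  have hT0 : 0 < T := by linarith
  have hlogT : 0 ≤ Real.log T := Real.log_nonneg hT1
  intro t'
  induction t' with
  | zero =>
    intro _
    refine ⟨{a₀}, by simp, ?_⟩
    intro a ha
    rw [mem_singleton] at ha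
    subst ha
    refine ⟨ha₀, fun i => rfl, ?_, ?_, ?_, ?_, fun i => Or.inl ⟨i, rfl⟩⟩
    · simp
    · simp
    · simp
    · simp
  | succ t' ih =>
    intro ht'
    obtain ⟨F, hF1, hF2⟩ := ih (by omega)
    have hone : ∀ a ∈ F, ∃ S : Finset ℤ, N ≤ S.card ∧ ∀ c ∈ S, 0 < c ∧ (c : ℝ) ≤ T ∧ Odd c ∧
        IsCoprime c (∏ i, a i) ∧ Core (Fin.snoc (α := fun _ => ℤ) a c) := by
      intro a ha
      obtain ⟨h1, -, -, -, -, h6, -⟩ := hF2 a ha
      refine addOne hp (by omega) h1 ?_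
      have hP : ∏ i, a i ≠ 0 := Finset.prod_ne_zero_iff.mpr fun i _ => h1.ne i
      have hP0 : ∏ i, a₀ i ≠ 0 := Finset.prod_ne_zero_iff.mpr fun i _ => ha₀.ne i
      have h7 : (0 : ℝ) < |((∏ i, a i : ℤ) : ℝ)| := by rw [abs_pos]; exact_mod_cast hP
      have h8 : (0 : ℝ) < |((∏ i, a₀ i : ℤ) : ℝ)| := by rw [abs_pos]; exact_mod_cast hP0
      have h9 := Real.log_le_log h7 h6
      rw [Real.log_mul h8.ne' (by positivity), Real.log_pow] at h9
      have h10 : (t' : ℝ) * Real.log T ≤ t * Real.log T := by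
        apply mul_le_mul_of_nonneg_right _ hlogT
        exact_mod_cast (by omega : t' ≤ t)
      linarith
    choose! S hS1 hS2 using hone
    refine ⟨F.biUnion (fun a => (S a).image (fun c => (Fin.snoc (α := fun _ => ℤ) a c : Fin (j + t' + 1) → ℤ))), ?_, ?_⟩
    · refine le_trans ?_ (card_biUnion_ge F _ (fun x => Fin.init (α := fun _ => ℤ) x) ?_ (N := N) ?_)
      · rw [pow_succ]; exact Nat.mul_le_mul_right _ hF1
      · intro a _ b hb
        obtain ⟨c, -, rfl⟩ := mem_image.mp hb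
        exact Fin.init_snoc _ _
      · intro a ha
        rw [Finset.card_image_of_injective]
        · exact hS1 a ha
        · intro c c' h
          have := congrFun h (Fin.last _)
          simpa using this
    · intro x hx
      obtain ⟨a, ha, hx⟩ := mem_biUnion.mp hx
      obtain ⟨c, hc, rfl⟩ := mem_image.mp hx
      obtain ⟨h1, h2, h3, h4, h5, h6, h7⟩ := hF2 a ha
      obtain ⟨c1, c2, c3, c4, c5⟩ := hS2 a ha c hc
      have hc0 : (0 : ℝ) < c := by exact_mod_cast c1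
      have hsum : ∑ i, (Fin.snoc (α := fun _ => ℤ) a c : Fin (j + t' + 1) → ℤ) i = ∑ i, a i + c := by
        rw [Fin.sum_univ_castSucc]; simp
      have hprod : ∏ i, (Fin.snoc (α := fun _ => ℤ) a c : Fin (j + t' + 1) → ℤ) i = (∏ i, a i) * c := by
        rw [Fin.prod_univ_castSucc]; simp
      refine ⟨c5, ?_, ?_, ?_, ?_, ?_, ?_⟩
      · intro i
        have e : Fin.castAdd (t' + 1) i = (Fin.castAdd t' i).castSucc := Fin.ext rfl
        rw [e]
        simp only [Fin.snoc_castSucc]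
        exact h2 i
      · have e : ∑ i, (Fin.snoc (α := fun _ => ℤ) a c : Fin (j + t' + 1) → ℤ) i - ∑ i, a₀ i - ((t' + 1 : ℕ) : ℤ) =
            (∑ i, a i - ∑ i, a₀ i - t') + (c - 1) := by rw [hsum]; push_cast; ring
        show Even (∑ i, (Fin.snoc (α := fun _ => ℤ) a c : Fin (j + t' + 1) → ℤ) i - ∑ i, a₀ i - ((t' + 1 : ℕ) : ℤ))
        rw [e]
        exact h3.add (c3.sub_odd odd_one)
      · have e : ((∑ i, (Fin.snoc (α := fun _ => ℤ) a c : Fin (j + t' + 1) → ℤ) i - ∑ i, a₀ i : ℤ) : ℝ) =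
            ((∑ i, a i - ∑ i, a₀ i : ℤ) : ℝ) + c := by
          have : ∑ i, (Fin.snoc (α := fun _ => ℤ) a c : Fin (j + t' + 1) → ℤ) i - ∑ i, a₀ i =
            (∑ i, a i - ∑ i, a₀ i) + c := by rw [hsum]; ring
          rw [this]; push_cast; ring
        show |((∑ i, (Fin.snoc (α := fun _ => ℤ) a c : Fin (j + t' + 1) → ℤ) i - ∑ i, a₀ i : ℤ) : ℝ)| ≤ ((t' + 1 : ℕ) : ℝ) * T
        rw [e]
        calc |((∑ i, a i - ∑ i, a₀ i : ℤ) : ℝ) + c| ≤ |((∑ i, a i - ∑ i, a₀ i : ℤ) : ℝ)| + |(c : ℝ)| := abs_add_le _ _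
          _ ≤ t' * T + T := by rw [abs_of_pos hc0]; linarith
          _ = ((t' + 1 : ℕ) : ℝ) * T := by push_cast; ring
      · show (radN (∏ i, (Fin.snoc (α := fun _ => ℤ) a c : Fin (j + t' + 1) → ℤ) i) : ℝ) ≤ _
        rw [hprod]
        calc (radN ((∏ i, a i) * c) : ℝ) ≤ radN (∏ i, a i) * c := radN_mul_le c1 c4
          _ ≤ (radN (∏ i, a₀ i) * T ^ t') * T := mul_le_mul h5 c2 hc0.le (by positivity)
          _ = radN (∏ i, a₀ i) * T ^ (t' + 1) := by ring
      · show |((∏ i, (Fin.snoc (α := fun _ => ℤ) a c : Fin (j + t' + 1) → ℤ) i : ℤ) : ℝ)| ≤ _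
        rw [hprod]
        push_cast at h6 ⊢
        rw [abs_mul]
        calc |∏ i, (a i : ℝ)| * |(c : ℝ)| ≤ (|∏ i, (a₀ i : ℝ)| * T ^ t') * T := by
              rw [abs_of_pos hc0]
              exact mul_le_mul h6 c2 hc0.le (by positivity)
          _ = |∏ i, (a₀ i : ℝ)| * T ^ (t' + 1) := by ring
      · intro i
        have : ∀ i : Fin (j + t' + 1), (∃ i', (Fin.snoc (α := fun _ => ℤ) a c : Fin (j + t' + 1) → ℤ) i = a₀ i') ∨
            |((Fin.snoc (α := fun _ => ℤ) a c : Fin (j + t' + 1) → ℤ) i : ℝ)| ≤ T := by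
          intro i
          induction i using Fin.lastCases with
          | last => right; simp only [Fin.snoc_last]; rw [abs_of_pos hc0]; exact c2
          | cast i => simp only [Fin.snoc_castSucc]; exact h7 i
        exact this i

/-- All tuples over one core. -/
theorem fullCount {K t Y N : ℕ} {T Lg : ℝ} (hp : Par K t T Lg Y N) {j : ℕ} (hj : j + t ≤ K)
    {a₀ : Fin j → ℤ} (ha₀ : Core a₀) (hst : Even (∑ i, a₀ i + t)) (hs0 : ∑ i, a₀ i ≠ 0)
    (hs : |((∑ i, a₀ i : ℤ) : ℝ)| ≤ T)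
    (hL : Real.log |((∏ i, a₀ i : ℤ) : ℝ)| + t * Real.log T + Real.log ((t + 1) * T) ≤ Lg) :
    ∃ F : Finset (Fin (j + t + 2) → ℤ), N ^ (t + 1) ≤ F.card ∧ ∀ x ∈ F, Adm x ∧ NVS x ∧
      (∀ i : Fin j, x (Fin.castAdd t i).castSucc.castSucc = a₀ i) ∧
      (radN (∏ i, x i) : ℝ) ≤ radN (∏ i, a₀ i) * ((t + 2) * (2 * t + 3)) * T ^ (t + 2) ∧
      ∀ i, (∃ i', x i = a₀ i') ∨ |(x i : ℝ)| ≤ (2 * t + 3) * T := by
  classical
  have hT1 := hp.hT
  have hT0 : 0 < T := by linarith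
  have hlogT : 0 ≤ Real.log T := Real.log_nonneg hT1
  have htR : (0 : ℝ) ≤ (t : ℝ) := by positivity
  have hlog2 : 0 ≤ Real.log ((t + 1) * T) := Real.log_nonneg (by nlinarith)
  obtain ⟨F, hF1, hF2⟩ := chainCount hp hj ha₀ (by linarith) t le_rfl
  have hone : ∀ a ∈ F, ∃ S : Finset ℤ, N ≤ S.card ∧ ∀ m ∈ S, Adm (ext a m) ∧ NVS (ext a m) ∧
      radN (∏ i, ext a m i) = radN (∏ i, a i) * (m.natAbs * (-(∑ i, a i) - m).natAbs) ∧
      |(m : ℝ)| ≤ (t + 2) * T ∧ |((-(∑ i, a i) - m : ℤ) : ℝ)| ≤ (2 * t + 3) * T := by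
    intro a ha
    obtain ⟨h1, h2, h3, h4, -, h6, -⟩ := hF2 a ha
    have hsne : ∑ i, a i ≠ 0 := by
      by_cases hjt : (univ : Finset (Fin (j + t))).Nonempty
      · exact h1.free univ hjt
      · exfalso
        rw [Finset.not_nonempty_iff_eq_empty, Finset.univ_eq_empty_iff] at hjt
        have hj0 : j = 0 := by
          by_contra h
          exact hjt.false ⟨0, by omega⟩
        subst hj0
        simp at hs0
    have hsle : |((∑ i, a i : ℤ) : ℝ)| ≤ (t + 1) * T := by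
      have e : ((∑ i, a i : ℤ) : ℝ) = ((∑ i, a i - ∑ i, a₀ i : ℤ) : ℝ) + ((∑ i, a₀ i : ℤ) : ℝ) := by
        push_cast; ring
      rw [e]
      calc _ ≤ |((∑ i, a i - ∑ i, a₀ i : ℤ) : ℝ)| + |((∑ i, a₀ i : ℤ) : ℝ)| := abs_add_le _ _
        _ ≤ t * T + T := add_le_add h4 hs
        _ = (t + 1) * T := by ring
    refine addLast hp (by omega) h1 ?_ hsne hsle ?_
    · have e : ∑ i, a i = (∑ i, a i - ∑ i, a₀ i - t) + (∑ i, a₀ i + t) := by ring
      rw [e]; exact h3.add hst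
    · have hP : ∏ i, a i ≠ 0 := Finset.prod_ne_zero_iff.mpr fun i _ => h1.ne i
      have hP0 : ∏ i, a₀ i ≠ 0 := Finset.prod_ne_zero_iff.mpr fun i _ => ha₀.ne i
      have h7 : (0 : ℝ) < |((∏ i, a i : ℤ) : ℝ)| := by rw [abs_pos]; exact_mod_cast hP
      have h8 : (0 : ℝ) < |((∏ i, a₀ i : ℤ) : ℝ)| := by rw [abs_pos]; exact_mod_cast hP0
      have h9 := Real.log_le_log h7 h6
      rw [Real.log_mul h8.ne' (by positivity), Real.log_pow] at h9
      have h10 : (0 : ℝ) < |((∑ i, a i : ℤ) : ℝ)| := by rw [abs_pos]; exact_mod_cast hsne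
      have h11 := Real.log_le_log h10 hsle
      have e : |((-(∑ i, a i) * ∏ i, a i : ℤ) : ℝ)| = |((∑ i, a i : ℤ) : ℝ)| * |((∏ i, a i : ℤ) : ℝ)| := by
        rw [Int.cast_mul, Int.cast_neg, neg_mul, abs_neg, abs_mul]
      rw [e, Real.log_mul h10.ne' h7.ne']
      linarith
  choose! S hS1 hS2 using hone
  refine ⟨F.biUnion (fun a => (S a).image (fun m => ext a m)), ?_, ?_⟩
  · refine le_trans ?_ (card_biUnion_ge F _ (fun x i => x i.castSucc.castSucc) ?_ (N := N) ?_)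
    · rw [pow_succ]; exact Nat.mul_le_mul_right _ hF1
    · intro a _ b hb
      obtain ⟨m, -, rfl⟩ := mem_image.mp hb
      funext i
      exact ext_first a m i
    · intro a ha
      rw [Finset.card_image_of_injective]
      · exact hS1 a ha
      · intro m m' h
        have := congrFun h (Fin.last _).castSucc
        simpa only [ext_mid] using this
  · intro x hx
    obtain ⟨a, ha, hx⟩ := mem_biUnion.mp hx
    obtain ⟨m, hm, rfl⟩ := mem_image.mp hx
    obtain ⟨h1, h2, h3, h4, h5, h6, h7⟩ := hF2 a ha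
    obtain ⟨c1, c2, c3, c4, c5⟩ := hS2 a ha m hm
    refine ⟨c1, c2, ?_, ?_, ?_⟩
    · intro i
      rw [ext_first]; exact h2 i
    · rw [c3, Nat.cast_mul, Nat.cast_mul, Nat.cast_natAbs, Nat.cast_natAbs, Int.cast_abs, Int.cast_abs]
      calc (radN (∏ i, a i) : ℝ) * (|(m : ℝ)| * |((-(∑ i, a i) - m : ℤ) : ℝ)|) ≤
          (radN (∏ i, a₀ i) * T ^ t) * (((t + 2) * T) * ((2 * t + 3) * T)) := by
            apply mul_le_mul h5 _ (by positivity) (by positivity)
            exact mul_le_mul c4 c5 (abs_nonneg _) (by positivity)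
        _ = radN (∏ i, a₀ i) * ((t + 2) * (2 * t + 3)) * T ^ (t + 2) := by ring
    · refine ext_cases ?_ ?_ ?_
      · intro i
        rw [ext_first]
        rcases h7 i with h | h
        · exact Or.inl h
        · right
          have : T ≤ (2 * t + 3) * T := by nlinarith
          linarith
      · right
        rw [ext_mid]
        have : ((t : ℝ) + 2) * T ≤ (2 * t + 3) * T := by nlinarith
        linarith
      · right
        rw [ext_last]; exact c5

end Pool.Agent.H42.SN
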