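import Pool.Agent.H42.SN.Prime

set_option autoImplicit false

/-!
# Tuples from polynomial families
-/

namespace Pool.Agent.H42.SN

open Finset

/-- A family of cores. -/
structure Fam (k D ρ e : ℕ) where
  a : ℕ → Fin k → ℤ
  W₀ : ℕ
  hW₀ : 0 < W₀
  y₀ : ℕ
  s : ℤ
  C : ℝ
  hC : 1 ≤ C
  core : ∀ y, y₀ ≤ y → y ≡ 1 [MOD W₀] → Core (a y)
  sum : ∀ y, -(∑ i, a y i) = s
  even : Even s
  top : Fin k
  htop : ∀ y, a y top = (y : ℤ) ^ (D * e)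
  le : ∀ y, y₀ ≤ y → ∀ i, |a y i| ≤ (y : ℤ) ^ (D * e)
  rad : ∀ y, y₀ ≤ y → (radN (∏ i, a y i) : ℝ) ≤ C * (y : ℝ) ^ (ρ * e + 1)
  cong : ∀ (y : ℕ) (i : Fin k), ((y : ℤ) - 1) ∣ a y i - a 1 i
  one : ∏ i, a 1 i ≠ 0

/-- The statement of the sieve. -/
def SieveM (η : ℝ) (Y : ℕ) (c T₀ : ℝ) : Prop :=
  ∀ T : ℝ, T₀ ≤ T → ∀ s : ℤ, Even s → |(s : ℝ)| ≤ η / 2 * T →
    ∀ P : ℤ, P ≠ 0 → ∑ p ∈ P.natAbs.primeFactors with Y < p, (1 : ℝ) / p ≤ 1 / 8 →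
      (P.natAbs.primeFactors.card : ℝ) ≤ c * T → ∀ Ex : Finset ℤ, (Ex.card : ℝ) ≤ c * T →
        ∃ m : ℤ, (1 - η) * T < m ∧ (m : ℝ) ≤ (1 - η / 2) * T ∧ Squarefree m ∧ Squarefree (s - m) ∧
          IsCoprime m P ∧ IsCoprime (s - m) P ∧ m ∉ Ex

theorem bounds {η T : ℝ} {s m : ℤ} (hη : 0 < η) (hη1 : η ≤ 1 / 3) (hT : 0 ≤ T) (hs : |(s : ℝ)| ≤ η / 2 * T)
    (h1 : (1 - η) * T < m) (h2 : (m : ℝ) ≤ (1 - η / 2) * T) :
    (|(m : ℝ)| ≤ T ∧ |((s - m : ℤ) : ℝ)| ≤ T) ∧ ((1 - η) * T ≤ |(m : ℝ)| ∧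
      (1 - 3 / 2 * η) * T ≤ |((s - m : ℤ) : ℝ)|) ∧
    (1 - 3 * η) * T ^ 2 ≤ ((m.natAbs * (s - m).natAbs : ℕ) : ℝ) ∧
      ((m.natAbs * (s - m).natAbs : ℕ) : ℝ) ≤ T ^ 2 := by
  have hm0 : 0 ≤ (m : ℝ) := le_trans (mul_nonneg (by linarith) hT) h1.le
  have e1 : |(m : ℝ)| = m := abs_of_nonneg hm0
  have hs' := abs_le.mp hs
  have u1 : |((s - m : ℤ) : ℝ)| ≤ T := by
    push_cast
    rw [abs_le]
    constructor <;> nlinarith
  have u2 : (1 - 3 / 2 * η) * T ≤ |((s - m : ℤ) : ℝ)| := by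
    push_cast
    rw [le_abs]
    right
    nlinarith
  have u3 : |(m : ℝ)| ≤ T := by rw [e1]; nlinarith
  have u4 : (1 - η) * T ≤ |(m : ℝ)| := by rw [e1]; exact h1.le
  have e2 : ((m.natAbs * (s - m).natAbs : ℕ) : ℝ) = |(m : ℝ)| * |((s - m : ℤ) : ℝ)| := by
    rw [Nat.cast_mul, Nat.cast_natAbs, Nat.cast_natAbs, Int.cast_abs, Int.cast_abs]
  refine ⟨⟨u3, u1⟩, ⟨u4, u2⟩, ?_, ?_⟩
  · rw [e2]
    calc (1 - 3 * η) * T ^ 2 ≤ ((1 - η) * T) * ((1 - 3 / 2 * η) * T) := by nlinarith [mul_nonneg hη.le (sq_nonneg T), mul_nonneg (mul_nonneg hη.le hη.le) (sq_nonneg T)]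
      _ ≤ |(m : ℝ)| * |((s - m : ℤ) : ℝ)| :=
        mul_le_mul u4 u2 (mul_nonneg (by linarith) hT) (abs_nonneg _)
  · rw [e2, pow_two]
    exact mul_le_mul u3 u1 (abs_nonneg _) hT

theorem caseI_step {k D ρ e : ℕ} (F : Fam k D ρ e) {η c T₀ T : ℝ} {Y' Y y : ℕ} (hη : 0 < η)
    (hη1 : η ≤ 1 / 3) (hS : SieveM η Y' c T₀) (hy0 : F.y₀ ≤ y) (hy1 : y ≡ 1 [MOD F.W₀])
    (hyY : ∀ p : ℕ, p.Prime → p ≤ Y → (p : ℤ) ∣ (y : ℤ) - 1) (hY2 : 2 ≤ Y)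
    (hY' : ∀ p : ℕ, p.Prime → (p : ℤ) ∣ F.s * ∏ i, F.a 1 i → p ≤ Y')
    (hT0 : T₀ ≤ T) (hT1 : 0 ≤ T) (hTs : |(F.s : ℝ)| ≤ η / 2 * T) (hTtop : T ≤ (y : ℝ) ^ (D * e))
    (hσ : Real.log |((F.s * ∏ i, F.a y i : ℤ) : ℝ)| / (Y * Real.log Y) ≤ 1 / 8)
    (hω : 2 * Real.log |((F.s * ∏ i, F.a y i : ℤ) : ℝ)| ≤ c * T) (hEx : (2 : ℝ) ^ (k + 1) ≤ c * T) :
    ∃ x : Fin (k + 2) → ℤ, Adm x ∧ NVS x ∧ (size x : ℝ) = (y : ℝ) ^ (D * e) ∧
      (1 - 3 * η) * (radN (∏ i, F.a y i) * T ^ 2) ≤ radN (∏ i, x i) ∧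
      (radN (∏ i, x i) : ℝ) ≤ radN (∏ i, F.a y i) * T ^ 2 := by
  have hcore := F.core y hy0 hy1
  have hsum := F.sum y
  have hprod : ∏ i, F.a y i ≠ 0 := Finset.prod_ne_zero_iff.mpr fun i _ => hcore.ne i
  have hs0 : F.s ≠ 0 := by
    have : ∑ i, F.a y i ≠ 0 := by
      have := hcore.free univ ⟨F.top, mem_univ _⟩
      exact this
    rw [← hsum]
    exact neg_ne_zero.mpr this
  set P : ℤ := F.s * ∏ i, F.a y i with hPdef
  have hP : P ≠ 0 := mul_ne_zero hs0 hprod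
  have hsm : ∀ p : ℕ, p.Prime → (p : ℤ) ∣ P → Y' < p → Y < p := by
    intro p hp hd hlt
    by_contra hle
    have hle : p ≤ Y := by omega
    have hpy := hyY p hp hle
    have hpi : Prime (p : ℤ) := Nat.prime_iff_prime_int.mp hp
    rcases hpi.dvd_or_dvd hd with h | h
    · have := hY' p hp (h.mul_right _)
      omega
    · obtain ⟨i, -, hi⟩ := (hpi.dvd_finsetProd_iff _).mp h
      have h2 : (p : ℤ) ∣ F.a 1 i := by
        have h3 := hpy.trans (F.cong y i)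
        have := dvd_sub hi h3
        have e : F.a y i - (F.a y i - F.a 1 i) = F.a 1 i := by ring
        rwa [e] at this
      have := hY' p hp ((h2.trans (dvd_prod_of_mem _ (mem_univ i))).mul_left _)
      omega
  have hsumP := (sum_small hP hY2 hsm).trans hσ
  have hωP : (P.natAbs.primeFactors.card : ℝ) ≤ c * T := by
    refine (card_le_two_log (by simpa using hP)).trans ?_
    rw [Nat.cast_natAbs, Int.cast_abs]
    exact hω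
  have hExc : ((ExS (F.a y)).card : ℝ) ≤ c * T := by
    refine le_trans ?_ hEx
    exact_mod_cast ExS_card (F.a y)
  obtain ⟨m, m1, m2, m3, m4, m5, m6, m7⟩ := hS T hT0 F.s F.even hTs P hP hsumP hωP (ExS (F.a y)) hExc
  have hPe : -(∑ i, F.a y i) * ∏ i, F.a y i = P := by rw [hsum]
  obtain ⟨x1, x2, x3⟩ := extend (m := m) hcore m3 (by rw [hsum]; exact m4) (by rw [hPe]; exact m5)
    (by rw [hPe, hsum]; exact m6) m7
  obtain ⟨⟨b1, b2⟩, -, b3, b4⟩ := bounds hη hη1 hT1 hTs m1 m2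
  rw [hsum] at x3
  refine ⟨ext (F.a y) m, x1, x2, ?_, ?_, ?_⟩
  · apply le_antisymm
    · refine size_le (by positivity) ?_
      refine ext_cases ?_ ?_ ?_
      · intro i
        rw [ext_first]
        have := F.le y hy0 i
        have h2 : ((|F.a y i| : ℤ) : ℝ) ≤ (((y : ℤ) ^ (D * e) : ℤ) : ℝ) := by exact_mod_cast this
        push_cast at h2
        exact h2
      · rw [ext_mid]; exact b1.trans hTtop
      · rw [ext_last, hsum]; exact b2.trans hTtop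
    · have := le_size (ext (F.a y) m) F.top.castSucc.castSucc
      rw [ext_first, F.htop] at this
      push_cast at this
      rwa [abs_of_nonneg (by positivity)] at this
  · rw [x3, Nat.cast_mul]
    have : (0 : ℝ) ≤ radN (∏ i, F.a y i) := by positivity
    calc (1 - 3 * η) * (radN (∏ i, F.a y i) * T ^ 2) = radN (∏ i, F.a y i) * ((1 - 3 * η) * T ^ 2) := by ring
      _ ≤ _ := mul_le_mul_of_nonneg_left b3 this
  · rw [x3, Nat.cast_mul]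
    exact mul_le_mul_of_nonneg_left b4 (by positivity)

/-- An integer close to `Z`, congruent to `1` modulo `W`. -/
theorem exists_y {W : ℕ} (hW : 0 < W) {Z : ℝ} (hZ : 1 ≤ Z) :
    ∃ y : ℕ, 1 ≤ y ∧ (W : ℤ) ∣ (y : ℤ) - 1 ∧ Z - W < y ∧ (y : ℝ) ≤ Z := by
  have hWR : (0 : ℝ) < W := by exact_mod_cast hW
  have hn : 0 ≤ (Z - 1) / W := div_nonneg (by linarith) hWR.le
  refine ⟨1 + W * ⌊(Z - 1) / W⌋₊, by omega, ⟨⌊(Z - 1) / W⌋₊, by push_cast; ring⟩, ?_, ?_⟩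
  · push_cast
    have := Nat.lt_floor_add_one ((Z - 1) / W)
    have h2 : Z - 1 < (⌊(Z - 1) / W⌋₊ + 1) * W := by rwa [div_lt_iff₀ hWR] at this
    nlinarith
  · push_cast
    have := Nat.floor_le hn
    have h2 : (⌊(Z - 1) / W⌋₊ : ℝ) * W ≤ Z - 1 := by rwa [le_div_iff₀ hWR] at this
    linarith

end Pool.Agent.H42.SN
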