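import Pool.Agent.H42.SN.CaseI

set_option autoImplicit false

/-!
# Tuples from polynomial families: all heights
-/

namespace Pool.Agent.H42.SN

open Finset Filter Topology

theorem ev_log_le {a A B : ℝ} (ha : 0 < a) (hB : 0 < B) : ∀ᶠ H : ℝ in atTop, A * Real.log H ≤ B * H ^ a := by
  have h := (isLittleO_log_rpow_atTop ha).def (c := B / (|A| + 1)) (by positivity)
  filter_upwards [h, eventually_ge_atTop (1 : ℝ)] with H h1 h2
  have h3 : 0 ≤ Real.log H := Real.log_nonneg h2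
  rw [Real.norm_of_nonneg h3, Real.norm_of_nonneg (by positivity)] at h1
  have h4 : A * Real.log H ≤ (|A| + 1) * Real.log H :=
    mul_le_mul_of_nonneg_right ((le_abs_self A).trans (by linarith)) h3
  have h5 : (|A| + 1) * Real.log H ≤ (|A| + 1) * (B / (|A| + 1) * H ^ a) :=
    mul_le_mul_of_nonneg_left h1 (by positivity)
  have h6 : (|A| + 1) * (B / (|A| + 1) * H ^ a) = B * H ^ a := by field_simp
  linarith

theorem ev_const_le {a A B : ℝ} (ha : 0 < a) (hB : 0 < B) : ∀ᶠ H : ℝ in atTop, A ≤ B * H ^ a := by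
  have h := (tendsto_rpow_atTop ha).const_mul_atTop hB
  exact h.eventually_ge_atTop A

theorem ev_floor_log {E : ℝ} (hE : 0 < E) (A : ℝ) : ∀ᶠ H : ℝ in atTop, A ≤ (⌊Real.log H / (4 * E)⌋₊ : ℝ) := by
  have h1 : Tendsto (fun H : ℝ => Real.log H / (4 * E)) atTop atTop :=
    Real.tendsto_log_atTop.atTop_div_const (by positivity)
  filter_upwards [h1.eventually_ge_atTop (A + 1)] with H h
  have := Nat.lt_floor_add_one (Real.log H / (4 * E))
  linarith

theorem four_pow_le {E H : ℝ} (hE : 0 < E) (hH : 1 ≤ H) :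
    (4 : ℝ) ^ ⌊Real.log H / (4 * E)⌋₊ ≤ H ^ (1 / (2 * E)) := by
  have hl : 0 ≤ Real.log H := Real.log_nonneg hH
  have h1 : (⌊Real.log H / (4 * E)⌋₊ : ℝ) ≤ Real.log H / (4 * E) := Nat.floor_le (by positivity)
  have h2 : Real.log 4 ≤ 2 := by
    have : Real.log 4 = 2 * Real.log 2 := by
      rw [show (4 : ℝ) = 2 ^ 2 by norm_num, Real.log_pow]; norm_num
    rw [this]
    have := Real.log_two_lt_d9
    linarith
  have h3 : 0 < Real.log 4 := Real.log_pos (by norm_num)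
  rw [← Real.rpow_natCast, Real.rpow_def_of_pos (by norm_num), Real.rpow_def_of_pos (by linarith)]
  apply Real.exp_le_exp.mpr
  calc Real.log 4 * (⌊Real.log H / (4 * E)⌋₊ : ℝ) ≤ 2 * (Real.log H / (4 * E)) :=
        mul_le_mul h2 h1 (by positivity) (by norm_num)
    _ = Real.log H * (1 / (2 * E)) := by field_simp; ring

theorem caseI {k D ρ : ℕ} (hD : 1 ≤ D) (F : ∀ e : ℕ, 1 ≤ e → Fam k D ρ e) {δ ε B : ℝ} (hδ : 0 < δ)
    (hε : 0 < ε) (hε1 : ε ≤ 1) (hB : 0 < B) :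
    ∃ H₀ : ℝ, 1 ≤ H₀ ∧ ∀ H R : ℝ, H₀ ≤ H → H ^ ((ρ : ℝ) / D + δ) ≤ R → R ≤ B * H ^ 2 →
      ∃ x : Fin (k + 2) → ℤ, Adm x ∧ NVS x ∧ (1 - ε) * H ≤ size x ∧ (size x : ℝ) ≤ H ∧
        (1 - ε) * R ≤ radN (∏ i, x i) ∧ (radN (∏ i, x i) : ℝ) ≤ R := by
  set e : ℕ := ⌈2 / δ⌉₊ with he
  have he1 : 1 ≤ e := Nat.one_le_ceil_iff.mpr (by positivity)
  have heδ : 2 / δ ≤ e := Nat.le_ceil _
  set G := F e he1 with hG
  set E : ℝ := ((D * e : ℕ) : ℝ) with hE
  have hDe : 1 ≤ D * e := Nat.one_le_iff_ne_zero.mpr (Nat.mul_ne_zero (by omega) (by omega))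
  have hE1 : 1 ≤ E := by rw [hE]; exact_mod_cast hDe
  have hE0 : 0 < E := by linarith
  set η : ℝ := ε / (3 * E) with hη
  have hη0 : 0 < η := by positivity
  have hηE : E * η = ε / 3 := by rw [hη]; field_simp
  have hη3 : 3 * η ≤ ε := by nlinarith
  have hη1 : η ≤ 1 / 3 := by linarith
  set Q₁ : ℤ := G.s * ∏ i, G.a 1 i with hQ₁
  set Y' : ℕ := max 16 Q₁.natAbs with hY'
  obtain ⟨c, T₀, hc, hT₀, hS⟩ := sieveM hη0 (by linarith) (Y := Y') (le_max_left _ _)
  have hS' : SieveM η Y' c T₀ := hS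
  have hC0 : 0 < G.C := by linarith [G.hC]
  -- the conditions on `H`
  have ev : ∀ᶠ H : ℝ in atTop, 1 ≤ H ∧ |(G.s : ℝ)| ≤ H ∧
      ((max 2 (16 * B) ≤ (⌊Real.log H / (4 * E)⌋₊ : ℝ)) ∧
        (Real.exp (64 * E * (k + 1)) ≤ (⌊Real.log H / (4 * E)⌋₊ : ℝ))) ∧
      ((G.W₀ : ℝ) ≤ η * H ^ (1 / (2 * E))) ∧
      (((G.y₀ : ℝ) + 2) ≤ (1 - η) * H ^ (1 / E)) ∧
      (T₀ ≤ 1 / G.C * H ^ (δ / 4) ∧ |(G.s : ℝ)| ≤ (η / 2) * (1 / G.C) * H ^ (δ / 4)) ∧
      (2 * ((k : ℝ) + 1) * Real.log H ≤ (c * (1 / G.C)) * H ^ (δ / 4)) ∧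
      ((2 : ℝ) ^ (k + 1) ≤ (c * (1 / G.C)) * H ^ (δ / 4)) := by
    refine (eventually_ge_atTop 1).and ((eventually_ge_atTop _).and
      (((ev_floor_log hE0 _).and (ev_floor_log hE0 _)).and ?_))
    refine (ev_const_le (by positivity) hη0).and ((ev_const_le (by positivity) (by linarith)).and
      (((ev_const_le (by positivity) (by positivity)).and (ev_const_le (by positivity) (by positivity))).and
      ((ev_log_le (by positivity) (by positivity)).and (ev_const_le (by positivity) (by positivity)))))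
  obtain ⟨H₁, hH₁⟩ := eventually_atTop.mp ev
  refine ⟨max 1 H₁, le_max_left _ _, ?_⟩
  intro H R hH hR1 hR2
  obtain ⟨g1, g2, ⟨g3, g4⟩, g5, g6, ⟨g7, g8⟩, g9, g10⟩ := hH₁ H ((le_max_right _ _).trans hH)
  have hH0 : 0 < H := by linarith
  have hlogH : 0 ≤ Real.log H := Real.log_nonneg g1
  set Y : ℕ := ⌊Real.log H / (4 * E)⌋₊ with hY
  have hY2 : 2 ≤ Y := by
    have : (2 : ℝ) ≤ (Y : ℝ) := (le_max_left _ _).trans g3
    exact_mod_cast this
  have hYR : (2 : ℝ) ≤ (Y : ℝ) := by exact_mod_cast hY2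
  set Z : ℝ := H ^ (1 / E) with hZ
  have hZ1 : 1 ≤ Z := Real.one_le_rpow g1 (by positivity)
  have hZE : Z ^ (D * e) = H := by
    rw [hZ, ← Real.rpow_natCast, ← Real.rpow_mul hH0.le, ← hE]
    rw [one_div_mul_cancel hE0.ne', Real.rpow_one]
  set W : ℕ := G.W₀ * primorial Y with hW
  have hW0 : 0 < W := Nat.mul_pos G.hW₀ (primorial_pos Y)
  have hWZ : (W : ℝ) ≤ η * Z := by
    have h1 : ((primorial Y : ℕ) : ℝ) ≤ H ^ (1 / (2 * E)) := by
      refine le_trans ?_ (four_pow_le hE0 g1)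
      exact_mod_cast primorial_le_four_pow Y
    have h2 : H ^ (1 / (2 * E)) * H ^ (1 / (2 * E)) = Z := by
      rw [hZ, ← Real.rpow_add hH0]
      congr 1
      field_simp
      ring
    rw [hW, Nat.cast_mul, ← h2, ← mul_assoc]
    exact mul_le_mul g5 h1 (by positivity) (by positivity)
  obtain ⟨y, hy1, hyW, hyZ, hyZ'⟩ := exists_y hW0 hZ1
  have hyη : (1 - η) * Z ≤ y := by linarith
  have hy2 : (G.y₀ : ℝ) + 2 ≤ y := g6.trans hyη
  have hy0 : G.y₀ ≤ y := by
    have : (G.y₀ : ℝ) ≤ y := by linarith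
    exact_mod_cast this
  have hy3 : 2 ≤ y := by
    have : (2 : ℝ) ≤ y := by
      have : (0 : ℝ) ≤ (G.y₀ : ℝ) := by positivity
      linarith
    exact_mod_cast this
  have hyW₀ : y ≡ 1 [MOD G.W₀] := by
    rw [← Int.natCast_modEq_iff]
    refine (Int.modEq_iff_dvd.mpr ?_).symm
    push_cast
    refine dvd_trans ?_ hyW
    exact ⟨(primorial Y : ℤ), by rw [hW]; push_cast; ring⟩
  have hyY : ∀ p : ℕ, p.Prime → p ≤ Y → (p : ℤ) ∣ (y : ℤ) - 1 := by
    intro p hp hpY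
    refine dvd_trans ?_ hyW
    have : p ∣ W := ((hp.dvd_primorial_iff).mpr hpY).mul_left _
    exact_mod_cast this
  -- the size
  have hyE1 : (y : ℝ) ^ (D * e) ≤ H := by
    rw [← hZE]; exact pow_le_pow_left₀ (by positivity) hyZ' _
  have hyE2 : (1 - ε / 3) * H ≤ (y : ℝ) ^ (D * e) := by
    have h1 : ((1 - η) * Z) ^ (D * e) ≤ (y : ℝ) ^ (D * e) :=
      pow_le_pow_left₀ (mul_nonneg (by linarith) (by linarith)) hyη _
    rw [mul_pow, hZE] at h1
    have h2 : 1 - ε / 3 ≤ (1 - η) ^ (D * e) := by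
      have := one_add_mul_le_pow (a := -η) (by linarith) (D * e)
      rw [← hE] at this
      have e1 : 1 + E * -η = 1 - ε / 3 := by rw [mul_neg, hηE]; ring
      rw [e1] at this
      simpa [sub_eq_add_neg] using this
    exact (mul_le_mul_of_nonneg_right h2 hH0.le).trans h1
  -- the radical of the core
  have hcore := G.core y hy0 hyW₀
  have hprod : ∏ i, G.a y i ≠ 0 := Finset.prod_ne_zero_iff.mpr fun i _ => hcore.ne i
  set R₀ : ℝ := (radN (∏ i, G.a y i) : ℝ) with hR₀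
  have hR₀pos : 0 < R₀ := by rw [hR₀]; exact_mod_cast radN_pos _
  have hR₀Y : (Y : ℝ) ≤ R₀ := by
    obtain ⟨p, hp, hpy⟩ := Nat.exists_prime_and_dvd (n := y) (by omega)
    have h1 : Y < p := by
      by_contra hle
      have h2 := hyY p hp (by omega)
      have h3 : (p : ℤ) ∣ (y : ℤ) := by exact_mod_cast hpy
      have h4 : (p : ℤ) ∣ 1 := by
        have := dvd_sub h3 h2
        have e : (y : ℤ) - (y - 1) = 1 := by ring
        rwa [e] at this
      have h5 : p ∣ 1 := by exact_mod_cast h4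
      exact hp.one_lt.ne' (Nat.dvd_one.mp h5)
    have h2 : (p : ℤ) ∣ ∏ i, G.a y i := by
      refine dvd_trans ?_ (dvd_prod_of_mem _ (mem_univ G.top))
      rw [G.htop]
      have h3 : (p : ℤ) ∣ (y : ℤ) := by exact_mod_cast hpy
      exact h3.trans (dvd_pow_self _ (by omega))
    have h3 : p ∣ radN (∏ i, G.a y i) := by
      refine Finset.dvd_prod_of_mem (fun p => p) ?_
      exact Nat.mem_primeFactors.mpr ⟨hp, natAbs_prime_dvd.mpr h2, by simpa using hprod⟩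
    have h4 : p ≤ radN (∏ i, G.a y i) := Nat.le_of_dvd (radN_pos _) h3
    rw [hR₀]
    exact_mod_cast (h1.le.trans h4)
  have hR₀B : 16 * B ≤ R₀ := ((le_max_right _ _).trans g3).trans hR₀Y
  have hR₀le : R₀ ≤ G.C * H ^ ((ρ : ℝ) / D + δ / 2) := by
    refine (G.rad y hy0).trans ?_
    refine mul_le_mul_of_nonneg_left ?_ hC0.le
    calc (y : ℝ) ^ (ρ * e + 1) ≤ Z ^ (ρ * e + 1) := pow_le_pow_left₀ (by positivity) hyZ' _
      _ = H ^ ((1 / E) * ((ρ * e + 1 : ℕ) : ℝ)) := by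
        rw [hZ, ← Real.rpow_natCast, ← Real.rpow_mul hH0.le]
      _ ≤ H ^ ((ρ : ℝ) / D + δ / 2) := by
        apply Real.rpow_le_rpow_of_exponent_le g1
        have hDR : (1 : ℝ) ≤ D := by exact_mod_cast hD
        have heR : (1 : ℝ) ≤ e := by exact_mod_cast he1
        have e1 : (1 / E) * ((ρ * e + 1 : ℕ) : ℝ) = (ρ : ℝ) / D + 1 / (D * e) := by
          rw [hE]; push_cast; field_simp
        rw [e1]
        have h3 : 1 / ((D : ℝ) * e) ≤ δ / 2 := by
          rw [div_le_iff₀ (by positivity)]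
          rw [div_le_iff₀ hδ] at heδ
          have : (e : ℝ) * δ ≤ δ / 2 * (D * e) * 2 := by nlinarith [mul_nonneg (by linarith : (0 : ℝ) ≤ (D : ℝ) - 1) (mul_nonneg hδ.le (by linarith : (0 : ℝ) ≤ (e : ℝ)))]
          linarith
        linarith
  have hRpos : 0 < R := lt_of_lt_of_le (Real.rpow_pos_of_pos hH0 _) hR1
  set T : ℝ := Real.sqrt (R / R₀) with hT
  have hTsq : R₀ * T ^ 2 = R := by
    rw [hT, Real.sq_sqrt (by positivity)]; field_simp
  have hTlow : 1 / G.C * H ^ (δ / 4) ≤ T := by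
    apply Real.le_sqrt_of_sq_le
    rw [le_div_iff₀ hR₀pos]
    have e1 : (1 / G.C * H ^ (δ / 4)) ^ 2 = 1 / G.C ^ 2 * H ^ (δ / 2) := by
      rw [mul_pow, ← Real.rpow_natCast (H ^ (δ / 4)), ← Real.rpow_mul hH0.le]
      congr 1
      · ring
      · congr 1; push_cast; ring
    rw [e1]
    calc 1 / G.C ^ 2 * H ^ (δ / 2) * R₀ ≤ 1 / G.C ^ 2 * H ^ (δ / 2) * (G.C * H ^ ((ρ : ℝ) / D + δ / 2)) :=
          mul_le_mul_of_nonneg_left hR₀le (by positivity)
      _ = 1 / G.C * (H ^ (δ / 2) * H ^ ((ρ : ℝ) / D + δ / 2)) := by field_simp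
      _ = 1 / G.C * H ^ ((ρ : ℝ) / D + δ) := by
        rw [← Real.rpow_add hH0]; congr 2; ring
      _ ≤ 1 * H ^ ((ρ : ℝ) / D + δ) := by
        apply mul_le_mul_of_nonneg_right _ (by positivity)
        rw [div_le_one hC0]; exact G.hC
      _ ≤ R := by rw [one_mul]; exact hR1
  have hTtop : T ≤ (y : ℝ) ^ (D * e) := by
    have h1 : T ≤ H / 4 := by
      apply Real.sqrt_le_iff.mpr
      refine ⟨by positivity, ?_⟩
      rw [div_le_iff₀ hR₀pos]
      calc R ≤ B * H ^ 2 := hR2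
        _ = (H / 4) ^ 2 * (16 * B) := by ring
        _ ≤ (H / 4) ^ 2 * R₀ := mul_le_mul_of_nonneg_left hR₀B (by positivity)
    have h2 : H / 4 ≤ (1 - ε / 3) * H := by nlinarith
    linarith
  have hPlog : Real.log |((G.s * ∏ i, G.a y i : ℤ) : ℝ)| ≤ ((k : ℝ) + 1) * Real.log H := by
    have hs0 : G.s ≠ 0 := by
      rw [← G.sum y]
      exact neg_ne_zero.mpr (hcore.free univ ⟨G.top, mem_univ _⟩)
    have h1 : |((G.s * ∏ i, G.a y i : ℤ) : ℝ)| ≤ H ^ (k + 1) := by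
      push_cast
      rw [abs_mul, Finset.abs_prod, pow_succ, mul_comm (H ^ k)]
      refine mul_le_mul g2 ?_ (Finset.prod_nonneg fun _ _ => abs_nonneg _) hH0.le
      have h2 : ∏ i : Fin k, |(G.a y i : ℝ)| ≤ ∏ _i : Fin k, H := by
        refine Finset.prod_le_prod (fun _ _ => abs_nonneg _) fun i _ => ?_
        have := G.le y hy0 i
        have h2 : ((|G.a y i| : ℤ) : ℝ) ≤ (((y : ℤ) ^ (D * e) : ℤ) : ℝ) := by exact_mod_cast this
        push_cast at h2
        exact h2.trans hyE1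
      simpa using h2
    have h2 : (0 : ℝ) < |((G.s * ∏ i, G.a y i : ℤ) : ℝ)| := by
      rw [abs_pos]
      exact_mod_cast mul_ne_zero hs0 hprod
    have h3 := Real.log_le_log h2 h1
    rw [Real.log_pow] at h3
    push_cast at h3 ⊢
    exact h3
  have hσ : Real.log |((G.s * ∏ i, G.a y i : ℤ) : ℝ)| / (Y * Real.log Y) ≤ 1 / 8 := by
    have hlY : 64 * E * (k + 1) ≤ Real.log Y := by
      rw [← Real.log_exp (64 * E * (k + 1))]
      exact Real.log_le_log (Real.exp_pos _) g4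
    have hlY0 : 0 < Real.log Y := lt_of_lt_of_le (by positivity) hlY
    rw [div_le_iff₀ (by positivity)]
    refine hPlog.trans ?_
    have h1 : Real.log H / (4 * E) < Y + 1 := Nat.lt_floor_add_one _
    have h2 : Real.log H ≤ 8 * E * Y := by
      rw [div_lt_iff₀ (by positivity)] at h1
      nlinarith
    calc ((k : ℝ) + 1) * Real.log H ≤ ((k : ℝ) + 1) * (8 * E * Y) :=
          mul_le_mul_of_nonneg_left h2 (by positivity)
      _ = 1 / 8 * (Y * (64 * E * (k + 1))) := by ring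
      _ ≤ 1 / 8 * (Y * Real.log Y) := by
        apply mul_le_mul_of_nonneg_left _ (by norm_num)
        exact mul_le_mul_of_nonneg_left hlY (by positivity)
  have hcC : c * (1 / G.C) * H ^ (δ / 4) ≤ c * T := by
    rw [mul_assoc]; exact mul_le_mul_of_nonneg_left hTlow hc.le
  obtain ⟨x, x1, x2, x3, x4, x5⟩ := caseI_step G (Y' := Y') (Y := Y) (T := T) hη0 hη1 hS' hy0 hyW₀ hyY hY2
    (fun p hp hd => by
      have hne : Q₁ ≠ 0 := by
        refine mul_ne_zero ?_ G.one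
        rw [← G.sum y]
        exact neg_ne_zero.mpr (hcore.free univ ⟨G.top, mem_univ _⟩)
      have : p ∣ Q₁.natAbs := natAbs_prime_dvd.mpr hd
      exact (Nat.le_of_dvd (by omega) this).trans (le_max_right _ _))
    (g7.trans hTlow) (Real.sqrt_nonneg _)
    (g8.trans (by
      rw [mul_assoc]; exact mul_le_mul_of_nonneg_left hTlow (by positivity)))
    hTtop hσ
    (by
      have := mul_le_mul_of_nonneg_left hPlog (by norm_num : (0 : ℝ) ≤ 2)
      linarith)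
    (g10.trans hcC)
  rw [hTsq] at x4 x5
  refine ⟨x, x1, x2, ?_, ?_, ?_, x5⟩
  · rw [x3]
    refine le_trans ?_ hyE2
    nlinarith
  · rw [x3]; exact hyE1
  · refine le_trans ?_ x4
    nlinarith

end Pool.Agent.H42.SN
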