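import Pool.Agent.H42.SN.CaseI2

set_option autoImplicit false

/-!
# Tuples with large radical
-/

namespace Pool.Agent.H42.SN

open Finset Filter Topology

theorem pick (K : ℕ) {η : ℝ} (hη : 0 < η) (hη1 : η ≤ 1 / 2) (A₁ : ℝ) :
    ∃ L₀ : ℝ, 1 ≤ L₀ ∧ ∀ L : ℝ, L₀ ≤ L → A₁ ≤ L ∧ 16 ≤ ⌊Real.log L / (4 * 2)⌋₊ ∧
      128 * ((K : ℝ) + 2) ≤ Real.log (⌊Real.log L / (4 * 2)⌋₊ : ℝ) ∧
      ∀ U : ℝ, L / 2 ≤ U → U ≤ 2 ^ K * L → ∀ P : ℤ, P ≠ 0 →
        (∀ p : ℕ, p.Prime → (p : ℤ) ∣ P → ⌊Real.log L / (4 * 2)⌋₊ < p) → |(P : ℝ)| ≤ L ^ K →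
        ∃ m : ℤ, (1 - η) * U < m ∧ (m : ℝ) ≤ U ∧ ((primorial ⌊Real.log L / (4 * 2)⌋₊ : ℕ) : ℤ) ∣ m - 1 ∧
          Squarefree m ∧ IsCoprime m P := by
  have ev : ∀ᶠ L : ℝ in atTop, 1 ≤ L ∧ A₁ ≤ L ∧
      (16 ≤ (⌊Real.log L / (4 * 2)⌋₊ : ℝ) ∧ Real.exp (128 * ((K : ℝ) + 2)) ≤ (⌊Real.log L / (4 * 2)⌋₊ : ℝ)) ∧
      (2 * Real.sqrt (2 * 2 ^ K) ≤ η / 16 * L ^ ((1 : ℝ) / 4)) ∧
      (4 * (K : ℝ) * Real.log L ≤ η / 16 * L ^ ((3 : ℝ) / 4)) ∧
      (4 ≤ η / 16 * L ^ ((3 : ℝ) / 4)) ∧ (4 ≤ η * L ^ (1 : ℝ)) := by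
    refine (eventually_ge_atTop 1).and ((eventually_ge_atTop _).and
      (((ev_floor_log (by norm_num) _).and (ev_floor_log (by norm_num) _)).and ?_))
    exact (ev_const_le (by norm_num) (by positivity)).and ((ev_log_le (by norm_num) (by positivity)).and
      ((ev_const_le (by norm_num) (by positivity)).and (ev_const_le (by norm_num) (by positivity))))
  obtain ⟨L₁, hL₁⟩ := eventually_atTop.mp ev
  refine ⟨max 1 L₁, le_max_left _ _, ?_⟩
  intro L hL
  obtain ⟨g1, g2, ⟨g3, g4⟩, g5, g6, g7, g8⟩ := hL₁ L ((le_max_right _ _).trans hL)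
  have hL0 : 0 < L := by linarith
  rw [Real.rpow_one] at g8
  set Y : ℕ := ⌊Real.log L / (4 * 2)⌋₊ with hY
  have hY16 : 16 ≤ Y := by exact_mod_cast g3
  refine ⟨g2, hY16, ?_, ?_⟩
  · rw [← Real.log_exp (128 * ((K : ℝ) + 2))]
    exact Real.log_le_log (Real.exp_pos _) g4
  have hlY : 128 * ((K : ℝ) + 2) ≤ Real.log Y := by
    rw [← Real.log_exp (128 * ((K : ℝ) + 2))]
    exact Real.log_le_log (Real.exp_pos _) g4
  have hlY0 : 0 < Real.log Y := lt_of_lt_of_le (by positivity) hlY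
  intro U hU1 hU2 P hP hPY hPL
  have hW : ((primorial Y : ℕ) : ℝ) ≤ L ^ ((1 : ℝ) / 4) := by
    have h1 : ((primorial Y : ℕ) : ℝ) ≤ (4 : ℝ) ^ Y := by exact_mod_cast primorial_le_four_pow Y
    have h2 := four_pow_le (E := 2) (by norm_num) g1
    have e : (1 : ℝ) / (2 * 2) = 1 / 4 := by norm_num
    rw [e] at h2
    exact h1.trans h2
  have hW0 : (0 : ℝ) < ((primorial Y : ℕ) : ℝ) := by exact_mod_cast primorial_pos Y
  have hlogP : Real.log |(P : ℝ)| ≤ K * Real.log L := by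
    rw [← Real.log_pow]
    apply Real.log_le_log _ hPL
    rw [abs_pos]; exact_mod_cast hP
  set A : ℤ := ⌊(1 - η) * U⌋ with hA
  set B : ℤ := ⌊U⌋ with hB
  have a1 : (A : ℝ) ≤ (1 - η) * U := Int.floor_le _
  have a2 : (1 - η) * U < A + 1 := Int.lt_floor_add_one _
  have b1 : (B : ℝ) ≤ U := Int.floor_le _
  have b2 : U < B + 1 := Int.lt_floor_add_one _
  have hU0 : 0 < U := by linarith
  have hηU : η * (L / 2) ≤ η * U := mul_le_mul_of_nonneg_left hU1 hη.le
  have hA0 : 0 ≤ A := Int.floor_nonneg.mpr (mul_nonneg (by linarith) hU0.le)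
  have hAB : A < B := by
    have : (A : ℝ) < B := by nlinarith
    exact_mod_cast this
  have h3 : ∑ p ∈ P.natAbs.primeFactors with Y < p, (1 : ℝ) / p ≤ 1 / 8 := by
    refine (sum_small hP (by omega) (fun p hp hd _ => hPY p hp hd)).trans ?_
    rw [div_le_iff₀ (by positivity)]
    have h1 : Real.log L / (4 * 2) < Y + 1 := Nat.lt_floor_add_one _
    have h2 : Real.log L ≤ 16 * Y := by
      have : (1 : ℝ) ≤ Y := by linarith
      rw [div_lt_iff₀ (by norm_num)] at h1
      linarith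
    calc Real.log |(P : ℝ)| ≤ K * Real.log L := hlogP
      _ ≤ (K : ℝ) * (16 * Y) := mul_le_mul_of_nonneg_left h2 (by positivity)
      _ ≤ 1 / 8 * (Y * (128 * ((K : ℝ) + 2))) := by
        have : (0 : ℝ) ≤ (Y : ℝ) := by positivity
        nlinarith
      _ ≤ 1 / 8 * (Y * Real.log Y) := by
        apply mul_le_mul_of_nonneg_left _ (by norm_num)
        exact mul_le_mul_of_nonneg_left hlY (by positivity)
  have h4 : 2 * Real.sqrt (2 * B) + 2 * P.natAbs.primeFactors.card + (∅ : Finset ℤ).card + 2 <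
      5 / 8 * (((B : ℝ) - A) / ((primorial Y : ℕ) : ℝ)) := by
    have hx : 5 / 8 * ((η * (L / 2) - 1) / ((primorial Y : ℕ) : ℝ)) ≤
        5 / 8 * (((B : ℝ) - A) / ((primorial Y : ℕ) : ℝ)) := by
      apply mul_le_mul_of_nonneg_left _ (by norm_num)
      apply div_le_div_of_nonneg_right _ hW0.le
      nlinarith
    have hL34 : L = L ^ ((3 : ℝ) / 4) * L ^ ((1 : ℝ) / 4) := by
      rw [← Real.rpow_add hL0]; norm_num
    have hL12 : L ^ ((1 : ℝ) / 2) * L ^ ((1 : ℝ) / 4) = L ^ ((3 : ℝ) / 4) := by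
      rw [← Real.rpow_add hL0]; norm_num
    have hq0 : 0 < L ^ ((1 : ℝ) / 4) := Real.rpow_pos_of_pos hL0 _
    have hq1 : 1 ≤ L ^ ((1 : ℝ) / 4) := Real.one_le_rpow g1 (by norm_num)
    have hy : η * 5 / 16 * L ^ ((3 : ℝ) / 4) - 1 ≤ 5 / 8 * ((η * (L / 2) - 1) / ((primorial Y : ℕ) : ℝ)) := by
      have h5 : (η * (L / 2) - 1) / L ^ ((1 : ℝ) / 4) ≤ (η * (L / 2) - 1) / ((primorial Y : ℕ) : ℝ) := by
        apply div_le_div_of_nonneg_left (by linarith) hW0 hW
      have h6 : (η * (L / 2) - 1) / L ^ ((1 : ℝ) / 4) = η / 2 * L ^ ((3 : ℝ) / 4) - 1 / L ^ ((1 : ℝ) / 4) := by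
        have h7 : η * (L / 2) = η / 2 * L ^ ((3 : ℝ) / 4) * L ^ ((1 : ℝ) / 4) := by
          rw [mul_assoc, ← hL34]; ring
        rw [sub_div, h7, mul_div_assoc, div_self hq0.ne', mul_one]
      have h8 : 1 / L ^ ((1 : ℝ) / 4) ≤ 1 := by rw [div_le_one hq0]; exact hq1
      rw [h6] at h5
      linarith
    have hsq : 2 * Real.sqrt (2 * B) ≤ η / 16 * L ^ ((3 : ℝ) / 4) := by
      have h5 : Real.sqrt (2 * B) ≤ Real.sqrt (2 * 2 ^ K) * L ^ ((1 : ℝ) / 2) := by
        rw [← Real.sqrt_eq_rpow, ← Real.sqrt_mul (by positivity)]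
        apply Real.sqrt_le_sqrt
        linarith
      calc 2 * Real.sqrt (2 * B) ≤ (2 * Real.sqrt (2 * 2 ^ K)) * L ^ ((1 : ℝ) / 2) := by linarith
        _ ≤ (η / 16 * L ^ ((1 : ℝ) / 4)) * L ^ ((1 : ℝ) / 2) :=
          mul_le_mul_of_nonneg_right g5 (by positivity)
        _ = η / 16 * L ^ ((3 : ℝ) / 4) := by rw [← hL12]; ring
    have hω : 2 * (P.natAbs.primeFactors.card : ℝ) ≤ η / 16 * L ^ ((3 : ℝ) / 4) := by
      have h5 := card_le_two_log (N := P.natAbs) (by simpa using hP)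
      rw [Nat.cast_natAbs, Int.cast_abs] at h5
      linarith
    have hy0 : 0 < η * L ^ ((3 : ℝ) / 4) := by positivity
    rw [Finset.card_empty]
    push_cast
    linarith
  obtain ⟨m, m1, m2, m3, m4, -, m5, -, -⟩ := sieve (r := 1) (s := 0) (P := P) (W := primorial Y) (Y := Y)
    (Ex := ∅) hA0 hAB (primorial_pos Y) hY16 (by rw [abs_zero]; omega) hP
    (fun p hp hpY => (hp.dvd_primorial_iff).mpr hpY)
    (fun p hp hpW => by
      have hpp : Prime (p : ℤ) := Nat.prime_iff_prime_int.mp hp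
      refine ⟨fun h => hpp.not_isUnit (isUnit_of_dvd_one h), fun h => hpp.not_isUnit (isUnit_of_dvd_one ?_)⟩
      have : (p : ℤ) ∣ -(0 - 1) := (dvd_neg).mpr h
      simpa using this) h3 h4
  refine ⟨m, ?_, ?_, ?_, m4, m5⟩
  · have : A + 1 ≤ m := m1
    have : ((A + 1 : ℤ) : ℝ) ≤ m := by exact_mod_cast this
    push_cast at this
    linarith
  · have : (m : ℝ) ≤ B := by exact_mod_cast m2
    linarith
  · exact (m3.symm).dvd

theorem chain (K : ℕ) {L : ℝ} {Y : ℕ} (hL : 1 ≤ L)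
    (H : ∀ P : ℤ, P ≠ 0 → (∀ p : ℕ, p.Prime → (p : ℤ) ∣ P → Y < p) → |(P : ℝ)| ≤ L ^ K →
        ∃ m : ℤ, L / 2 < m ∧ (m : ℝ) ≤ L ∧ ((primorial Y : ℕ) : ℤ) ∣ m - 1 ∧
          Squarefree m ∧ IsCoprime m P) :
    ∀ j : ℕ, j ≤ K + 1 → ∃ a : Fin j → ℤ, (∀ i, L / 2 < a i ∧ (a i : ℝ) ≤ L ∧ ((primorial Y : ℕ) : ℤ) ∣ a i - 1) ∧
      (∀ i i', i ≠ i' → IsCoprime (a i) (a i')) ∧ radN (∏ i, a i) = (∏ i, a i).natAbs := by
  intro j
  induction j with
  | zero =>
    intro _
    refine ⟨Fin.elim0, fun i => i.elim0, fun i => i.elim0, ?_⟩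
    simp [radN]
  | succ j ih =>
    intro hj
    obtain ⟨a, a1, a2, a3⟩ := ih (by omega)
    have hpos : ∀ i, 0 < a i := fun i => by
      have : (0 : ℝ) < (a i : ℝ) := by linarith [(a1 i).1]
      exact_mod_cast this
    have hP : ∏ i, a i ≠ 0 := Finset.prod_ne_zero_iff.mpr fun i _ => (hpos i).ne'
    have hcop1 : ∀ z : ℤ, ((primorial Y : ℕ) : ℤ) ∣ z - 1 → ∀ p : ℕ, p.Prime → (p : ℤ) ∣ z → Y < p := by
      intro z hz p hp hpz
      by_contra hle
      have hpp : Prime (p : ℤ) := Nat.prime_iff_prime_int.mp hp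
      have h1 : (p : ℤ) ∣ z - 1 := by
        refine dvd_trans ?_ hz
        have : p ∣ primorial Y := (hp.dvd_primorial_iff).mpr (by omega)
        exact_mod_cast this
      have h2 := dvd_sub hpz h1
      have e : z - (z - 1) = 1 := by ring
      rw [e] at h2
      exact hpp.not_isUnit (isUnit_of_dvd_one h2)
    obtain ⟨m, m1, m2, m3, m4, m5⟩ := H (∏ i, a i) hP (by
      intro p hp hd
      have hpp : Prime (p : ℤ) := Nat.prime_iff_prime_int.mp hp
      obtain ⟨i, -, hi⟩ := (hpp.dvd_finsetProd_iff _).mp hd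
      exact hcop1 _ (a1 i).2.2 p hp hi) (by
      push_cast
      rw [Finset.abs_prod]
      calc ∏ i : Fin j, |(a i : ℝ)| ≤ ∏ _i : Fin j, L := by
            refine Finset.prod_le_prod (fun _ _ => abs_nonneg _) fun i _ => ?_
            rw [abs_of_nonneg (by exact_mod_cast (hpos i).le)]
            exact (a1 i).2.1
        _ = L ^ j := by simp
        _ ≤ L ^ K := pow_le_pow_right₀ hL (by omega))
    refine ⟨Fin.snoc (α := fun _ => ℤ) a m, ?_, ?_, ?_⟩
    · intro i
      induction i using Fin.lastCases with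
      | last => simp only [Fin.snoc_last]; exact ⟨m1, m2, m3⟩
      | cast i => simp only [Fin.snoc_castSucc]; exact a1 i
    · intro i i' hii
      induction i using Fin.lastCases with
      | last =>
        induction i' using Fin.lastCases with
        | last => exact absurd rfl hii
        | cast i' =>
          simp only [Fin.snoc_last, Fin.snoc_castSucc]
          exact m5.of_isCoprime_of_dvd_right (dvd_prod_of_mem a (mem_univ i'))
      | cast i =>
        induction i' using Fin.lastCases with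
        | last =>
          simp only [Fin.snoc_last, Fin.snoc_castSucc]
          exact (m5.of_isCoprime_of_dvd_right (dvd_prod_of_mem a (mem_univ i))).symm
        | cast i' =>
          simp only [Fin.snoc_castSucc]
          exact a2 i i' (fun h => hii (by rw [h]))
    · rw [Fin.prod_univ_castSucc]
      simp only [Fin.snoc_last, Fin.snoc_castSucc]
      rw [radN_mul m5.symm, a3, radN_sqf m4, Int.natAbs_mul]

theorem core2 (k : ℕ) {η : ℝ} (hη : 0 < η) (hη1 : η ≤ 1 / 2) :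
    ∃ L₀ : ℝ, 1 ≤ L₀ ∧ ∀ L : ℝ, L₀ ≤ L → ∃ a : Fin (k + 1) → ℤ, (∀ i, 0 < a i) ∧
      (∀ i i', i ≠ i' → IsCoprime (a i) (a i')) ∧ Even (∑ i, a i) ∧
      radN (∏ i, a i) = (∏ i, a i).natAbs ∧
      (1 - η) * L ^ (k + 1) ≤ ((∏ i, a i : ℤ) : ℝ) ∧ ((∏ i, a i : ℤ) : ℝ) ≤ L ^ (k + 1) ∧
      ((∑ i, a i : ℤ) : ℝ) ≤ (k + 2 ^ (k + 1)) * L ∧
      ∑ p ∈ (-(∑ i, a i) * ∏ i, a i).natAbs.primeFactors with max 16 (k + 2) < p, (1 : ℝ) / p ≤ 1 / 8 ∧
      Real.log |((-(∑ i, a i) * ∏ i, a i : ℤ) : ℝ)| ≤ (k + 3) * Real.log L := by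
  obtain ⟨L₀, hL₀1, hL₀⟩ := pick (k + 1) hη hη1 (k + 2 ^ (k + 1))
  refine ⟨L₀, hL₀1, ?_⟩
  intro L hL
  obtain ⟨p1, p2, p3, p4⟩ := hL₀ L hL
  have hL1 : 1 ≤ L := hL₀1.trans hL
  have hL0 : 0 < L := by linarith
  set Y : ℕ := ⌊Real.log L / (4 * 2)⌋₊ with hY
  have hdW : ∀ p : ℕ, p.Prime → p ≤ Y → (p : ℤ) ∣ ((primorial Y : ℕ) : ℤ) := by
    intro p hp hpY
    have : p ∣ primorial Y := (hp.dvd_primorial_iff).mpr hpY
    exact_mod_cast this
  have hcop1 : ∀ z : ℤ, ((primorial Y : ℕ) : ℤ) ∣ z - 1 → ∀ p : ℕ, p.Prime → p ≤ Y → ¬ (p : ℤ) ∣ z := by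
    intro z hz p hp hpY hpz
    have hpp : Prime (p : ℤ) := Nat.prime_iff_prime_int.mp hp
    have h1 : (p : ℤ) ∣ z - 1 := (hdW p hp hpY).trans hz
    have h2 := dvd_sub hpz h1
    have e : z - (z - 1) = 1 := by ring
    rw [e] at h2
    exact hpp.not_isUnit (isUnit_of_dvd_one h2)
  obtain ⟨a, a1, a2, a3⟩ := chain (k + 1) hL1 (fun P hP h1 h2 => by
    obtain ⟨m, m1, m2, m3, m4, m5⟩ := p4 L (by linarith) (by
      have : (1 : ℝ) ≤ 2 ^ (k + 1) := one_le_pow₀ (by norm_num)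
      nlinarith) P hP h1 h2
    exact ⟨m, by nlinarith, m2, m3, m4, m5⟩) k (by omega)
  have hpos : ∀ i, 0 < a i := fun i => by
    have : (0 : ℝ) < (a i : ℝ) := by linarith [(a1 i).1]
    exact_mod_cast this
  set A : ℤ := ∏ i, a i with hA
  have hApos : 0 < A := Finset.prod_pos fun i _ => hpos i
  have hAr : (0 : ℝ) < (A : ℝ) := by exact_mod_cast hApos
  have hAle : (A : ℝ) ≤ L ^ k := by
    rw [hA]; push_cast
    calc ∏ i : Fin k, (a i : ℝ) ≤ ∏ _i : Fin k, L :=
          Finset.prod_le_prod (fun i _ => by exact_mod_cast (hpos i).le) fun i _ => (a1 i).2.1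
      _ = L ^ k := by simp
  have hAge : (L / 2) ^ k ≤ (A : ℝ) := by
    rw [hA]; push_cast
    calc (L / 2) ^ k = ∏ _i : Fin k, (L / 2) := by
          rw [Finset.prod_const, Finset.card_univ, Fintype.card_fin]
      _ ≤ ∏ i : Fin k, (a i : ℝ) :=
          Finset.prod_le_prod (fun i _ => by positivity) fun i _ => (a1 i).1.le
  have hAp : ∀ p : ℕ, p.Prime → p ≤ Y → ¬ (p : ℤ) ∣ A := by
    intro p hp hpY hd
    have hpp : Prime (p : ℤ) := Nat.prime_iff_prime_int.mp hp
    obtain ⟨i, -, hi⟩ := (hpp.dvd_finsetProd_iff _).mp hd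
    exact hcop1 _ (a1 i).2.2 p hp hpY hi
  -- the factor two
  obtain ⟨g, hg, hge⟩ : ∃ g : ℤ, (g = 1 ∨ g = 2) ∧ Even ((k : ℤ) + g) := by
    rcases Nat.even_or_odd k with h | h
    · exact ⟨2, Or.inr rfl, by
        have : Even (k : ℤ) := by exact_mod_cast h
        exact this.add (by decide)⟩
    · exact ⟨1, Or.inl rfl, by
        have : Odd (k : ℤ) := by exact_mod_cast h
        exact this.add_odd (by decide)⟩
  have hg1 : (1 : ℝ) ≤ (g : ℝ) := by rcases hg with h | h <;> rw [h] <;> norm_num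
  have hg2 : (g : ℝ) ≤ 2 := by rcases hg with h | h <;> rw [h] <;> norm_num
  have hg0 : 0 < g := by rcases hg with h | h <;> rw [h] <;> norm_num
  have hgd : g ∣ 2 := by rcases hg with h | h <;> rw [h]; norm_num
  set U : ℝ := L ^ (k + 1) / (g * A) with hU
  have hU1 : L / 2 ≤ U := by
    rw [hU, le_div_iff₀ (by positivity)]
    calc L / 2 * (g * A) ≤ L / 2 * (2 * L ^ k) := by
          apply mul_le_mul_of_nonneg_left _ (by positivity)
          exact mul_le_mul hg2 hAle hAr.le (by norm_num)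
      _ = L ^ (k + 1) := by ring
  have hU2 : U ≤ 2 ^ k * L := by
    rw [hU, div_le_iff₀ (by positivity)]
    calc L ^ (k + 1) = 2 ^ k * L * (1 * (L / 2) ^ k) := by
          rw [one_mul, div_pow]; field_simp; ring
      _ ≤ 2 ^ k * L * (g * A) := by
          apply mul_le_mul_of_nonneg_left _ (by positivity)
          exact mul_le_mul hg1 hAge (by positivity) (by linarith)
  have hU0 : 0 < U := by linarith
  obtain ⟨b, b1, b2, b3, b4, b5⟩ := p4 U hU1 (by
      refine hU2.trans ?_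
      apply mul_le_mul_of_nonneg_right _ hL0.le
      exact pow_le_pow_right₀ (by norm_num) (by omega)) A hApos.ne'
    (fun p hp hd => by by_contra h; exact hAp p hp (by omega) hd) (by
      rw [abs_of_pos hAr]
      exact hAle.trans (pow_le_pow_right₀ hL1 (by omega)))
  have hb0 : 0 < b := by
    have : (0 : ℝ) < (b : ℝ) := lt_trans (mul_pos (by linarith) hU0) b1
    exact_mod_cast this
  have hodd : ∀ z : ℤ, ((primorial Y : ℕ) : ℤ) ∣ z - 1 → IsCoprime z 2 := by
    intro z hz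
    have h1 := hcop1 z hz 2 Nat.prime_two (by omega)
    have h2 : IsCoprime ((2 : ℕ) : ℤ) z := (Nat.prime_iff_prime_int.mp Nat.prime_two).coprime_iff_not_dvd.mpr h1
    exact_mod_cast h2.symm
  have hag : ∀ z : ℤ, ((primorial Y : ℕ) : ℤ) ∣ z - 1 → IsCoprime z g := fun z hz =>
    (hodd z hz).of_isCoprime_of_dvd_right hgd
  have hAg : IsCoprime A g := by
    rw [hA]
    exact IsCoprime.prod_left fun i _ => hag _ (a1 i).2.2
  have hAgb : IsCoprime A (g * b) := hAg.mul_right b5.symm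
  set a' : Fin (k + 1) → ℤ := Fin.snoc (α := fun _ => ℤ) a (g * b) with ha'
  have hprod : ∏ i, a' i = A * (g * b) := by
    rw [Fin.prod_univ_castSucc]
    simp only [ha', Fin.snoc_last, Fin.snoc_castSucc]
    rfl
  have hsum : ∑ i, a' i = ∑ i, a i + g * b := by
    rw [Fin.sum_univ_castSucc]
    simp only [ha', Fin.snoc_last, Fin.snoc_castSucc]
  have ha'pos : ∀ i, 0 < a' i := by
    intro i
    induction i using Fin.lastCases with
    | last => simp only [ha', Fin.snoc_last]; exact mul_pos hg0 hb0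
    | cast i => simp only [ha', Fin.snoc_castSucc]; exact hpos i
  have hgbA : (g * b * A : ℝ) ≤ L ^ (k + 1) := by
    rw [hU, le_div_iff₀ (by positivity)] at b2
    linarith
  have hgbA' : (1 - η) * L ^ (k + 1) ≤ (g * b * A : ℝ) := by
    have h1 : (1 - η) * U * (g * A) ≤ b * (g * A) := mul_le_mul_of_nonneg_right b1.le (by positivity)
    have h2 : (1 - η) * U * (g * A) = (1 - η) * L ^ (k + 1) := by
      rw [hU]
      have : (g : ℝ) ≠ 0 := by linarith
      field_simp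
    rw [h2] at h1
    linarith
  have hsumle : ((∑ i, a' i : ℤ) : ℝ) ≤ (k + 2 ^ (k + 1)) * L := by
    rw [hsum]
    push_cast
    have h1 : ∑ i, (a i : ℝ) ≤ k * L := by
      calc ∑ i, (a i : ℝ) ≤ ∑ _i : Fin k, L := Finset.sum_le_sum fun i _ => (a1 i).2.1
        _ = k * L := by simp
    have h2 : (g : ℝ) * b ≤ 2 ^ (k + 1) * L := by
      calc (g : ℝ) * b ≤ 2 * (2 ^ k * L) :=
            mul_le_mul hg2 (b2.trans hU2) (by exact_mod_cast hb0.le) (by norm_num)
        _ = 2 ^ (k + 1) * L := by ring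
    linarith
  have hsumpos : 0 < ∑ i, a' i := Finset.sum_pos (fun i _ => ha'pos i) ⟨Fin.last k, mem_univ _⟩
  have hprodpos : 0 < ∏ i, a' i := Finset.prod_pos fun i _ => ha'pos i
  set P : ℤ := -(∑ i, a' i) * ∏ i, a' i with hP
  have hP0 : P ≠ 0 := mul_ne_zero (neg_ne_zero.mpr hsumpos.ne') hprodpos.ne'
  have hprodr : ((∏ i, a' i : ℤ) : ℝ) = g * b * A := by
    rw [hprod]; push_cast; ring
  have hlogP : Real.log |(P : ℝ)| ≤ (k + 3) * Real.log L := by
    have h1 : |(P : ℝ)| ≤ L ^ (k + 3) := by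
      rw [hP]
      push_cast
      rw [abs_mul, abs_neg, abs_of_nonneg (by exact_mod_cast hsumpos.le),
        abs_of_nonneg (by exact_mod_cast hprodpos.le)]
      have h2 : ((∑ i, a' i : ℤ) : ℝ) ≤ L * L := by
        refine hsumle.trans ?_
        exact mul_le_mul_of_nonneg_right p1 hL0.le
      have h3 : ((∏ i, a' i : ℤ) : ℝ) ≤ L ^ (k + 1) := by rw [hprodr]; exact hgbA
      push_cast at h2 h3
      calc (∑ i, (a' i : ℝ)) * ∏ i, (a' i : ℝ) ≤ (L * L) * L ^ (k + 1) :=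
            mul_le_mul h2 h3 (by exact_mod_cast hprodpos.le) (by positivity)
        _ = L ^ (k + 3) := by ring
    have h2 : (0 : ℝ) < |(P : ℝ)| := by rw [abs_pos]; exact_mod_cast hP0
    have h3 := Real.log_le_log h2 h1
    rw [Real.log_pow] at h3
    push_cast at h3
    exact h3
  refine ⟨a', ha'pos, ?_, ?_, ?_, ?_, ?_, hsumle, ?_, hlogP⟩
  · intro i i' hii
    induction i using Fin.lastCases with
    | last =>
      induction i' using Fin.lastCases with
      | last => exact absurd rfl hii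
      | cast i' =>
        simp only [ha', Fin.snoc_last, Fin.snoc_castSucc]
        exact hAgb.symm.of_isCoprime_of_dvd_right (dvd_prod_of_mem a (mem_univ i'))
    | cast i =>
      induction i' using Fin.lastCases with
      | last =>
        simp only [ha', Fin.snoc_last, Fin.snoc_castSucc]
        exact (hAgb.symm.of_isCoprime_of_dvd_right (dvd_prod_of_mem a (mem_univ i))).symm
      | cast i' =>
        simp only [ha', Fin.snoc_castSucc]
        exact a2 i i' (fun h => hii (by rw [h]))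
  · rw [hsum]
    have h1 : ∑ i, a i + g * b = (∑ i, (a i - 1) + g * (b - 1)) + (k + g) := by
      rw [Finset.sum_sub_distrib]
      simp
      ring
    rw [h1]
    have h2 : ∀ z : ℤ, ((primorial Y : ℕ) : ℤ) ∣ z - 1 → Even (z - 1) := by
      intro z hz
      rw [even_iff_two_dvd]
      exact (hdW 2 Nat.prime_two (by omega)).trans hz
    exact ((Finset.even_sum _ fun i _ => h2 _ (a1 i).2.2).add ((h2 _ b3).mul_left g)).add hge
  · have hgs : radN g = g.natAbs := by
      rcases hg with h | h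
      · rw [h]; simp [radN]
      · rw [h]; exact radN_sqf (by
          have : Prime (2 : ℤ) := Int.prime_two
          exact this.squarefree)
    rw [hprod, radN_mul hAgb, radN_mul (hag b b3).symm, hgs, radN_sqf b4, a3, Int.natAbs_mul, Int.natAbs_mul]
  · rw [hprodr]; exact hgbA'
  · rw [hprodr]; exact hgbA
  · have hY2 : 2 ≤ Y := by omega
    refine (sum_small hP0 hY2 ?_).trans ?_
    · intro p hp hd hlt
      by_contra hle
      have hpY : p ≤ Y := by omega
      have hpp : Prime (p : ℤ) := Nat.prime_iff_prime_int.mp hp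
      rcases hpp.dvd_or_dvd hd with h | h
      · have h1 : (p : ℤ) ∣ ∑ i, a i + g * b := by rw [← hsum]; exact (dvd_neg).mp h
        have h2 : ∑ i, a i + g * b = (∑ i, (a i - 1) + g * (b - 1)) + (k + g) := by
          rw [Finset.sum_sub_distrib]
          simp
          ring
        have h3 : (p : ℤ) ∣ ∑ i, (a i - 1) + g * (b - 1) := by
          refine dvd_add (Finset.dvd_sum fun i _ => ?_) (Dvd.dvd.mul_left ?_ g)
          · exact (hdW p hp hpY).trans (a1 i).2.2
          · exact (hdW p hp hpY).trans b3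
        rw [h2] at h1
        have h4 : (p : ℤ) ∣ (k : ℤ) + g := (dvd_add_right h3).mp h1
        have h5 := Int.le_of_dvd (by omega) h4
        have h6 : g ≤ 2 := by rcases hg with h | h <;> rw [h]; norm_num
        have h7 := le_max_right 16 (k + 2)
        omega
      · rw [hprod] at h
        rcases hpp.dvd_or_dvd h with h | h
        · exact hAp p hp hpY h
        · rcases hpp.dvd_or_dvd h with h | h
          · have h5 := Int.le_of_dvd (by norm_num) (h.trans hgd)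
            have h7 := le_max_left 16 (k + 2)
            omega
          · exact hcop1 b b3 p hp hpY h
    · have hYr : (16 : ℝ) ≤ Y := by exact_mod_cast p2
      have hlY : 0 < Real.log Y := Real.log_pos (by linarith)
      rw [div_le_iff₀ (by positivity)]
      have h1 : Real.log L / (4 * 2) < Y + 1 := Nat.lt_floor_add_one _
      have h2 : Real.log L ≤ 16 * Y := by
        rw [div_lt_iff₀ (by norm_num)] at h1
        linarith
      push_cast at p3
      calc Real.log |(P : ℝ)| ≤ (k + 3) * Real.log L := hlogP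
        _ ≤ ((k : ℝ) + 3) * (16 * Y) := mul_le_mul_of_nonneg_left h2 (by positivity)
        _ = 1 / 8 * (Y * (128 * (((k : ℝ) + 1) + 2))) := by ring
        _ ≤ 1 / 8 * (Y * Real.log Y) := by
          apply mul_le_mul_of_nonneg_left _ (by norm_num)
          exact mul_le_mul_of_nonneg_left p3 (by positivity)

end Pool.Agent.H42.SN
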