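import Pool.Agent.H42.SN.Poly

set_option autoImplicit false

/-!
# The two identities
-/

namespace Pool.Agent.H42.SN

open Finset

theorem sum_ite {j : ℕ} (b : Fin j → ℤ) (U : Finset (Fin j)) : ∑ i ∈ U, b i = ∑ i, if i ∈ U then b i else 0 := by
  rw [Finset.sum_ite_mem, Finset.univ_inter]

theorem cop_of {X c d w : ℤ} (h : IsCoprime c d) (hX : X = c + d * w) : IsCoprime X d := by
  rw [hX]; exact h.add_mul_left_left w

theorem self_le_pow' {x : ℤ} (hx : 1 ≤ x) {n : ℕ} (hn : n ≠ 0) : x ≤ x ^ n := by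
  obtain ⟨m, rfl⟩ : ∃ m : ℕ, x = m := ⟨x.toNat, (Int.toNat_of_nonneg (by omega)).symm⟩
  have : m ≤ m ^ n := Nat.le_self_pow hn m
  exact_mod_cast this

/-- `X⁵ - (X-2)⁵ - 10((X-1)²+1)² = -8`. -/
def oddCore : PolyCore 3 5 3 where
  b X := ![X ^ 5, -(X - 2) ^ 5, -(10 * ((X - 1) ^ 2 + 1) ^ 2)]
  M X := (X - 2) * (10 * ((X - 1) ^ 2 + 1))
  W := 10
  hW := by norm_num
  X₁ := 20
  hX₁ := by norm_num
  C := 10
  hC := by norm_num
  τ := -8
  hτ := by norm_num
  hτ2 := by decide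
  hj := by norm_num
  cop := by
    intro X hX hd
    obtain ⟨z, hz⟩ := hd
    have hz' : X = 1 + 10 * z := by push_cast at hz; linarith
    have cX : IsCoprime X 10 := cop_of (c := 1) (w := z) isCoprime_one_left hz'
    have cX2 : IsCoprime X 2 := cX.of_isCoprime_of_dvd_right (by norm_num)
    have cY : IsCoprime (X - 2) 10 := cop_of (c := -1) (w := z) (by norm_num) (by rw [hz']; ring)
    have cY2 : IsCoprime (X - 2) 2 := cY.of_isCoprime_of_dvd_right (by norm_num)
    have cXY : IsCoprime X (X - 2) := by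
      have h2 : X - 2 = -2 + X * 1 := by ring
      rw [h2]
      exact (cX2.neg_right).add_mul_left_right 1
    have cXP : IsCoprime X ((X - 1) ^ 2 + 1) := by
      have h2 : (X - 1) ^ 2 + 1 = 2 + X * (X - 2) := by ring
      rw [h2]
      exact cX2.add_mul_left_right _
    have cYP : IsCoprime (X - 2) ((X - 1) ^ 2 + 1) := by
      have h2 : (X - 1) ^ 2 + 1 = 2 + (X - 2) * X := by ring
      rw [h2]
      exact cY2.add_mul_left_right _
    have h01 : IsCoprime (X ^ 5) (-(X - 2) ^ 5) := (cXY.pow (m := 5) (n := 5)).neg_right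
    have h02 : IsCoprime (X ^ 5) (-(10 * ((X - 1) ^ 2 + 1) ^ 2)) :=
      (IsCoprime.mul_right (cX.pow_left) (cXP.pow (m := 5) (n := 2))).neg_right
    have h12 : IsCoprime (-(X - 2) ^ 5) (-(10 * ((X - 1) ^ 2 + 1) ^ 2)) :=
      ((IsCoprime.mul_right (cY.pow_left) (cYP.pow (m := 5) (n := 2))).neg_right).neg_left
    intro i i' hii
    fin_cases i <;> fin_cases i' <;>
      first
        | exact absurd rfl hii
        | exact h01
        | exact h01.symm
        | exact h02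
        | exact h02.symm
        | exact h12
        | exact h12.symm
  sum := by
    intro X
    rw [Fin.sum_univ_three]
    show X ^ 5 + -(X - 2) ^ 5 + -(10 * ((X - 1) ^ 2 + 1) ^ 2) = -8
    ring
  big := by
    intro B
    refine ⟨|B| + 20, fun X hX U hU hU' => ?_⟩
    have hB := le_abs_self B
    have hB' := abs_nonneg B
    have e : X ^ 5 + -(X - 2) ^ 5 + -(10 * ((X - 1) ^ 2 + 1) ^ 2) = -8 := by ring
    have f0 : X ≤ X ^ 5 := self_le_pow' (by omega) (by norm_num)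
    have f1 : X - 2 ≤ (X - 2) ^ 5 := self_le_pow' (by omega) (by norm_num)
    have f2 : X ≤ 10 * ((X - 1) ^ 2 + 1) ^ 2 := by
      have h1 : X ≤ (X - 1) ^ 2 + 1 := by nlinarith
      have h2 : (X - 1) ^ 2 + 1 ≤ ((X - 1) ^ 2 + 1) ^ 2 :=
        self_le_pow' (by have := sq_nonneg (X - 1); omega) (by norm_num)
      linarith
    rw [sum_ite, Fin.sum_univ_three]
    simp only [Matrix.cons_val_zero, Matrix.cons_val_one, Matrix.cons_val_two, Matrix.cons_val, Matrix.head_cons,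
      Matrix.tail_cons]
    have hne : ¬ ((0 : Fin 3) ∉ U ∧ (1 : Fin 3) ∉ U ∧ (2 : Fin 3) ∉ U) := by
      rintro ⟨h0, h1, h2⟩
      obtain ⟨i, hi⟩ := hU
      fin_cases i
      · exact h0 hi
      · exact h1 hi
      · exact h2 hi
    have hnu : ¬ ((0 : Fin 3) ∈ U ∧ (1 : Fin 3) ∈ U ∧ (2 : Fin 3) ∈ U) := by
      rintro ⟨h0, h1, h2⟩
      apply hU'
      rw [Finset.eq_univ_iff_forall]
      intro i
      fin_cases i
      · exact h0
      · exact h1
      · exact h2
    generalize X ^ 5 = A₀ at *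
    generalize (X - 2) ^ 5 = A₁ at *
    by_cases h0 : (0 : Fin 3) ∈ U <;> by_cases h1 : (1 : Fin 3) ∈ U <;> by_cases h2 : (2 : Fin 3) ∈ U <;>
      first
        | (simp only [h0, h1, h2, not_false_eq_true, and_self, not_true_eq_false] at hne; done)
        | (simp only [h0, h1, h2, not_false_eq_true, and_self, not_true_eq_false] at hnu; done)
        | (simp only [h0, h1, h2, if_true, if_false]; rw [lt_abs]; omega)
  top := 0
  htop := fun X => rfl
  le := by
    intro X hX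
    have e0 : |X ^ 5| ≤ X ^ 5 := by rw [abs_of_nonneg (by positivity)]
    have e1 : |-(X - 2) ^ 5| ≤ X ^ 5 := by
      rw [abs_neg, abs_of_nonneg (pow_nonneg (by omega) _)]
      exact pow_le_pow_left₀ (by omega) (by omega) _
    have e2 : |-(10 * ((X - 1) ^ 2 + 1) ^ 2)| ≤ X ^ 5 := by
      rw [abs_neg, abs_of_nonneg (by positivity)]
      have h1 : (X - 1) ^ 2 + 1 ≤ X ^ 2 := by nlinarith
      have h2 : ((X - 1) ^ 2 + 1) ^ 2 ≤ (X ^ 2) ^ 2 := pow_le_pow_left₀ (by positivity) h1 _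
      calc 10 * ((X - 1) ^ 2 + 1) ^ 2 ≤ X * (X ^ 2) ^ 2 := mul_le_mul (by omega) h2 (by positivity) (by omega)
        _ = X ^ 5 := by ring
    intro i
    fin_cases i
    · exact e0
    · exact e1
    · exact e2
  rad := by
    intro X hX
    refine ⟨?_, ?_, ?_⟩
    · exact mul_ne_zero (by omega) (by positivity)
    · intro p hp hd
      rw [Fin.prod_univ_three] at hd
      have hd' : (p : ℤ) ∣ X ^ 5 * -(X - 2) ^ 5 * -(10 * ((X - 1) ^ 2 + 1) ^ 2) := hd
      have hpp : Prime (p : ℤ) := Nat.prime_iff_prime_int.mp hp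
      rcases hpp.dvd_or_dvd hd' with h | h
      · rcases hpp.dvd_or_dvd h with h | h
        · exact (hpp.dvd_of_dvd_pow h).mul_right _
        · exact ((hpp.dvd_of_dvd_pow ((dvd_neg).mp h)).mul_right _).mul_left _
      · rcases hpp.dvd_or_dvd ((dvd_neg).mp h) with h | h
        · exact ((h.mul_right _).mul_left _).mul_left _
        · exact (((hpp.dvd_of_dvd_pow h).mul_left _).mul_left _).mul_left _
    · have hXr : (20 : ℝ) ≤ (X : ℝ) := by exact_mod_cast hX
      push_cast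
      have h1 : ((X : ℝ) - 1) ^ 2 + 1 ≤ (X : ℝ) ^ 2 := by nlinarith
      rw [abs_of_nonneg (mul_nonneg (by linarith) (by positivity))]
      calc ((X : ℝ) - 2) * (10 * (((X : ℝ) - 1) ^ 2 + 1)) ≤ (X : ℝ) * (10 * (X : ℝ) ^ 2) :=
            mul_le_mul (by linarith) (by linarith) (by positivity) (by linarith)
        _ = 10 * (X : ℝ) ^ 3 := by ring
  cong := by
    intro X
    have e0 : (X - 1) ∣ X ^ 5 - 1 ^ 5 := sub_dvd_pow_sub_pow X 1 5
    have e1 : (X - 1) ∣ -(X - 2) ^ 5 - -(1 - 2) ^ 5 := ⟨-(X ^ 4 - 9 * X ^ 3 + 31 * X ^ 2 - 49 * X + 31), by ring⟩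
    have e2 : (X - 1) ∣ -(10 * ((X - 1) ^ 2 + 1) ^ 2) - -(10 * ((1 - 1) ^ 2 + 1) ^ 2) :=
      ⟨-10 * ((X - 1) ^ 3 + 2 * (X - 1)), by ring⟩
    intro i
    fin_cases i
    · exact e0
    · exact e1
    · exact e2
  one := by
    rw [Fin.prod_univ_three]
    show (1 : ℤ) ^ 5 * -(1 - 2) ^ 5 * -(10 * ((1 - 1) ^ 2 + 1) ^ 2) ≠ 0
    norm_num

theorem evenCop {X : ℤ} (hd : ((210 : ℕ) : ℤ) ∣ X - 1) :
    IsCoprime X (X - 48) ∧ IsCoprime X (7 * (X - 24) ^ 2 + 7488) ∧ IsCoprime X (7 * ((X - 24) ^ 2 + 6336)) ∧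
    IsCoprime (X - 48) (7 * (X - 24) ^ 2 + 7488) ∧ IsCoprime (X - 48) (7 * ((X - 24) ^ 2 + 6336)) ∧
    IsCoprime (7 * (X - 24) ^ 2 + 7488) (7 * ((X - 24) ^ 2 + 6336)) := by
  obtain ⟨z, hz⟩ := hd
  have hz' : X = 1 + 210 * z := by push_cast at hz; linarith
  have cX30 : IsCoprime X 30 := cop_of (c := 1) (w := 7 * z) isCoprime_one_left (by rw [hz']; ring)
  have cX7 : IsCoprime X 7 := cop_of (c := 1) (w := 30 * z) isCoprime_one_left (by rw [hz']; ring)
  have cY30 : IsCoprime (X - 48) 30 := cop_of (c := -47) (w := 7 * z) (by norm_num) (by rw [hz']; ring)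
  have cY7 : IsCoprime (X - 48) 7 := cop_of (c := -47) (w := 30 * z) (by norm_num) (by rw [hz']; ring)
  have cP7 : IsCoprime (7 * (X - 24) ^ 2 + 7488) 7 :=
    cop_of (c := 5) (w := (X - 24) ^ 2 + 1069) (by norm_num) (by ring)
  have cQ6 : IsCoprime ((X - 24) ^ 2 + 6336) 6 :=
    cop_of (c := 1) (w := 88 + 1056 + 35 * z * (X - 47)) isCoprime_one_left (by rw [hz']; ring)
  have cXY : IsCoprime X (X - 48) := by
    have h : IsCoprime X 48 := ((cX30).pow_right (n := 8)).of_isCoprime_of_dvd_right (by norm_num)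
    have h2 : X - 48 = -48 + X * 1 := by ring
    rw [h2]
    exact (h.neg_right).add_mul_left_right 1
  have cXP : IsCoprime X (7 * (X - 24) ^ 2 + 7488) := by
    have h : IsCoprime X 11520 := ((cX30).pow_right (n := 8)).of_isCoprime_of_dvd_right (by norm_num)
    have h2 : 7 * (X - 24) ^ 2 + 7488 = 11520 + X * (7 * X - 336) := by ring
    rw [h2]
    exact h.add_mul_left_right _
  have cXQ : IsCoprime X ((X - 24) ^ 2 + 6336) := by
    have h : IsCoprime X 6912 := ((cX30).pow_right (n := 8)).of_isCoprime_of_dvd_right (by norm_num)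
    have h2 : (X - 24) ^ 2 + 6336 = 6912 + X * (X - 48) := by ring
    rw [h2]
    exact h.add_mul_left_right _
  have cYP : IsCoprime (X - 48) (7 * (X - 24) ^ 2 + 7488) := by
    have h : IsCoprime (X - 48) 11520 := ((cY30).pow_right (n := 8)).of_isCoprime_of_dvd_right (by norm_num)
    have h2 : 7 * (X - 24) ^ 2 + 7488 = 11520 + (X - 48) * (7 * (X - 48) + 336) := by ring
    rw [h2]
    exact h.add_mul_left_right _
  have cYQ : IsCoprime (X - 48) ((X - 24) ^ 2 + 6336) := by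
    have h : IsCoprime (X - 48) 6912 := ((cY30).pow_right (n := 8)).of_isCoprime_of_dvd_right (by norm_num)
    have h2 : (X - 24) ^ 2 + 6336 = 6912 + (X - 48) * X := by ring
    rw [h2]
    exact h.add_mul_left_right _
  have cPQ : IsCoprime (7 * (X - 24) ^ 2 + 7488) ((X - 24) ^ 2 + 6336) := by
    have h : IsCoprime ((X - 24) ^ 2 + 6336) 36864 :=
      ((cQ6).pow_right (n := 12)).of_isCoprime_of_dvd_right (by norm_num)
    have h2 : 7 * (X - 24) ^ 2 + 7488 = -36864 + ((X - 24) ^ 2 + 6336) * 7 := by ring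
    rw [h2]
    exact (h.neg_right.symm).add_mul_left_left 7
  exact ⟨cXY, cXP, cX7.mul_right cXQ, cYP, cY7.mul_right cYQ, cP7.mul_right cPQ⟩

/-- `X⁷ - (X-48)⁷ - (7(X-24)²+7488)³ + 7((X-24)²+6336)³ = 1369826131968`. -/
def evenCore : PolyCore 4 7 5 where
  b X := ![X ^ 7, -(X - 48) ^ 7, -(7 * (X - 24) ^ 2 + 7488) ^ 3, 7 * ((X - 24) ^ 2 + 6336) ^ 3]
  M X := (X - 48) * ((7 * (X - 24) ^ 2 + 7488) * (7 * ((X - 24) ^ 2 + 6336)))
  W := 210
  hW := by norm_num
  X₁ := 1000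
  hX₁ := by norm_num
  C := 49
  hC := by norm_num
  τ := 1369826131968
  hτ := by norm_num
  hτ2 := by decide
  hj := by norm_num
  cop := by
    intro X hX hd
    obtain ⟨cXY, cXP, cXQ, cYP, cYQ, cPQ⟩ := evenCop hd
    have hx : ∀ u : ℤ, IsCoprime u (7 * ((X - 24) ^ 2 + 6336)) → IsCoprime u (7 * ((X - 24) ^ 2 + 6336) ^ 3) := by
      intro u hu
      exact IsCoprime.mul_right (IsCoprime.of_mul_right_left hu) ((IsCoprime.of_mul_right_right hu).pow_right)
    have h01 : IsCoprime (X ^ 7) (-(X - 48) ^ 7) := (cXY.pow (m := 7) (n := 7)).neg_right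
    have h02 : IsCoprime (X ^ 7) (-(7 * (X - 24) ^ 2 + 7488) ^ 3) := (cXP.pow (m := 7) (n := 3)).neg_right
    have h03 : IsCoprime (X ^ 7) (7 * ((X - 24) ^ 2 + 6336) ^ 3) := (hx X cXQ).pow_left
    have h12 : IsCoprime (-(X - 48) ^ 7) (-(7 * (X - 24) ^ 2 + 7488) ^ 3) :=
      ((cYP.pow (m := 7) (n := 3)).neg_right).neg_left
    have h13 : IsCoprime (-(X - 48) ^ 7) (7 * ((X - 24) ^ 2 + 6336) ^ 3) := ((hx _ cYQ).pow_left).neg_left
    have h23 : IsCoprime (-(7 * (X - 24) ^ 2 + 7488) ^ 3) (7 * ((X - 24) ^ 2 + 6336) ^ 3) :=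
      ((hx _ cPQ).pow_left).neg_left
    intro i i' hii
    fin_cases i <;> fin_cases i' <;>
      first
        | exact absurd rfl hii
        | exact h01
        | exact h01.symm
        | exact h02
        | exact h02.symm
        | exact h03
        | exact h03.symm
        | exact h12
        | exact h12.symm
        | exact h13
        | exact h13.symm
        | exact h23
        | exact h23.symm
  sum := by
    intro X
    rw [Fin.sum_univ_four]
    show X ^ 7 + -(X - 48) ^ 7 + -(7 * (X - 24) ^ 2 + 7488) ^ 3 + 7 * ((X - 24) ^ 2 + 6336) ^ 3 = 1369826131968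
    ring
  big := by
    intro B
    refine ⟨|B| + 1369826133000, fun X hX U hU hU' => ?_⟩
    have hB := le_abs_self B
    have hB' := abs_nonneg B
    have e : X ^ 7 + -(X - 48) ^ 7 + -(7 * (X - 24) ^ 2 + 7488) ^ 3 + 7 * ((X - 24) ^ 2 + 6336) ^ 3 =
      1369826131968 := by ring
    have f0 : X ≤ X ^ 7 := self_le_pow' (by omega) (by norm_num)
    have f1 : X - 48 ≤ (X - 48) ^ 7 := self_le_pow' (by omega) (by norm_num)
    have hP1 : X ≤ 7 * (X - 24) ^ 2 + 7488 := by nlinarith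
    have hQ1 : X ≤ (X - 24) ^ 2 + 6336 := by nlinarith
    have f2 : X ≤ (7 * (X - 24) ^ 2 + 7488) ^ 3 := hP1.trans (self_le_pow' (by omega) (by norm_num))
    have f3 : X ≤ 7 * ((X - 24) ^ 2 + 6336) ^ 3 := by
      have : X ≤ ((X - 24) ^ 2 + 6336) ^ 3 := hQ1.trans (self_le_pow' (by omega) (by norm_num))
      linarith
    have hP2 : (7 * (X - 24) ^ 2 + 7488) ^ 3 ≤ 343 * X ^ 6 := by
      have h1 : 7 * (X - 24) ^ 2 + 7488 ≤ 7 * X ^ 2 := by nlinarith
      have h2 := pow_le_pow_left₀ (by positivity) h1 3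
      calc (7 * (X - 24) ^ 2 + 7488) ^ 3 ≤ (7 * X ^ 2) ^ 3 := h2
        _ = 343 * X ^ 6 := by ring
    have hX6 : X ≤ X ^ 6 := self_le_pow' (by omega) (by norm_num)
    -- pairs
    have g1 : X ≤ X ^ 7 - (X - 48) ^ 7 := by
      have h1 : (X - 48) ^ 7 ≤ (X - 48) * X ^ 6 := by
        have h2 : (X - 48) ^ 6 ≤ X ^ 6 := pow_le_pow_left₀ (by omega) (by omega) _
        calc (X - 48) ^ 7 = (X - 48) * (X - 48) ^ 6 := by ring
          _ ≤ (X - 48) * X ^ 6 := mul_le_mul_of_nonneg_left h2 (by omega)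
      have h3 : X ^ 7 = X * X ^ 6 := by ring
      nlinarith
    have g2 : X - 343 ≤ X ^ 7 - (7 * (X - 24) ^ 2 + 7488) ^ 3 := by
      have h3 : X ^ 7 = X * X ^ 6 := by ring
      nlinarith
    rw [sum_ite, Fin.sum_univ_four]
    simp only [Matrix.cons_val_zero, Matrix.cons_val_one, Matrix.cons_val_two, Matrix.cons_val, Matrix.head_cons,
      Matrix.tail_cons]
    have hne : ¬ ((0 : Fin 4) ∉ U ∧ (1 : Fin 4) ∉ U ∧ (2 : Fin 4) ∉ U ∧ (3 : Fin 4) ∉ U) := by
      rintro ⟨h0, h1, h2, h3⟩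
      obtain ⟨i, hi⟩ := hU
      fin_cases i
      · exact h0 hi
      · exact h1 hi
      · exact h2 hi
      · exact h3 hi
    have hnu : ¬ ((0 : Fin 4) ∈ U ∧ (1 : Fin 4) ∈ U ∧ (2 : Fin 4) ∈ U ∧ (3 : Fin 4) ∈ U) := by
      rintro ⟨h0, h1, h2, h3⟩
      apply hU'
      rw [Finset.eq_univ_iff_forall]
      intro i
      fin_cases i
      · exact h0
      · exact h1
      · exact h2
      · exact h3
    clear hP2 hX6 hU hU' hP1 hQ1
    generalize X ^ 7 = A₀ at *
    generalize (X - 48) ^ 7 = A₁ at *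
    generalize (7 * (X - 24) ^ 2 + 7488) ^ 3 = A₂ at *
    generalize ((X - 24) ^ 2 + 6336) ^ 3 = A₃ at *
    by_cases h0 : (0 : Fin 4) ∈ U <;> by_cases h1 : (1 : Fin 4) ∈ U <;> by_cases h2 : (2 : Fin 4) ∈ U <;>
      by_cases h3 : (3 : Fin 4) ∈ U <;>
      first
        | (simp only [h0, h1, h2, h3, not_false_eq_true, and_self, not_true_eq_false] at hne; done)
        | (simp only [h0, h1, h2, h3, not_false_eq_true, and_self, not_true_eq_false] at hnu; done)
        | (simp only [h0, h1, h2, h3, if_true, if_false]; rw [lt_abs]; omega)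
  top := 0
  htop := fun X => rfl
  le := by
    intro X hX
    have hP : 7 * (X - 24) ^ 2 + 7488 ≤ 7 * X ^ 2 := by nlinarith
    have hQ : (X - 24) ^ 2 + 6336 ≤ X ^ 2 := by nlinarith
    have e0 : |X ^ 7| ≤ X ^ 7 := by rw [abs_of_nonneg (by positivity)]
    have e1 : |-(X - 48) ^ 7| ≤ X ^ 7 := by
      rw [abs_neg, abs_of_nonneg (pow_nonneg (by omega) _)]
      exact pow_le_pow_left₀ (by omega) (by omega) _
    have e2 : |-(7 * (X - 24) ^ 2 + 7488) ^ 3| ≤ X ^ 7 := by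
      rw [abs_neg, abs_of_nonneg (by positivity)]
      have h2 := pow_le_pow_left₀ (by positivity) hP 3
      have h3 : 343 * X ^ 6 ≤ X * X ^ 6 := mul_le_mul_of_nonneg_right (by omega) (by positivity)
      calc (7 * (X - 24) ^ 2 + 7488) ^ 3 ≤ (7 * X ^ 2) ^ 3 := h2
        _ = 343 * X ^ 6 := by ring
        _ ≤ X * X ^ 6 := h3
        _ = X ^ 7 := by ring
    have e3 : |7 * ((X - 24) ^ 2 + 6336) ^ 3| ≤ X ^ 7 := by
      rw [abs_of_nonneg (by positivity)]
      have h2 := pow_le_pow_left₀ (by positivity) hQ 3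
      have h3 : 7 * X ^ 6 ≤ X * X ^ 6 := mul_le_mul_of_nonneg_right (by omega) (by positivity)
      calc 7 * ((X - 24) ^ 2 + 6336) ^ 3 ≤ 7 * (X ^ 2) ^ 3 := mul_le_mul_of_nonneg_left h2 (by norm_num)
        _ = 7 * X ^ 6 := by ring
        _ ≤ X * X ^ 6 := h3
        _ = X ^ 7 := by ring
    intro i
    fin_cases i
    · exact e0
    · exact e1
    · exact e2
    · exact e3
  rad := by
    intro X hX
    refine ⟨?_, ?_, ?_⟩
    · exact mul_ne_zero (by omega) (by positivity)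
    · intro p hp hd
      rw [Fin.prod_univ_four] at hd
      have hd' : (p : ℤ) ∣ X ^ 7 * -(X - 48) ^ 7 * -(7 * (X - 24) ^ 2 + 7488) ^ 3 *
        (7 * ((X - 24) ^ 2 + 6336) ^ 3) := hd
      have hpp : Prime (p : ℤ) := Nat.prime_iff_prime_int.mp hp
      rcases hpp.dvd_or_dvd hd' with h | h
      · rcases hpp.dvd_or_dvd h with h | h
        · rcases hpp.dvd_or_dvd h with h | h
          · exact (hpp.dvd_of_dvd_pow h).mul_right _
          · exact ((hpp.dvd_of_dvd_pow ((dvd_neg).mp h)).mul_right _).mul_left _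
        · exact (((hpp.dvd_of_dvd_pow ((dvd_neg).mp h)).mul_right _).mul_left _).mul_left _
      · rcases hpp.dvd_or_dvd h with h | h
        · exact (((h.mul_right _).mul_left _).mul_left _).mul_left _
        · exact ((((hpp.dvd_of_dvd_pow h).mul_left _).mul_left _).mul_left _).mul_left _
    · have hXr : (1000 : ℝ) ≤ (X : ℝ) := by exact_mod_cast hX
      push_cast
      have hP : 7 * ((X : ℝ) - 24) ^ 2 + 7488 ≤ 7 * (X : ℝ) ^ 2 := by nlinarith
      have hQ : ((X : ℝ) - 24) ^ 2 + 6336 ≤ (X : ℝ) ^ 2 := by nlinarith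
      rw [abs_of_nonneg (mul_nonneg (by linarith) (by positivity))]
      calc ((X : ℝ) - 48) * ((7 * ((X : ℝ) - 24) ^ 2 + 7488) * (7 * (((X : ℝ) - 24) ^ 2 + 6336))) ≤
          (X : ℝ) * ((7 * (X : ℝ) ^ 2) * (7 * (X : ℝ) ^ 2)) :=
            mul_le_mul (by linarith) (mul_le_mul hP (by linarith) (by positivity) (by positivity))
              (by positivity) (by linarith)
        _ = 49 * (X : ℝ) ^ 5 := by ring
  cong := by
    intro X
    have key : ∀ P : Polynomial ℤ, (X - 1) ∣ P.eval X - P.eval 1 := fun P => Polynomial.sub_dvd_eval_sub X 1 P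
    have e0 : (X - 1) ∣ X ^ 7 - 1 ^ 7 := sub_dvd_pow_sub_pow X 1 7
    have e1 : (X - 1) ∣ -(X - 48) ^ 7 - -(1 - 48) ^ 7 := by
      have := key (-(Polynomial.X - 48) ^ 7)
      simpa using this
    have e2 : (X - 1) ∣ -(7 * (X - 24) ^ 2 + 7488) ^ 3 - -(7 * (1 - 24) ^ 2 + 7488) ^ 3 := by
      have := key (-(7 * (Polynomial.X - 24) ^ 2 + 7488) ^ 3)
      simpa using this
    have e3 : (X - 1) ∣ 7 * ((X - 24) ^ 2 + 6336) ^ 3 - 7 * ((1 - 24) ^ 2 + 6336) ^ 3 := by
      have := key (7 * ((Polynomial.X - 24) ^ 2 + 6336) ^ 3)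
      simpa using this
    intro i
    fin_cases i
    · exact e0
    · exact e1
    · exact e2
    · exact e3
  one := by
    rw [Fin.prod_univ_four]
    show (1 : ℤ) ^ 7 * -(1 - 48) ^ 7 * -(7 * (1 - 24) ^ 2 + 7488) ^ 3 * (7 * ((1 - 24) ^ 2 + 6336) ^ 3) ≠ 0
    norm_num

end Pool.Agent.H42.SN
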