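import Pool.Agent.H42.SN.CaseII
import Pool.Agent.H42.SN.Inst

set_option autoImplicit false

/-!
# Tuples with large radical, and the combination of the two cases
-/

namespace Pool.Agent.H42.SN

open Finset Filter Topology

theorem core_of_pos {k : ℕ} {a : Fin k → ℤ} (h : ∀ i, 0 < a i) (hc : ∀ i i', i ≠ i' → IsCoprime (a i) (a i')) :
    Core a where
  ne i := (h i).ne'
  cop := hc
  free S hS := (Finset.sum_pos (fun i _ => h i) hS).ne'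

theorem caseII (k : ℕ) {δ ε : ℝ} (hδ : 0 < δ) (hε : 0 < ε) (hε1 : ε ≤ 1) :
    ∃ B H₀ : ℝ, 0 < B ∧ 1 ≤ H₀ ∧ ∀ H R : ℝ, H₀ ≤ H → B * H ^ 2 ≤ R → R ≤ H ^ ((k : ℝ) + 3 - δ) →
      ∃ x : Fin (k + 1 + 2) → ℤ, Adm x ∧ NVS x ∧ (1 - ε) * H ≤ size x ∧ (size x : ℝ) ≤ H ∧
        (1 - ε) * R ≤ radN (∏ i, x i) ∧ (radN (∏ i, x i) : ℝ) ≤ R := by
  set η : ℝ := ε / 12 with hη
  have hη0 : 0 < η := by positivity
  have hη1 : η ≤ 1 / 3 := by rw [hη]; linarith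
  obtain ⟨c, T₀, hc, hT₀, hS⟩ := sieveM hη0 (by linarith) (Y := max 16 (k + 2)) (le_max_left _ _)
  obtain ⟨L₀, hL₀1, hL₀⟩ := core2 k (η := ε / 2) (by positivity) (by linarith)
  have hk1 : (0 : ℝ) < (k : ℝ) + 1 := by positivity
  have ev : ∀ᶠ H : ℝ in atTop, 1 ≤ H ∧ T₀ ≤ H ∧
      (((k : ℝ) + 2 ^ (k + 1)) ≤ η / 2 * H ^ (δ / (k + 1))) ∧
      (2 * ((k : ℝ) + 3) * Real.log H ≤ c * H ^ (1 : ℝ)) ∧
      ((2 : ℝ) ^ (k + 1 + 1) ≤ c * H ^ (1 : ℝ)) := by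
    refine (eventually_ge_atTop 1).and ((eventually_ge_atTop _).and ?_)
    exact (ev_const_le (by positivity) (by positivity)).and ((ev_log_le (by norm_num) hc).and
      (ev_const_le (by norm_num) hc))
  obtain ⟨H₁, hH₁⟩ := eventually_atTop.mp ev
  refine ⟨L₀ ^ (k + 1), max 1 H₁, by positivity, le_max_left _ _, ?_⟩
  intro H R hH hR1 hR2
  obtain ⟨g1, g2, g3, g4, g5⟩ := hH₁ H ((le_max_right _ _).trans hH)
  rw [Real.rpow_one] at g4 g5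
  have hH0 : 0 < H := by linarith
  have hlogH : 0 ≤ Real.log H := Real.log_nonneg g1
  have hL₀0 : 0 < L₀ := by linarith
  set T : ℝ := R / H ^ 2 with hT
  have hT1 : L₀ ^ (k + 1) ≤ T := by rw [hT, le_div_iff₀ (by positivity)]; exact hR1
  have hT0 : 0 < T := lt_of_lt_of_le (by positivity) hT1
  have hR : T * H ^ 2 = R := by rw [hT]; field_simp
  have hR0 : 0 < R := by rw [← hR]; positivity
  have hT2 : T ≤ H ^ ((k : ℝ) + 1 - δ) := by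
    rw [hT, div_le_iff₀ (by positivity)]
    refine hR2.trans (le_of_eq ?_)
    rw [← Real.rpow_natCast H 2, ← Real.rpow_add hH0]
    congr 1; push_cast; ring
  set L : ℝ := T ^ (1 / ((k : ℝ) + 1)) with hL
  have hLk : L ^ (k + 1) = T := by
    rw [hL, ← Real.rpow_natCast, ← Real.rpow_mul hT0.le]
    push_cast
    rw [one_div_mul_cancel hk1.ne', Real.rpow_one]
  have hL0 : 0 < L := Real.rpow_pos_of_pos hT0 _
  have hLL₀ : L₀ ≤ L := by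
    have : L₀ ^ (k + 1) ≤ L ^ (k + 1) := by rw [hLk]; exact hT1
    exact le_of_pow_le_pow_left₀ (by omega) hL0.le this
  have hL1 : 1 ≤ L := hL₀1.trans hLL₀
  have hLH : L ≤ H / H ^ (δ / (k + 1)) := by
    have h1 : L ≤ (H ^ ((k : ℝ) + 1 - δ)) ^ (1 / ((k : ℝ) + 1)) :=
      Real.rpow_le_rpow hT0.le hT2 (by positivity)
    rw [← Real.rpow_mul hH0.le] at h1
    have h2 : H / H ^ (δ / (k + 1)) = H ^ (1 - δ / ((k : ℝ) + 1)) := by
      rw [Real.rpow_sub hH0, Real.rpow_one]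
    rw [h2]
    refine h1.trans (le_of_eq ?_)
    congr 1
    field_simp
  have hHδ : 1 ≤ H ^ (δ / ((k : ℝ) + 1)) := Real.one_le_rpow g1 (by positivity)
  have hLH' : L ≤ H := hLH.trans (div_le_self hH0.le hHδ)
  have hlogL : Real.log L ≤ Real.log H := Real.log_le_log hL0 hLH'
  obtain ⟨a, a1, a2, a3, a4, a5, a6, a7, a8, a9⟩ := hL₀ L hLL₀
  rw [hLk] at a5 a6
  have hcore := core_of_pos a1 a2
  have hsumpos : 0 < ∑ i, a i := Finset.sum_pos (fun i _ => a1 i) ⟨Fin.last k, mem_univ _⟩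
  have hprodpos : 0 < ∏ i, a i := Finset.prod_pos fun i _ => a1 i
  set s : ℤ := -(∑ i, a i) with hs
  have hs' : |(s : ℝ)| ≤ η / 2 * H := by
    have h1 : |(s : ℝ)| = ((∑ i, a i : ℤ) : ℝ) := by
      rw [hs, Int.cast_neg, abs_neg, abs_of_nonneg (by exact_mod_cast hsumpos.le)]
    rw [h1]
    calc ((∑ i, a i : ℤ) : ℝ) ≤ (k + 2 ^ (k + 1)) * L := a7
      _ ≤ (η / 2 * H ^ (δ / (k + 1))) * (H / H ^ (δ / (k + 1))) :=
        mul_le_mul g3 hLH hL0.le (by positivity)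
      _ = η / 2 * H := by field_simp
  have hP0 : s * ∏ i, a i ≠ 0 := mul_ne_zero (neg_ne_zero.mpr hsumpos.ne') hprodpos.ne'
  have hω : ((s * ∏ i, a i).natAbs.primeFactors.card : ℝ) ≤ c * H := by
    have h5 := card_le_two_log (N := (s * ∏ i, a i).natAbs) (by simpa using hP0)
    rw [Nat.cast_natAbs, Int.cast_abs] at h5
    have h6 : Real.log |((s * ∏ i, a i : ℤ) : ℝ)| ≤ (k + 3) * Real.log H :=
      a9.trans (mul_le_mul_of_nonneg_left hlogL (by positivity))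
    linarith
  have hExc : ((ExS a).card : ℝ) ≤ c * H := by
    refine le_trans ?_ g5
    exact_mod_cast ExS_card a
  obtain ⟨m, m1, m2, m3, m4, m5, m6, m7⟩ := hS H g2 s a3.neg hs' (s * ∏ i, a i) hP0 a8 hω (ExS a) hExc
  obtain ⟨x1, x2, x3⟩ := extend (m := m) hcore m3 m4 m5 m6 m7
  obtain ⟨⟨b1, b2⟩, ⟨b5, -⟩, b3, b4⟩ := bounds hη0 hη1 hH0.le hs' m1 m2
  have hprodr : (0 : ℝ) < ((∏ i, a i : ℤ) : ℝ) := by exact_mod_cast hprodpos
  have hradr : (radN (∏ i, a i) : ℝ) = ((∏ i, a i : ℤ) : ℝ) := by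
    rw [a4, Nat.cast_natAbs, Int.cast_abs, abs_of_pos hprodr]
  refine ⟨ext a m, x1, x2, ?_, ?_, ?_, ?_⟩
  · have h1 := le_size (ext a m) (Fin.last (k + 1)).castSucc
    rw [ext_mid] at h1
    have h2 : (1 - ε) * H ≤ (1 - η) * H := mul_le_mul_of_nonneg_right (by rw [hη]; linarith) hH0.le
    linarith
  · refine size_le hH0.le ?_
    refine ext_cases ?_ ?_ ?_
    · intro i
      rw [ext_first]
      have h1 : a i ≤ ∑ i, a i := Finset.single_le_sum (fun i _ => (a1 i).le) (mem_univ i)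
      have h2 : (a i : ℝ) ≤ ((∑ i, a i : ℤ) : ℝ) := by exact_mod_cast h1
      have h3 : |(s : ℝ)| = ((∑ i, a i : ℤ) : ℝ) := by
        rw [hs, Int.cast_neg, abs_neg, abs_of_nonneg (by exact_mod_cast hsumpos.le)]
      rw [abs_of_nonneg (by exact_mod_cast (a1 i).le)]
      have h4 : η / 2 * H ≤ H := by nlinarith
      linarith
    · rw [ext_mid]; exact b1
    · rw [ext_last]; exact b2
  · rw [x3, Nat.cast_mul, hradr]
    calc (1 - ε) * R ≤ ((1 - ε / 2) * (1 - 3 * η)) * R := by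
          apply mul_le_mul_of_nonneg_right _ hR0.le
          rw [hη]; nlinarith
      _ = ((1 - ε / 2) * T) * ((1 - 3 * η) * H ^ 2) := by rw [← hR]; ring
      _ ≤ _ := mul_le_mul a5 b3 (by
          apply mul_nonneg _ (by positivity)
          linarith) hprodr.le
  · rw [x3, Nat.cast_mul, hradr, ← hR]
    exact mul_le_mul a6 b4 (by positivity) hT0.le

/-- **Odd lengths.** -/
theorem odd_main {t : ℕ} (ht : Even t) {δ ε : ℝ} (hδ : 0 < δ) (hε : 0 < ε) (hε1 : ε ≤ 1) :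
    ∃ H₀ : ℝ, 1 ≤ H₀ ∧ ∀ H R : ℝ, H₀ ≤ H → H ^ ((3 : ℝ) / 5 + δ) ≤ R → R ≤ H ^ (((3 + t + 2 : ℕ) : ℝ) - δ) →
      ∃ x : Fin (3 + t + 2) → ℤ, Adm x ∧ NVS x ∧ (1 - ε) * H ≤ size x ∧ (size x : ℝ) ≤ H ∧
        (1 - ε) * R ≤ radN (∏ i, x i) ∧ (radN (∏ i, x i) : ℝ) ≤ R := by
  obtain ⟨k, hk⟩ : ∃ k, 3 + t = k + 1 := ⟨2 + t, by omega⟩
  have h2 := caseII k hδ hε hε1
  rw [← hk] at h2
  obtain ⟨B, H₀, hB, hH₀, h2⟩ := h2
  obtain ⟨H₁, hH₁, h1⟩ := caseI (k := 3 + t) (D := 5) (ρ := 3) (by norm_num)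
    (fun e he => (exFam oddCore ht he).some) hδ hε hε1 hB
  refine ⟨max H₀ H₁, hH₀.trans (le_max_left _ _), ?_⟩
  intro H R hH hR1 hR2
  rcases le_total R (B * H ^ 2) with h | h
  · exact h1 H R ((le_max_right _ _).trans hH) (by exact_mod_cast hR1) h
  · refine h2 H R ((le_max_left _ _).trans hH) h ?_
    have e : (((3 + t + 2 : ℕ) : ℝ)) = (k : ℝ) + 3 := by
      have : 3 + t + 2 = k + 3 := by omega
      rw [this]; push_cast; ring
    rwa [e] at hR2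

/-- **Even lengths.** -/
theorem even_main {t : ℕ} (ht : Even t) {δ ε : ℝ} (hδ : 0 < δ) (hε : 0 < ε) (hε1 : ε ≤ 1) :
    ∃ H₀ : ℝ, 1 ≤ H₀ ∧ ∀ H R : ℝ, H₀ ≤ H → H ^ ((5 : ℝ) / 7 + δ) ≤ R → R ≤ H ^ (((4 + t + 2 : ℕ) : ℝ) - δ) →
      ∃ x : Fin (4 + t + 2) → ℤ, Adm x ∧ NVS x ∧ (1 - ε) * H ≤ size x ∧ (size x : ℝ) ≤ H ∧
        (1 - ε) * R ≤ radN (∏ i, x i) ∧ (radN (∏ i, x i) : ℝ) ≤ R := by
  obtain ⟨k, hk⟩ : ∃ k, 4 + t = k + 1 := ⟨3 + t, by omega⟩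
  have h2 := caseII k hδ hε hε1
  rw [← hk] at h2
  obtain ⟨B, H₀, hB, hH₀, h2⟩ := h2
  obtain ⟨H₁, hH₁, h1⟩ := caseI (k := 4 + t) (D := 7) (ρ := 5) (by norm_num)
    (fun e he => (exFam evenCore ht he).some) hδ hε hε1 hB
  refine ⟨max H₀ H₁, hH₀.trans (le_max_left _ _), ?_⟩
  intro H R hH hR1 hR2
  rcases le_total R (B * H ^ 2) with h | h
  · exact h1 H R ((le_max_right _ _).trans hH) (by exact_mod_cast hR1) h
  · refine h2 H R ((le_max_left _ _).trans hH) h ?_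
    have e : (((4 + t + 2 : ℕ) : ℝ)) = (k : ℝ) + 3 := by
      have : 4 + t + 2 = k + 3 := by omega
      rw [this]; push_cast; ring
    rwa [e] at hR2

/-- The exponent: `3/5` for odd `n`, `5/7` for even `n`. -/
noncomputable def kap (n : ℕ) : ℝ := if Odd n then 3 / 5 else 5 / 7

theorem main {n : ℕ} (hn : 5 ≤ n) {δ ε : ℝ} (hδ : 0 < δ) (hε : 0 < ε) :
    ∃ H₀ : ℝ, 1 ≤ H₀ ∧ ∀ H R : ℝ, H₀ ≤ H → H ^ (kap n + δ) ≤ R → R ≤ H ^ ((n : ℝ) - δ) →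
      ∃ x : Fin n → ℤ, Adm x ∧ NVS x ∧ (1 - ε) * H ≤ size x ∧ (size x : ℝ) ≤ H ∧
        (1 - ε) * R ≤ radN (∏ i, x i) ∧ (radN (∏ i, x i) : ℝ) ≤ R := by
  -- reduction to `ε ≤ 1`
  have key : ∀ ε' : ℝ, 0 < ε' → ε' ≤ 1 → ∃ H₀ : ℝ, 1 ≤ H₀ ∧ ∀ H R : ℝ, H₀ ≤ H → H ^ (kap n + δ) ≤ R →
      R ≤ H ^ ((n : ℝ) - δ) →
      ∃ x : Fin n → ℤ, Adm x ∧ NVS x ∧ (1 - ε') * H ≤ size x ∧ (size x : ℝ) ≤ H ∧
        (1 - ε') * R ≤ radN (∏ i, x i) ∧ (radN (∏ i, x i) : ℝ) ≤ R := by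
    intro ε' h1 h2
    rcases Nat.even_or_odd n with h | h
    · obtain ⟨t, rfl⟩ : ∃ t, n = 4 + t + 2 := by
        refine ⟨n - 6, ?_⟩
        obtain ⟨u, hu⟩ := h
        omega
      have ht : Even t := by
        obtain ⟨u, hu⟩ := h
        exact ⟨u - 3, by omega⟩
      have hk : kap (4 + t + 2) = 5 / 7 := by
        unfold kap
        rw [if_neg]
        rwa [Nat.not_odd_iff_even]
      rw [hk]
      exact even_main ht hδ h1 h2
    · obtain ⟨t, rfl⟩ : ∃ t, n = 3 + t + 2 := ⟨n - 5, by omega⟩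
      have ht : Even t := by
        obtain ⟨u, hu⟩ := h
        exact ⟨u - 2, by omega⟩
      have hk : kap (3 + t + 2) = 3 / 5 := by
        unfold kap
        rw [if_pos h]
      rw [hk]
      exact odd_main ht hδ h1 h2
  obtain ⟨H₀, hH₀, h⟩ := key (min ε 1) (lt_min hε one_pos) (min_le_right _ _)
  refine ⟨H₀, hH₀, ?_⟩
  intro H R hH hR1 hR2
  obtain ⟨x, x1, x2, x3, x4, x5, x6⟩ := h H R hH hR1 hR2
  have hH0 : 0 ≤ H := by linarith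
  have hR0 : 0 ≤ R := le_trans (Real.rpow_nonneg hH0 _) hR1
  refine ⟨x, x1, x2, le_trans ?_ x3, x4, le_trans ?_ x5, x6⟩
  · exact mul_le_mul_of_nonneg_right (by linarith [min_le_left ε 1]) hH0
  · exact mul_le_mul_of_nonneg_right (by linarith [min_le_left ε 1]) hR0

end Pool.Agent.H42.SN
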