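import Pool.Agent.H42.SN.Inst

set_option autoImplicit false

/-!
# Counting tuples
-/

namespace Pool.Agent.H42.SN

open Finset Filter Topology

theorem card_biUnion_ge {α β : Type*} [DecidableEq α] [DecidableEq β] (A : Finset α) (B : α → Finset β)
    (g : β → α) (hg : ∀ a ∈ A, ∀ b ∈ B a, g b = a) {N : ℕ} (hN : ∀ a ∈ A, N ≤ (B a).card) :
    A.card * N ≤ (A.biUnion B).card := by
  rw [Finset.card_biUnion]
  · calc A.card * N = ∑ _a ∈ A, N := by rw [sum_const, smul_eq_mul]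
      _ ≤ ∑ a ∈ A, (B a).card := sum_le_sum hN
  · intro a ha a' ha' hne
    show Disjoint (B a) (B a')
    rw [Finset.disjoint_left]
    intro b hb hb'
    exact hne ((hg a ha b hb).symm.trans (hg a' ha' b hb'))

/-- The numerical conditions. -/
structure Par (K t : ℕ) (T Lg : ℝ) (Y N : ℕ) : Prop where
  hY : 16 ≤ Y
  hT : 1 ≤ T
  h3 : Lg / (Y * Real.log Y) ≤ 1 / 8
  h4 : 2 * Real.sqrt (2 * ((t + 2) * T)) + 4 * Lg + N + 2 ^ (K + 1) + 3 < 5 / 16 * (T / (primorial Y : ℕ))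

theorem sum_primes {P : ℤ} (hP : P ≠ 0) {Y : ℕ} (hY : 2 ≤ Y) {Lg : ℝ} (hL : Real.log |(P : ℝ)| ≤ Lg)
    (h : Lg / (Y * Real.log Y) ≤ 1 / 8) : ∑ p ∈ P.natAbs.primeFactors with Y < p, (1 : ℝ) / p ≤ 1 / 8 := by
  refine (sum_small hP hY (fun p _ _ h => h)).trans (le_trans ?_ h)
  have hY0 : (0 : ℝ) < Y := by exact_mod_cast (by omega : 0 < Y)
  have hlY : 0 < Real.log Y := Real.log_pos (by exact_mod_cast (by omega : 1 < Y))
  exact div_le_div_of_nonneg_right hL (by positivity)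

/-- The values excluded. -/
def Ex1 {k : ℕ} (a : Fin k → ℤ) : Finset ℤ :=
  (univ : Finset (Finset (Fin k))).image (fun S => -∑ i ∈ S, a i)

theorem Ex1_card {k : ℕ} (a : Fin k → ℤ) : (Ex1 a).card ≤ 2 ^ k := by
  refine card_image_le.trans ?_
  simp

theorem core_snoc {k : ℕ} {a : Fin k → ℤ} (ha : Core a) {c : ℤ} (hc0 : c ≠ 0) (hc : IsCoprime c (∏ i, a i))
    (hE : c ∉ Ex1 a) : Core (Fin.snoc (α := fun _ => ℤ) a c) where
  ne := by
    intro i
    induction i using Fin.lastCases with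
    | last => simpa using hc0
    | cast i => simpa using ha.ne i
  cop := by
    intro i i' hii
    induction i using Fin.lastCases with
    | last =>
      induction i' using Fin.lastCases with
      | last => exact absurd rfl hii
      | cast i' =>
        simp only [Fin.snoc_last, Fin.snoc_castSucc]
        exact hc.of_isCoprime_of_dvd_right (dvd_prod_of_mem a (mem_univ i'))
    | cast i =>
      induction i' using Fin.lastCases with
      | last =>
        simp only [Fin.snoc_last, Fin.snoc_castSucc]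
        exact (hc.of_isCoprime_of_dvd_right (dvd_prod_of_mem a (mem_univ i))).symm
      | cast i' =>
        simp only [Fin.snoc_castSucc]
        exact ha.cop i i' (fun h => hii (by rw [h]))
  free := by
    intro S hS
    have h : ∑ i ∈ S, (Fin.snoc (α := fun _ => ℤ) a c : Fin (k + 1) → ℤ) i =
        ∑ i ∈ univ.filter (fun i : Fin k => i.castSucc ∈ S), a i + (if Fin.last k ∈ S then c else 0) := by
      have h1 : ∑ i ∈ S, (Fin.snoc (α := fun _ => ℤ) a c : Fin (k + 1) → ℤ) i =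
          ∑ i, if i ∈ S then (Fin.snoc (α := fun _ => ℤ) a c : Fin (k + 1) → ℤ) i else 0 := by
        rw [Finset.sum_ite_mem, Finset.univ_inter]
      rw [h1, Fin.sum_univ_castSucc]
      simp only [Fin.snoc_last, Fin.snoc_castSucc]
      rw [Finset.sum_filter]
    rw [h]
    by_cases hl : Fin.last k ∈ S
    · rw [if_pos hl]
      intro h0
      apply hE
      exact mem_image.mpr ⟨univ.filter (fun i : Fin k => i.castSucc ∈ S), mem_univ _, by linarith⟩
    · rw [if_neg hl, add_zero]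
      apply ha.free
      obtain ⟨i, hi⟩ := hS
      induction i using Fin.lastCases with
      | last => exact absurd hi hl
      | cast i => exact ⟨i, by simp [hi]⟩

theorem addOne {K t Y N : ℕ} {T Lg : ℝ} (hp : Par K t T Lg Y N) {k : ℕ} (hk : k ≤ K) {a : Fin k → ℤ}
    (ha : Core a) (hL : Real.log |((∏ i, a i : ℤ) : ℝ)| ≤ Lg) :
    ∃ S : Finset ℤ, N ≤ S.card ∧ ∀ c ∈ S, 0 < c ∧ (c : ℝ) ≤ T ∧ Odd c ∧ IsCoprime c (∏ i, a i) ∧
      Core (Fin.snoc (α := fun _ => ℤ) a c) := by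
  classical
  have hY16 := hp.hY
  have hP : ∏ i, a i ≠ 0 := Finset.prod_ne_zero_iff.mpr fun i _ => ha.ne i
  set good : ℤ → Prop := fun c => 0 < c ∧ (c : ℝ) ≤ T ∧ Odd c ∧ IsCoprime c (∏ i, a i) ∧
      Core (Fin.snoc (α := fun _ => ℤ) a c) with hgood
  refine ⟨(Icc 1 ⌊T⌋).filter good, ?_, fun c hc => (mem_filter.mp hc).2⟩
  by_contra hlt
  push Not at hlt
  set S : Finset ℤ := (Icc 1 ⌊T⌋).filter good with hS
  have hT0 : 0 ≤ T := by linarith [hp.hT]
  set A : ℤ := ⌊T / 2⌋ with hA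
  set B : ℤ := ⌊T⌋ with hB
  have a1 : (A : ℝ) ≤ T / 2 := Int.floor_le _
  have b1 : (B : ℝ) ≤ T := Int.floor_le _
  have b2 : T < B + 1 := Int.lt_floor_add_one _
  have hW0 : (0 : ℝ) < ((primorial Y : ℕ) : ℝ) := by exact_mod_cast primorial_pos Y
  have hW1 : (1 : ℝ) ≤ ((primorial Y : ℕ) : ℝ) := by exact_mod_cast primorial_pos Y
  have hpow : (1 : ℝ) ≤ 2 ^ (K + 1) := one_le_pow₀ (by norm_num)
  have hLg : 0 ≤ Lg := by
    refine le_trans (Real.log_nonneg ?_) hL
    rw [← Int.cast_abs]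
    exact_mod_cast Int.one_le_abs hP
  have hTW : T / ((primorial Y : ℕ) : ℝ) ≤ T := div_le_self hT0 hW1
  have hbig : 12 < T := by
    have h4 := hp.h4
    have : (0 : ℝ) ≤ 2 * Real.sqrt (2 * ((t + 2) * T)) := by positivity
    have : (0 : ℝ) ≤ N := by positivity
    nlinarith
  have hA0 : 0 ≤ A := Int.floor_nonneg.mpr (by positivity)
  have hAB : A < B := by
    have : (A : ℝ) < B := by linarith
    exact_mod_cast this
  obtain ⟨m, m1, m2, m3, m4, -, m6, -, m7⟩ := sieve (A := A) (B := B) (r := 1) (s := 0) (P := ∏ i, a i)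
    (W := primorial Y) (Y := Y) (Ex := S ∪ Ex1 a) hA0 hAB (primorial_pos Y) hp.hY (by rw [abs_zero]; omega) hP
    (fun p hp hpY => (hp.dvd_primorial_iff).mpr hpY)
    (fun p hp hpW => by
      have hpp : Prime (p : ℤ) := Nat.prime_iff_prime_int.mp hp
      refine ⟨fun h => hpp.not_isUnit (isUnit_of_dvd_one h), fun h => hpp.not_isUnit (isUnit_of_dvd_one ?_)⟩
      have : (p : ℤ) ∣ -(0 - 1) := (dvd_neg).mpr h
      simpa using this) (sum_primes hP (by omega) hL hp.h3)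
    (by
      have h5 := card_le_two_log (N := (∏ i, a i).natAbs) (by simpa using hP)
      rw [Nat.cast_natAbs, Int.cast_abs] at h5
      have h6 : ((S ∪ Ex1 a).card : ℝ) ≤ N + 2 ^ (K + 1) := by
        have h7 : (S ∪ Ex1 a).card ≤ N + 2 ^ (K + 1) := by
          refine (card_union_le _ _).trans ?_
          have h8 := Ex1_card a
          have h9 : 2 ^ k ≤ 2 ^ (K + 1) := Nat.pow_le_pow_right (by norm_num) (by omega)
          omega
        exact_mod_cast h7
      have h10 : Real.sqrt (2 * (B : ℝ)) ≤ Real.sqrt (2 * ((t + 2) * T)) := by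
        apply Real.sqrt_le_sqrt
        have : T ≤ (t + 2) * T := by
          have : (0 : ℝ) ≤ (t : ℝ) := by positivity
          nlinarith
        linarith
      have h11 : 5 / 16 * (T / ((primorial Y : ℕ) : ℝ)) - 1 ≤ 5 / 8 * (((B : ℝ) - A) / ((primorial Y : ℕ) : ℝ)) := by
        have h12 : (T / 2 - 1) / ((primorial Y : ℕ) : ℝ) ≤ ((B : ℝ) - A) / ((primorial Y : ℕ) : ℝ) :=
          div_le_div_of_nonneg_right (by linarith) hW0.le
        have h13 : (T / 2 - 1) / ((primorial Y : ℕ) : ℝ) = T / ((primorial Y : ℕ) : ℝ) / 2 - 1 / ((primorial Y : ℕ) : ℝ) := by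
          ring
        have h14 : 1 / ((primorial Y : ℕ) : ℝ) ≤ 1 := by rw [div_le_one hW0]; exact hW1
        linarith
      have h4 := hp.h4
      linarith)
  have hm0 : 0 < m := lt_of_le_of_lt hA0 m1
  have hmT : (m : ℝ) ≤ T := by
    have : (m : ℝ) ≤ B := by exact_mod_cast m2
    linarith
  have hmS : m ∉ S := fun h => m7 (mem_union_left _ h)
  have hmE : m ∉ Ex1 a := fun h => m7 (mem_union_right _ h)
  apply hmS
  refine mem_filter.mpr ⟨mem_Icc.mpr ⟨by omega, m2⟩, hm0, hmT, ?_, m6, core_snoc ha hm0.ne' m6 hmE⟩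
  have h2 : ((2 : ℕ) : ℤ) ∣ m - 1 := by
    have h3 : ((primorial Y : ℕ) : ℤ) ∣ m - 1 := (m3.symm).dvd
    refine dvd_trans ?_ h3
    have : 2 ∣ primorial Y := (Nat.prime_two.dvd_primorial_iff).mpr (by omega)
    exact_mod_cast this
  obtain ⟨z, hz⟩ := h2
  exact ⟨z, by push_cast at hz; linarith⟩

theorem addLast {K t Y N : ℕ} {T Lg : ℝ} (hp : Par K t T Lg Y N) {k : ℕ} (hk : k ≤ K) {a : Fin k → ℤ}
    (ha : Core a) (hev : Even (∑ i, a i)) (hs0 : ∑ i, a i ≠ 0) (hsT : |((∑ i, a i : ℤ) : ℝ)| ≤ (t + 1) * T)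
    (hL : Real.log |((-(∑ i, a i) * ∏ i, a i : ℤ) : ℝ)| ≤ Lg) :
    ∃ S : Finset ℤ, N ≤ S.card ∧ ∀ m ∈ S, Adm (ext a m) ∧ NVS (ext a m) ∧
      radN (∏ i, ext a m i) = radN (∏ i, a i) * (m.natAbs * (-(∑ i, a i) - m).natAbs) ∧
      |(m : ℝ)| ≤ (t + 2) * T ∧ |((-(∑ i, a i) - m : ℤ) : ℝ)| ≤ (2 * t + 3) * T := by
  classical
  have hY16 := hp.hY
  have hP0 : ∏ i, a i ≠ 0 := Finset.prod_ne_zero_iff.mpr fun i _ => ha.ne i
  set s : ℤ := -(∑ i, a i) with hs
  have hP : s * ∏ i, a i ≠ 0 := mul_ne_zero (neg_ne_zero.mpr hs0) hP0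
  have hT0 : 0 ≤ T := by linarith [hp.hT]
  have htR : (0 : ℝ) ≤ (t : ℝ) := by positivity
  set good : ℤ → Prop := fun m => Adm (ext a m) ∧ NVS (ext a m) ∧
      radN (∏ i, ext a m i) = radN (∏ i, a i) * (m.natAbs * (s - m).natAbs) ∧
      |(m : ℝ)| ≤ (t + 2) * T ∧ |((s - m : ℤ) : ℝ)| ≤ (2 * t + 3) * T with hgood
  refine ⟨(Icc 1 ⌊(t + 2) * T⌋).filter good, ?_, fun c hc => (mem_filter.mp hc).2⟩
  by_contra hlt
  push Not at hlt
  set S : Finset ℤ := (Icc 1 ⌊(t + 2) * T⌋).filter good with hS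
  set A : ℤ := ⌊(t + 1) * T⌋ with hA
  set B : ℤ := ⌊(t + 2) * T⌋ with hB
  have a1 : (A : ℝ) ≤ (t + 1) * T := Int.floor_le _
  have b1 : (B : ℝ) ≤ (t + 2) * T := Int.floor_le _
  have b2 : (t + 2) * T < B + 1 := Int.lt_floor_add_one _
  have hW0 : (0 : ℝ) < ((primorial Y : ℕ) : ℝ) := by exact_mod_cast primorial_pos Y
  have hW1 : (1 : ℝ) ≤ ((primorial Y : ℕ) : ℝ) := by exact_mod_cast primorial_pos Y
  have hpow : (1 : ℝ) ≤ 2 ^ (K + 1) := one_le_pow₀ (by norm_num)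
  have hLg : 0 ≤ Lg := by
    refine le_trans (Real.log_nonneg ?_) hL
    rw [← Int.cast_abs]
    exact_mod_cast Int.one_le_abs hP
  have hTW : T / ((primorial Y : ℕ) : ℝ) ≤ T := div_le_self hT0 hW1
  have hbig : 12 < T := by
    have h4 := hp.h4
    have : (0 : ℝ) ≤ 2 * Real.sqrt (2 * ((t + 2) * T)) := by positivity
    have : (0 : ℝ) ≤ N := by positivity
    nlinarith
  have hA0 : 0 ≤ A := Int.floor_nonneg.mpr (by positivity)
  have hAB : A < B := by
    have : (A : ℝ) < B := by nlinarith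
    exact_mod_cast this
  have hsB : |s| ≤ B := by
    have h1 : |(s : ℝ)| = |((∑ i, a i : ℤ) : ℝ)| := by rw [hs, Int.cast_neg, abs_neg]
    have h2 : |(s : ℝ)| < (B : ℝ) + 1 := by rw [h1]; nlinarith
    have h3 : ((|s| : ℤ) : ℝ) < ((B + 1 : ℤ) : ℝ) := by push_cast; exact h2
    have h4 : |s| < B + 1 := by exact_mod_cast h3
    omega
  obtain ⟨r, hr⟩ := exists_res_pair Y (hev.neg : Even s)
  obtain ⟨m, m1, m2, -, m3, m4, m5, m6, m7⟩ := sieve (A := A) (B := B) (r := r) (s := s) (P := s * ∏ i, a i)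
    (W := primorial Y) (Y := Y) (Ex := S ∪ ExS a) hA0 hAB (primorial_pos Y) hp.hY hsB hP
    (fun p hp hpY => (hp.dvd_primorial_iff).mpr hpY)
    (fun p hp hpW => hr p hp ((hp.dvd_primorial_iff).mp hpW)) (sum_primes hP (by omega) hL hp.h3)
    (by
      have h5 := card_le_two_log (N := (s * ∏ i, a i).natAbs) (by simpa using hP)
      rw [Nat.cast_natAbs, Int.cast_abs] at h5
      have h6 : ((S ∪ ExS a).card : ℝ) ≤ N + 2 ^ (K + 1) := by
        have h7 : (S ∪ ExS a).card ≤ N + 2 ^ (K + 1) := by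
          refine (card_union_le _ _).trans ?_
          have h8 := ExS_card a
          have h9 : 2 ^ (k + 1) ≤ 2 ^ (K + 1) := Nat.pow_le_pow_right (by norm_num) (by omega)
          omega
        exact_mod_cast h7
      have h10 : Real.sqrt (2 * (B : ℝ)) ≤ Real.sqrt (2 * ((t + 2) * T)) := by
        apply Real.sqrt_le_sqrt
        linarith
      have h11 : 5 / 16 * (T / ((primorial Y : ℕ) : ℝ)) - 1 ≤ 5 / 8 * (((B : ℝ) - A) / ((primorial Y : ℕ) : ℝ)) := by
        have h12 : (T - 1) / ((primorial Y : ℕ) : ℝ) ≤ ((B : ℝ) - A) / ((primorial Y : ℕ) : ℝ) :=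
          div_le_div_of_nonneg_right (by linarith) hW0.le
        have h13 : (T - 1) / ((primorial Y : ℕ) : ℝ) = T / ((primorial Y : ℕ) : ℝ) - 1 / ((primorial Y : ℕ) : ℝ) := by
          ring
        have h14 : 1 / ((primorial Y : ℕ) : ℝ) ≤ 1 := by rw [div_le_one hW0]; exact hW1
        have h15 : 0 ≤ T / ((primorial Y : ℕ) : ℝ) := by positivity
        linarith
      have h4 := hp.h4
      linarith)
  have hm0 : 0 < m := lt_of_le_of_lt hA0 m1
  have hmT : (m : ℝ) ≤ (t + 2) * T := by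
    have : (m : ℝ) ≤ B := by exact_mod_cast m2
    linarith
  have hmS : m ∉ S := fun h => m7 (mem_union_left _ h)
  have hmE : m ∉ ExS a := fun h => m7 (mem_union_right _ h)
  obtain ⟨x1, x2, x3⟩ := extend ha m3 m4 m5 m6 hmE
  apply hmS
  have hm0' : (0 : ℝ) ≤ (m : ℝ) := by exact_mod_cast hm0.le
  refine mem_filter.mpr ⟨mem_Icc.mpr ⟨by omega, m2⟩, x1, x2, x3, ?_, ?_⟩
  · rw [abs_of_nonneg hm0']; exact hmT
  · push_cast
    have h1 : |(s : ℝ)| = |((∑ i, a i : ℤ) : ℝ)| := by rw [hs, Int.cast_neg, abs_neg]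
    calc |(s : ℝ) - m| ≤ |(s : ℝ)| + |(m : ℝ)| := abs_sub _ _
      _ ≤ (t + 1) * T + (t + 2) * T := by rw [h1, abs_of_nonneg hm0']; linarith
      _ = (2 * t + 3) * T := by ring

end Pool.Agent.H42.SN
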