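import Pool.Agent.H42.SN.Count2

set_option autoImplicit false

/-!
# Counting tuples: the asymptotic statement
-/

namespace Pool.Agent.H42.SN

open Finset Filter Topology

theorem card_biUnion_ge' {α β : Type*} [DecidableEq α] [DecidableEq β] (A : Finset α) (B : α → Finset β)
    (hd : ∀ a ∈ A, ∀ a' ∈ A, ∀ b, b ∈ B a → b ∈ B a' → a = a') {N : ℕ} (hN : ∀ a ∈ A, N ≤ (B a).card) :
    A.card * N ≤ (A.biUnion B).card := by
  rw [Finset.card_biUnion]
  · calc A.card * N = ∑ _a ∈ A, N := by rw [sum_const, smul_eq_mul]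
      _ ≤ ∑ a ∈ A, (B a).card := sum_le_sum hN
  · intro a ha a' ha' hne
    show Disjoint (B a) (B a')
    rw [Finset.disjoint_left]
    intro b hb hb'
    exact hne (hd a ha a' ha' b hb hb')

/-- The factors `w`. -/
theorem exists_W {W : ℕ} (hW : 0 < W) {A : ℝ} (hA : 8 * W ≤ A) :
    ∃ S : Finset ℕ, A / (4 * W) ≤ S.card ∧ ∀ w ∈ S, A / 2 ≤ w ∧ (w : ℝ) ≤ A ∧ (W : ℤ) ∣ (w : ℤ) - 1 := by
  have hWR : (1 : ℝ) ≤ W := by exact_mod_cast hW
  have hA0 : 0 < A := by linarith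
  refine ⟨(Ioc ⌊A / (2 * W)⌋₊ ⌊(A - 1) / W⌋₊).image (fun i => 1 + W * i), ?_, ?_⟩
  · rw [Finset.card_image_of_injective _ (fun i i' h => by
      have h : 1 + W * i = 1 + W * i' := h
      have : W * i = W * i' := by omega
      exact Nat.eq_of_mul_eq_mul_left hW this)]
    rw [Nat.card_Ioc]
    have h1 : (⌊A / (2 * W)⌋₊ : ℝ) ≤ A / (2 * W) := Nat.floor_le (by positivity)
    have h2 : (A - 1) / W < (⌊(A - 1) / W⌋₊ : ℝ) + 1 := Nat.lt_floor_add_one _
    have h3 : A / (4 * W) ≤ (A - 1) / W - 1 - A / (2 * W) := by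
      rw [div_sub' (by positivity), div_sub_div _ _ (by positivity) (by positivity),
        div_le_div_iff₀ (by positivity) (by positivity)]
      nlinarith [mul_nonneg (mul_nonneg (by linarith : (0 : ℝ) ≤ (W : ℝ)) (by linarith : (0 : ℝ) ≤ (W : ℝ))) (by linarith : (0 : ℝ) ≤ A - 8 * W),
        mul_nonneg (mul_nonneg (by linarith : (0 : ℝ) ≤ (W : ℝ)) (by linarith : (0 : ℝ) ≤ (W : ℝ))) (by linarith : (0 : ℝ) ≤ (W : ℝ) - 1)]
    have h4 : ((⌊(A - 1) / W⌋₊ - ⌊A / (2 * W)⌋₊ : ℕ) : ℝ) ≥ (⌊(A - 1) / W⌋₊ : ℝ) - ⌊A / (2 * W)⌋₊ := by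
      rcases le_total ⌊A / (2 * W)⌋₊ ⌊(A - 1) / W⌋₊ with h | h
      · rw [Nat.cast_sub h]
      · rw [Nat.sub_eq_zero_of_le h]
        have : (⌊(A - 1) / W⌋₊ : ℝ) ≤ ⌊A / (2 * W)⌋₊ := by exact_mod_cast h
        push_cast
        linarith
    linarith
  · intro w hw
    obtain ⟨i, hi, rfl⟩ := mem_image.mp hw
    rw [mem_Ioc] at hi
    have h1 : A / (2 * W) < i := (Nat.floor_lt (by positivity)).mp hi.1
    have h2 : (i : ℝ) ≤ (A - 1) / W := by
      have h3 : (i : ℝ) ≤ (⌊(A - 1) / W⌋₊ : ℝ) := by exact_mod_cast hi.2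
      exact h3.trans (Nat.floor_le (div_nonneg (by linarith) (by linarith)))
    rw [div_lt_iff₀ (by positivity)] at h1
    rw [le_div_iff₀ (by linarith)] at h2
    push_cast
    refine ⟨by nlinarith, by nlinarith, ⟨i, by ring⟩⟩

theorem count {j D ρ : ℕ} (hD : 1 ≤ D) (G : PolyCore j D ρ) {t : ℕ} (ht : Even t) {lam τ u ε : ℝ}
    (hlam : 0 < lam) (hlam' : lam < 1 / D) (hτ : 0 < τ) (hτ' : τ < 1)
    (hu : (ρ : ℝ) / D + lam + (t + 2) * τ < u) (hε : 0 < ε) :
    ∀ᶠ H : ℝ in atTop, ∃ F : Finset (Fin (j + t + 2) → ℤ), H ^ (lam + (t + 1) * τ - ε) ≤ (F.card : ℝ) ∧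
      ∀ x ∈ F, Adm x ∧ NVS x ∧ (size x : ℝ) ≤ H ∧ (radN (∏ i, x i) : ℝ) < (size x : ℝ) ^ u := by
  classical
  have hDR : (1 : ℝ) ≤ D := by exact_mod_cast hD
  have htR : (0 : ℝ) ≤ (t : ℝ) := by positivity
  have hjR : (0 : ℝ) ≤ (j : ℝ) := by positivity
  have hC0 : 0 < G.C := by linarith [G.hC]
  set Δ : ℝ := u - ((ρ : ℝ) / D + lam + (t + 2) * τ) with hΔ
  have hΔ0 : 0 < Δ := by rw [hΔ]; linarith
  set θ : ℝ := min (min (ε / (3 * t + 4)) (τ / 8)) (min (Δ / 2) (lam / 2)) with hθ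
  have hθ0 : 0 < θ := lt_min (lt_min (by positivity) (by positivity)) (lt_min (by positivity) (by positivity))
  have hθ1 : (3 * t + 4) * θ ≤ ε := by
    have h1 : θ ≤ ε / (3 * t + 4) := (min_le_left _ _).trans (min_le_left _ _)
    rw [le_div_iff₀ (by positivity)] at h1
    linarith
  have hθ2 : θ ≤ τ / 8 := (min_le_left _ _).trans (min_le_right _ _)
  have hθ3 : θ ≤ Δ / 2 := (min_le_right _ _).trans (min_le_left _ _)
  have hθ4 : θ ≤ lam / 2 := (min_le_right _ _).trans (min_le_right _ _)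
  set μ : ℝ := 1 / D - lam with hμ
  have hμ0 : 0 < μ := by rw [hμ]; linarith
  have hμ1 : μ ≤ 1 := by
    have : 1 / (D : ℝ) ≤ 1 := by rw [div_le_one (by linarith)]; exact hDR
    rw [hμ]; linarith
  set e : ℕ := ⌈1 / θ⌉₊ with he
  have he1 : 1 ≤ e := Nat.one_le_ceil_iff.mpr (by positivity)
  have heR : (1 : ℝ) ≤ e := by exact_mod_cast he1
  have heθ : μ / e ≤ θ := by
    have h1 : 1 / θ ≤ e := Nat.le_ceil _
    rw [div_le_iff₀ hθ0] at h1
    rw [div_le_iff₀ (by linarith)]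
    linarith
  set E : ℝ := 1 / (2 * θ) with hE
  have hE0 : 0 < E := by positivity
  have hEθ : 1 / (2 * E) = θ := by rw [hE]; field_simp
  obtain ⟨X₀, hX₀⟩ := G.big 0
  set Q : ℝ := (2 : ℝ) ^ ((e + 1) * D) with hQ
  have hQ0 : 0 < Q := by positivity
  set Cc : ℝ := G.C * ((t + 2) * (2 * t + 3)) * Q ^ u with hCc
  have hCc0 : 0 < Cc := by positivity
  have ev : ∀ᶠ H : ℝ in atTop,
      (1 ≤ H ∧ (t : ℝ) + 1 ≤ H) ∧
      (((16 : ℝ) ≤ (⌊Real.log H / (4 * E)⌋₊ : ℝ)) ∧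
        (Real.exp (64 * E * (j + t + 2)) ≤ (⌊Real.log H / (4 * E)⌋₊ : ℝ))) ∧
      ((2 * Real.sqrt (2 * (t + 2)) ≤ 1 / 16 * H ^ (τ / 2 - θ)) ∧
        (4 * ((j : ℝ) + t + 2) * Real.log H ≤ 1 / 16 * H ^ (τ - θ)) ∧
        (1 ≤ 1 / 16 * H ^ θ) ∧ ((2 : ℝ) ^ (j + t + 1) + 3 ≤ 1 / 16 * H ^ (τ - θ))) ∧
      ((8 * (G.W : ℝ) ≤ 1 * H ^ lam) ∧ (4 * (G.W : ℝ) ≤ 1 * H ^ θ) ∧ (2 * (G.W : ℝ) ≤ 1 * H ^ (μ / e))) ∧
      (((max X₀ G.X₁ : ℤ) : ℝ) ≤ 1 / 2 ^ (e + 1) * H ^ (1 / (D : ℝ))) ∧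
      (|(G.τ : ℝ)| ≤ 1 * H ^ τ ∧ (2 * t + 3 : ℝ) ≤ 1 * H ^ (1 - τ)) ∧
      (Cc + 1 ≤ 1 * H ^ (Δ / 2)) ∧ (2 ≤ 1 * H ^ (τ - 2 * θ)) := by
    refine ((eventually_ge_atTop 1).and (eventually_ge_atTop _)).and
      (((ev_floor_log hE0 _).and (ev_floor_log hE0 _)).and
      (((ev_const_le (by linarith) (by norm_num)).and ((ev_log_le (by linarith) (by norm_num)).and
        ((ev_const_le hθ0 (by norm_num)).and (ev_const_le (by linarith) (by norm_num))))).and
      (((ev_const_le hlam one_pos).and ((ev_const_le hθ0 one_pos).and (ev_const_le (by positivity) one_pos))).and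
      ((ev_const_le (by positivity) (by positivity)).and
      (((ev_const_le hτ one_pos).and (ev_const_le (by linarith) one_pos)).and
      ((ev_const_le (by positivity) one_pos).and (ev_const_le (by linarith) one_pos)))))))
  filter_upwards [ev] with H hH
  obtain ⟨⟨g1, g2⟩, ⟨g3, g4⟩, ⟨g5, g6, g7, g8⟩, ⟨g9, g10, g11⟩, g12, ⟨g13, g14⟩, g15, g16⟩ := hH
  rw [one_mul] at g9 g10 g11 g13 g14 g15 g16
  have hH0 : 0 < H := by linarith
  have hlogH : 0 ≤ Real.log H := Real.log_nonneg g1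
  set Y : ℕ := ⌊Real.log H / (4 * E)⌋₊ with hY
  have hY16 : 16 ≤ Y := by exact_mod_cast g3
  have hYR : (16 : ℝ) ≤ Y := by exact_mod_cast hY16
  set T : ℝ := H ^ τ with hT
  have hT1 : 1 ≤ T := Real.one_le_rpow g1 hτ.le
  have hT0 : 0 < T := by linarith
  have hTH : T ≤ H := by
    have := Real.rpow_le_rpow_of_exponent_le g1 hτ'.le
    rwa [Real.rpow_one] at this
  set N : ℕ := ⌊H ^ (τ - 2 * θ)⌋₊ with hN
  have hNle : (N : ℝ) ≤ H ^ (τ - 2 * θ) := Nat.floor_le (by positivity)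
  set Lg : ℝ := ((j : ℝ) + t + 2) * Real.log H with hLg
  have hprim : ((primorial Y : ℕ) : ℝ) ≤ H ^ θ := by
    have h1 : ((primorial Y : ℕ) : ℝ) ≤ (4 : ℝ) ^ Y := by exact_mod_cast primorial_le_four_pow Y
    have h2 := four_pow_le hE0 g1
    rw [hEθ] at h2
    exact h1.trans h2
  have hprim0 : (0 : ℝ) < ((primorial Y : ℕ) : ℝ) := by exact_mod_cast primorial_pos Y
  have hpar : Par (j + t) t T Lg Y N := by
    refine ⟨hY16, hT1, ?_, ?_⟩
    · have hlY : 64 * E * (j + t + 2) ≤ Real.log Y := by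
        rw [← Real.log_exp (64 * E * (j + t + 2))]
        exact Real.log_le_log (Real.exp_pos _) g4
      have hlY0 : 0 < Real.log Y := lt_of_lt_of_le (by positivity) hlY
      rw [div_le_iff₀ (by positivity)]
      have h1 : Real.log H / (4 * E) < Y + 1 := Nat.lt_floor_add_one _
      have h2 : Real.log H ≤ 8 * E * Y := by
        rw [div_lt_iff₀ (by positivity)] at h1
        nlinarith
      calc ((j : ℝ) + t + 2) * Real.log H ≤ ((j : ℝ) + t + 2) * (8 * E * Y) :=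
            mul_le_mul_of_nonneg_left h2 (by positivity)
        _ = 1 / 8 * (Y * (64 * E * (j + t + 2))) := by ring
        _ ≤ 1 / 8 * (Y * Real.log Y) := by
          apply mul_le_mul_of_nonneg_left _ (by norm_num)
          exact mul_le_mul_of_nonneg_left hlY (by positivity)
    · have h1 : H ^ (τ - θ) ≤ T / ((primorial Y : ℕ) : ℝ) := by
        rw [le_div_iff₀ hprim0]
        calc H ^ (τ - θ) * ((primorial Y : ℕ) : ℝ) ≤ H ^ (τ - θ) * H ^ θ :=
              mul_le_mul_of_nonneg_left hprim (by positivity)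
          _ = T := by rw [← Real.rpow_add hH0, hT]; congr 1; ring
      have h2 : 2 * Real.sqrt (2 * ((t + 2) * T)) ≤ 1 / 16 * H ^ (τ - θ) := by
        have e1 : Real.sqrt (2 * ((t + 2) * T)) = Real.sqrt (2 * (t + 2)) * H ^ (τ / 2) := by
          rw [← mul_assoc, Real.sqrt_mul (by positivity), hT, Real.sqrt_eq_rpow (H ^ τ), ← Real.rpow_mul hH0.le]
          congr 2; ring
        rw [e1]
        calc 2 * (Real.sqrt (2 * (t + 2)) * H ^ (τ / 2)) = (2 * Real.sqrt (2 * (t + 2))) * H ^ (τ / 2) := by ring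
          _ ≤ (1 / 16 * H ^ (τ / 2 - θ)) * H ^ (τ / 2) := mul_le_mul_of_nonneg_right g5 (by positivity)
          _ = 1 / 16 * H ^ (τ - θ) := by
            rw [mul_assoc, ← Real.rpow_add hH0]; congr 2; ring
      have h3 : (N : ℝ) ≤ 1 / 16 * H ^ (τ - θ) := by
        calc (N : ℝ) ≤ H ^ (τ - 2 * θ) * 1 := by rw [mul_one]; exact hNle
          _ ≤ H ^ (τ - 2 * θ) * (1 / 16 * H ^ θ) := mul_le_mul_of_nonneg_left g7 (by positivity)
          _ = 1 / 16 * H ^ (τ - θ) := by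
            rw [mul_left_comm, ← Real.rpow_add hH0]; congr 2; ring
      have h4 : 4 * Lg ≤ 1 / 16 * H ^ (τ - θ) := by rw [hLg]; linarith
      have h5 : 0 < H ^ (τ - θ) := by positivity
      linarith
  set Z : ℝ := H ^ (μ / e) with hZ
  have hZ1 : 1 ≤ Z := Real.one_le_rpow g1 (by positivity)
  obtain ⟨y, hy1, hyW, hyZ, hyZ'⟩ := exists_y G.hW hZ1
  have hy2 : Z / 2 ≤ y := by linarith
  have hy0 : (0 : ℝ) < y := by exact_mod_cast hy1
  set A : ℝ := H ^ lam with hA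
  have hA0 : 0 < A := by positivity
  obtain ⟨S, hS1, hS2⟩ := exists_W G.hW g9
  have hZe : Z ^ e = H ^ μ := by
    rw [hZ, ← Real.rpow_natCast, ← Real.rpow_mul hH0.le, div_mul_cancel₀ _ (by linarith)]
  have hAZ : A * Z ^ e = H ^ (1 / (D : ℝ)) := by
    rw [hZe, hA, ← Real.rpow_add hH0]; congr 1; rw [hμ]; ring
  -- the facts about one `w`
  have hw : ∀ w ∈ S, ∃ F : Finset (Fin (j + t + 2) → ℤ), N ^ (t + 1) ≤ F.card ∧ ∀ x ∈ F,
      x (Fin.castAdd t G.top).castSucc.castSucc = ((w : ℤ) * (y : ℤ) ^ e) ^ D ∧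
      Adm x ∧ NVS x ∧ (size x : ℝ) ≤ H ∧ (radN (∏ i, x i) : ℝ) < (size x : ℝ) ^ u := by
    intro w hwS
    obtain ⟨w1, w2, w3⟩ := hS2 w hwS
    set X : ℤ := (w : ℤ) * (y : ℤ) ^ e with hX
    have hXr : (X : ℝ) = w * (y : ℝ) ^ e := by rw [hX]; push_cast; ring
    have hw0 : (0 : ℝ) < w := lt_of_lt_of_le (by positivity) w1
    have hXle : (X : ℝ) ≤ H ^ (1 / (D : ℝ)) := by
      rw [hXr, ← hAZ]
      exact mul_le_mul w2 (pow_le_pow_left₀ hy0.le hyZ' _) (by positivity) hA0.le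
    have hXge : 1 / 2 ^ (e + 1) * H ^ (1 / (D : ℝ)) ≤ X := by
      rw [hXr, ← hAZ]
      calc 1 / 2 ^ (e + 1) * (A * Z ^ e) = (A / 2) * (Z / 2) ^ e := by
            rw [div_pow, pow_succ]; field_simp
        _ ≤ w * (y : ℝ) ^ e := mul_le_mul w1 (pow_le_pow_left₀ (by positivity) hy2 _) (by positivity) hw0.le
    have hXmax : ((max X₀ G.X₁ : ℤ) : ℝ) ≤ X := g12.trans hXge
    have hXmax' : max X₀ G.X₁ ≤ X := by exact_mod_cast hXmax
    have hXX₀ : X₀ ≤ X := (le_max_left _ _).trans hXmax'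
    have hXX₁ : G.X₁ ≤ X := (le_max_right _ _).trans hXmax'
    have hX1 : 1 ≤ X := G.hX₁.trans hXX₁
    have hX0r : (0 : ℝ) < X := by exact_mod_cast hX1
    have hXD : (X : ℝ) ^ D ≤ H := by
      calc (X : ℝ) ^ D ≤ (H ^ (1 / (D : ℝ))) ^ D := pow_le_pow_left₀ hX0r.le hXle _
        _ = H := by
          rw [← Real.rpow_natCast, ← Real.rpow_mul hH0.le, one_div_mul_cancel (by linarith), Real.rpow_one]
    have hXD' : H / Q ≤ (X : ℝ) ^ D := by
      calc H / Q = (1 / 2 ^ (e + 1) * H ^ (1 / (D : ℝ))) ^ D := by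
            rw [mul_pow, ← Real.rpow_natCast (H ^ (1 / (D : ℝ))), ← Real.rpow_mul hH0.le,
              one_div_mul_cancel (by linarith), Real.rpow_one, hQ, one_div, inv_pow, ← pow_mul]
            field_simp
        _ ≤ (X : ℝ) ^ D := pow_le_pow_left₀ (by positivity) hXge _
    have hXW : (G.W : ℤ) ∣ X - 1 := by
      have h1 : (y : ℤ) - 1 ∣ (y : ℤ) ^ e - 1 := by
        have := sub_dvd_pow_sub_pow (y : ℤ) 1 e
        simpa using this
      have h2 : X - 1 = ((w : ℤ) - 1) * (y : ℤ) ^ e + ((y : ℤ) ^ e - 1) := by rw [hX]; ring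
      rw [h2]
      exact dvd_add (w3.mul_right _) (hyW.trans h1)
    have hbig : ∀ U : Finset (Fin j), U.Nonempty → ∑ i ∈ U, G.b X i ≠ 0 := by
      intro U hU
      by_cases hUu : U = univ
      · rw [hUu, G.sum]; exact G.hτ
      · intro h0
        have := hX₀ X hXX₀ U hU hUu
        rw [h0, abs_zero] at this
        exact lt_irrefl _ this
    have hcore : Core (G.b X) := by
      refine ⟨fun i => ?_, G.cop X hXX₁ hXW, hbig⟩
      have := hbig {i} (singleton_nonempty i)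
      rwa [sum_singleton] at this
    have hP0 : ∏ i, G.b X i ≠ 0 := Finset.prod_ne_zero_iff.mpr fun i _ => hcore.ne i
    have hble : ∀ i, |(G.b X i : ℝ)| ≤ (X : ℝ) ^ D := by
      intro i
      have h1 := G.le X hXX₁ i
      have h2 : ((|G.b X i| : ℤ) : ℝ) ≤ ((X ^ D : ℤ) : ℝ) := by exact_mod_cast h1
      push_cast at h2
      exact h2
    have hlogP : Real.log |((∏ i, G.b X i : ℤ) : ℝ)| ≤ j * Real.log H := by
      have h1 : |((∏ i, G.b X i : ℤ) : ℝ)| ≤ H ^ j := by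
        push_cast
        rw [Finset.abs_prod]
        calc ∏ i : Fin j, |(G.b X i : ℝ)| ≤ ∏ _i : Fin j, H :=
              Finset.prod_le_prod (fun _ _ => abs_nonneg _) fun i _ => (hble i).trans hXD
          _ = H ^ j := by simp
      have h2 : (0 : ℝ) < |((∏ i, G.b X i : ℤ) : ℝ)| := by rw [abs_pos]; exact_mod_cast hP0
      have h3 := Real.log_le_log h2 h1
      rwa [Real.log_pow] at h3
    have hlogT : Real.log T ≤ Real.log H := Real.log_le_log hT0 hTH
    have hlogT2 : Real.log ((t + 1) * T) ≤ 2 * Real.log H := by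
      have h1 : ((t : ℝ) + 1) * T ≤ H * H := mul_le_mul g2 hTH hT0.le hH0.le
      have h2 := Real.log_le_log (by positivity) h1
      rw [Real.log_mul hH0.ne' hH0.ne'] at h2
      linarith
    obtain ⟨F, hF1, hF2⟩ := fullCount hpar (le_refl (j + t)) hcore
      (by
        rw [G.sum]
        have ht' : Even (t : ℤ) := by exact_mod_cast ht
        exact G.hτ2.add ht')
      (by rw [G.sum]; exact G.hτ) (by rw [G.sum]; exact g13)
      (by
        have : (t : ℝ) * Real.log T ≤ t * Real.log H := mul_le_mul_of_nonneg_left hlogT htR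
        rw [hLg]
        linarith)
    refine ⟨F, hF1, ?_⟩
    intro x hx
    obtain ⟨x1, x2, x3, x4, x5⟩ := hF2 x hx
    have hxtop : x (Fin.castAdd t G.top).castSucc.castSucc = X ^ D := by rw [x3, G.htop]
    have hsize1 : (X : ℝ) ^ D ≤ size x := by
      have h1 := le_size x (Fin.castAdd t G.top).castSucc.castSucc
      rw [hxtop] at h1
      push_cast at h1
      rwa [abs_of_nonneg (by positivity)] at h1
    have hsize2 : (size x : ℝ) ≤ H := by
      refine size_le hH0.le ?_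
      intro i
      rcases x5 i with ⟨i', h⟩ | h
      · rw [h]; exact (hble i').trans hXD
      · refine h.trans ?_
        calc (2 * (t : ℝ) + 3) * T ≤ H ^ (1 - τ) * H ^ τ := mul_le_mul g14 le_rfl hT0.le (by positivity)
          _ = H := by rw [← Real.rpow_add hH0]; simp
    refine ⟨hxtop, x1, x2, hsize2, ?_⟩
    -- the radical
    obtain ⟨r1, r2, r3⟩ := G.rad X hXX₁
    have hy0' : (y : ℤ) ≠ 0 := by exact_mod_cast (by omega : y ≠ 0)
    have hw0' : (w : ℤ) ≠ 0 := by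
      have : w ≠ 0 := by
        rintro rfl
        simp at hw0
      exact_mod_cast this
    have hrad0 : (radN (∏ i, G.b X i) : ℝ) ≤ A * Z * (G.C * H ^ ((ρ : ℝ) / D)) := by
      have h1 : (radN (∏ i, G.b X i) : ℝ) ≤ |((((w : ℤ) * (y : ℤ)) * G.M X : ℤ) : ℝ)| := by
        apply radN_le (mul_ne_zero (mul_ne_zero hw0' hy0') r1)
        intro p hp hd
        have hpp : Prime (p : ℤ) := Nat.prime_iff_prime_int.mp hp
        rcases hpp.dvd_or_dvd (r2 p hp hd) with h | h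
        · rw [hX] at h
          rcases hpp.dvd_or_dvd h with h | h
          · exact (h.mul_right _).mul_right _
          · exact ((hpp.dvd_of_dvd_pow h).mul_left _).mul_right _
        · exact h.mul_left _
      refine h1.trans ?_
      push_cast
      rw [abs_mul, abs_mul, abs_of_pos hw0, abs_of_pos hy0]
      push_cast at r3
      have h2 : (X : ℝ) ^ ρ ≤ H ^ ((ρ : ℝ) / D) := by
        calc (X : ℝ) ^ ρ ≤ (H ^ (1 / (D : ℝ))) ^ ρ := pow_le_pow_left₀ hX0r.le hXle _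
          _ = H ^ ((ρ : ℝ) / D) := by
            rw [← Real.rpow_natCast, ← Real.rpow_mul hH0.le]; congr 1; ring
      have h3 : |(G.M X : ℝ)| ≤ G.C * H ^ ((ρ : ℝ) / D) :=
        r3.trans (mul_le_mul_of_nonneg_left h2 hC0.le)
      exact mul_le_mul (mul_le_mul w2 hyZ' hy0.le hA0.le) h3 (abs_nonneg _) (by positivity)
    have hZθ : Z ≤ H ^ θ := Real.rpow_le_rpow_of_exponent_le g1 heθ
    have hrad1 : (radN (∏ i, x i) : ℝ) * Q ^ u ≤ Cc * H ^ (u - Δ + θ) := by
      calc (radN (∏ i, x i) : ℝ) * Q ^ u ≤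
            (radN (∏ i, G.b X i) * ((t + 2) * (2 * t + 3)) * T ^ (t + 2)) * Q ^ u :=
              mul_le_mul_of_nonneg_right x4 (by positivity)
        _ ≤ ((A * H ^ θ * (G.C * H ^ ((ρ : ℝ) / D))) * ((t + 2) * (2 * t + 3)) * T ^ (t + 2)) * Q ^ u := by
              apply mul_le_mul_of_nonneg_right _ (by positivity)
              apply mul_le_mul_of_nonneg_right _ (by positivity)
              apply mul_le_mul_of_nonneg_right _ (by positivity)
              refine hrad0.trans ?_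
              apply mul_le_mul_of_nonneg_right _ (by positivity)
              exact mul_le_mul_of_nonneg_left hZθ hA0.le
        _ = Cc * (A * H ^ θ * H ^ ((ρ : ℝ) / D) * T ^ (t + 2)) := by rw [hCc]; ring
        _ = Cc * H ^ (u - Δ + θ) := by
              congr 1
              have e1 : T ^ (t + 2) = H ^ ((t + 2) * τ) := by
                rw [hT, ← Real.rpow_natCast, ← Real.rpow_mul hH0.le]; congr 1; push_cast; ring
              rw [e1, hA, ← Real.rpow_add hH0, ← Real.rpow_add hH0, ← Real.rpow_add hH0]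
              congr 1
              rw [hΔ]; ring
    have hu0 : 0 < u := by
      have : 0 ≤ (ρ : ℝ) / D := by positivity
      nlinarith [mul_pos (by linarith : (0 : ℝ) < (t : ℝ) + 2) hτ]
    have hrad2 : Cc * H ^ (u - Δ + θ) < H ^ u := by
      calc Cc * H ^ (u - Δ + θ) < H ^ (Δ / 2) * H ^ (u - Δ + θ) :=
            mul_lt_mul_of_pos_right (by linarith) (by positivity)
        _ = H ^ (Δ / 2 + (u - Δ + θ)) := by rw [← Real.rpow_add hH0]
        _ ≤ H ^ u := Real.rpow_le_rpow_of_exponent_le g1 (by linarith)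
    have hrad3 : H ^ u ≤ (size x : ℝ) ^ u * Q ^ u := by
      rw [← Real.mul_rpow (by positivity) hQ0.le]
      apply Real.rpow_le_rpow hH0.le _ hu0.le
      have : H / Q * Q ≤ (size x : ℝ) * Q := mul_le_mul_of_nonneg_right (hXD'.trans hsize1) hQ0.le
      rwa [div_mul_cancel₀ _ hQ0.ne'] at this
    have hQu : 0 < Q ^ u := by positivity
    have h9 : (radN (∏ i, x i) : ℝ) * Q ^ u < (size x : ℝ) ^ u * Q ^ u :=
      lt_of_le_of_lt hrad1 (lt_of_lt_of_le hrad2 hrad3)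
    exact lt_of_mul_lt_mul_right h9 hQu.le
  choose! F hF1 hF2 using hw
  refine ⟨S.biUnion F, ?_, ?_⟩
  · have h1 : S.card * N ^ (t + 1) ≤ (S.biUnion F).card := by
      refine card_biUnion_ge' S F ?_ hF1
      intro w hw w' hw' x hx hx'
      have e1 := (hF2 w hw x hx).1
      have e2 := (hF2 w' hw' x hx').1
      rw [e1] at e2
      have hpos : ∀ w ∈ S, 0 ≤ (w : ℤ) * (y : ℤ) ^ e := fun w _ => by positivity
      have e3 := (pow_left_inj₀ (hpos w hw) (hpos w' hw') (by omega)).mp e2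
      have hye : (y : ℤ) ^ e ≠ 0 := pow_ne_zero _ (by exact_mod_cast (by omega : y ≠ 0))
      have e4 := mul_right_cancel₀ hye e3
      exact_mod_cast e4
    have h2 : H ^ (lam - θ) ≤ (S.card : ℝ) := by
      refine le_trans ?_ hS1
      have hWR : (0 : ℝ) < G.W := by exact_mod_cast G.hW
      rw [le_div_iff₀ (by positivity)]
      calc H ^ (lam - θ) * (4 * G.W) ≤ H ^ (lam - θ) * H ^ θ := mul_le_mul_of_nonneg_left g10 (by positivity)
        _ = A := by rw [← Real.rpow_add hH0, hA]; congr 1; ring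
    have h3 : H ^ (τ - 3 * θ) ≤ (N : ℝ) := by
      have h4 : H ^ (τ - 2 * θ) < N + 1 := Nat.lt_floor_add_one _
      have h5 : H ^ (τ - 2 * θ) / 2 ≤ N := by linarith
      refine le_trans ?_ h5
      rw [le_div_iff₀ (by norm_num)]
      have h6 : (2 : ℝ) ≤ H ^ θ := by linarith
      calc H ^ (τ - 3 * θ) * 2 ≤ H ^ (τ - 3 * θ) * H ^ θ := mul_le_mul_of_nonneg_left h6 (by positivity)
        _ = H ^ (τ - 2 * θ) := by rw [← Real.rpow_add hH0]; congr 1; ring
    have h7 : H ^ (lam + (t + 1) * τ - ε) ≤ H ^ (lam - θ) * (H ^ (τ - 3 * θ)) ^ (t + 1) := by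
      rw [← Real.rpow_natCast (H ^ (τ - 3 * θ)), ← Real.rpow_mul hH0.le, ← Real.rpow_add hH0]
      apply Real.rpow_le_rpow_of_exponent_le g1
      push_cast
      nlinarith
    calc H ^ (lam + (t + 1) * τ - ε) ≤ H ^ (lam - θ) * (H ^ (τ - 3 * θ)) ^ (t + 1) := h7
      _ ≤ (S.card : ℝ) * (N : ℝ) ^ (t + 1) :=
        mul_le_mul h2 (pow_le_pow_left₀ (by positivity) h3 _) (by positivity) (by positivity)
      _ ≤ ((S.biUnion F).card : ℝ) := by exact_mod_cast h1
  · intro x hx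
    obtain ⟨w, hw, hx⟩ := mem_biUnion.mp hx
    exact (hF2 w hw x hx).2

end Pool.Agent.H42.SN
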