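import Mathlib

set_option autoImplicit false

/-!
# Adding two entries to a zero-sum-free tuple
-/

namespace Pool.Agent.H42.SN

open Finset

/-- Admissible tuples: non-zero pairwise coprime integers with sum zero. -/
def Adm {n : ℕ} (x : Fin n → ℤ) : Prop :=
  (∀ i, x i ≠ 0) ∧ (∀ i j, i ≠ j → IsCoprime (x i) (x j)) ∧ ∑ i, x i = 0

/-- No vanishing subsum. -/
def NVS {n : ℕ} (x : Fin n → ℤ) : Prop :=
  ∀ S : Finset (Fin n), S.Nonempty → S ≠ univ → ∑ i ∈ S, x i ≠ 0

/-- The radical of an integer. -/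
def radN (N : ℤ) : ℕ := ∏ p ∈ N.natAbs.primeFactors, p

/-- The largest absolute value. -/
def size {n : ℕ} (x : Fin n → ℤ) : ℕ := univ.sup fun i => (x i).natAbs

theorem size_le {n : ℕ} {x : Fin n → ℤ} {H : ℝ} (hH : 0 ≤ H) (h : ∀ i, |(x i : ℝ)| ≤ H) : (size x : ℝ) ≤ H := by
  have : size x ≤ ⌊H⌋₊ := by
    refine Finset.sup_le fun i _ => Nat.le_floor ?_
    rw [Nat.cast_natAbs, Int.cast_abs]
    exact h i
  calc (size x : ℝ) ≤ (⌊H⌋₊ : ℝ) := by exact_mod_cast this
    _ ≤ H := Nat.floor_le hH

theorem le_size {n : ℕ} (x : Fin n → ℤ) (i : Fin n) : |(x i : ℝ)| ≤ size x := by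
  have h : (x i).natAbs ≤ size x := Finset.le_sup (f := fun i => (x i).natAbs) (mem_univ i)
  have h2 : (((x i).natAbs : ℕ) : ℝ) ≤ (size x : ℝ) := by exact_mod_cast h
  rwa [Nat.cast_natAbs, Int.cast_abs] at h2

theorem radN_mul {a b : ℤ} (h : IsCoprime a b) : radN (a * b) = radN a * radN b := by
  unfold radN
  have h' : Nat.Coprime a.natAbs b.natAbs := Int.isCoprime_iff_gcd_eq_one.mp h
  rw [Int.natAbs_mul, h'.primeFactors_mul, prod_union h'.disjoint_primeFactors]

theorem radN_sqf {a : ℤ} (h : Squarefree a) : radN a = a.natAbs :=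
  Nat.prod_primeFactors_of_squarefree (Int.squarefree_natAbs.mpr h)

theorem radN_pos (a : ℤ) : 0 < radN a :=
  Finset.prod_pos fun _ hp => (Nat.prime_of_mem_primeFactors hp).pos

theorem radN_dvd {a : ℤ} : radN a ∣ a.natAbs := Nat.prod_primeFactors_dvd _

/-- A tuple of non-zero pairwise coprime integers without non-empty vanishing subsums. -/
structure Core {k : ℕ} (a : Fin k → ℤ) : Prop where
  ne : ∀ i, a i ≠ 0
  cop : ∀ i j, i ≠ j → IsCoprime (a i) (a j)
  free : ∀ S : Finset (Fin k), S.Nonempty → ∑ i ∈ S, a i ≠ 0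

/-- The extension. -/
def ext {k : ℕ} (a : Fin k → ℤ) (m : ℤ) : Fin (k + 2) → ℤ :=
  Fin.snoc (α := fun _ => ℤ) (Fin.snoc (α := fun _ => ℤ) a m) (-(∑ i, a i) - m)

theorem ext_last {k : ℕ} (a : Fin k → ℤ) (m : ℤ) : ext a m (Fin.last (k + 1)) = -(∑ i, a i) - m := by
  simp [ext]

theorem ext_mid {k : ℕ} (a : Fin k → ℤ) (m : ℤ) : ext a m (Fin.last k).castSucc = m := by
  simp [ext]

theorem ext_first {k : ℕ} (a : Fin k → ℤ) (m : ℤ) (i : Fin k) : ext a m i.castSucc.castSucc = a i := by
  simp [ext]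

theorem ext_cases {k : ℕ} {Q : Fin (k + 2) → Prop}
    (h1 : ∀ i : Fin k, Q i.castSucc.castSucc) (h2 : Q (Fin.last k).castSucc) (h3 : Q (Fin.last (k + 1))) :
    ∀ i, Q i := by
  intro i
  induction i using Fin.lastCases with
  | last => exact h3
  | cast i =>
    induction i using Fin.lastCases with
    | last => exact h2
    | cast i => exact h1 i

/-- The exceptional values of `m`. -/
def ExS {k : ℕ} (a : Fin k → ℤ) : Finset ℤ :=
  (univ : Finset (Finset (Fin k))).image (fun S => -∑ i ∈ S, a i) ∪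
    (univ : Finset (Finset (Fin k))).image (fun S => -(∑ i, a i) + ∑ i ∈ S, a i)

theorem ExS_card {k : ℕ} (a : Fin k → ℤ) : (ExS a).card ≤ 2 ^ (k + 1) := by
  refine (card_union_le _ _).trans ?_
  have h : (univ : Finset (Finset (Fin k))).card = 2 ^ k := by simp
  have h1 := card_image_le (s := (univ : Finset (Finset (Fin k)))) (f := fun S => -∑ i ∈ S, a i)
  have h2 := card_image_le (s := (univ : Finset (Finset (Fin k))))
    (f := fun S => -(∑ i, a i) + ∑ i ∈ S, a i)
  rw [h] at h1 h2
  rw [pow_succ]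
  omega

theorem sum_ext {k : ℕ} (a : Fin k → ℤ) (m : ℤ) (S : Finset (Fin (k + 2))) :
    ∑ i ∈ S, ext a m i = ∑ i ∈ univ.filter (fun i : Fin k => i.castSucc.castSucc ∈ S), a i +
      (if (Fin.last k).castSucc ∈ S then m else 0) +
      (if Fin.last (k + 1) ∈ S then -(∑ i, a i) - m else 0) := by
  have h : ∑ i ∈ S, ext a m i = ∑ i, if i ∈ S then ext a m i else 0 := by
    rw [Finset.sum_ite_mem, Finset.univ_inter]
  rw [h, Fin.sum_univ_castSucc, Fin.sum_univ_castSucc]
  simp only [ext_last, ext_mid, ext_first]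
  rw [Finset.sum_filter]

theorem prod_ext {k : ℕ} (a : Fin k → ℤ) (m : ℤ) :
    ∏ i, ext a m i = (∏ i, a i) * (m * (-(∑ i, a i) - m)) := by
  rw [Fin.prod_univ_castSucc, Fin.prod_univ_castSucc]
  simp only [ext_last, ext_mid, ext_first]
  ring

theorem extend {k : ℕ} {a : Fin k → ℤ} (ha : Core a) {m : ℤ}
    (hm : Squarefree m) (hm' : Squarefree (-(∑ i, a i) - m))
    (c1 : IsCoprime m (-(∑ i, a i) * ∏ i, a i)) (c2 : IsCoprime (-(∑ i, a i) - m) (-(∑ i, a i) * ∏ i, a i))
    (hEx : m ∉ ExS a) :
    Adm (ext a m) ∧ NVS (ext a m) ∧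
      radN (∏ i, ext a m i) = radN (∏ i, a i) * (m.natAbs * (-(∑ i, a i) - m).natAbs) := by
  have hm0 : m ≠ 0 := hm.ne_zero
  have hm0' : -(∑ i, a i) - m ≠ 0 := hm'.ne_zero
  have ca : ∀ i, IsCoprime m (a i) := fun i =>
    (IsCoprime.of_mul_right_right c1).of_isCoprime_of_dvd_right (dvd_prod_of_mem a (mem_univ i))
  have ca' : ∀ i, IsCoprime (-(∑ i, a i) - m) (a i) := fun i =>
    (IsCoprime.of_mul_right_right c2).of_isCoprime_of_dvd_right (dvd_prod_of_mem a (mem_univ i))
  have cmm : IsCoprime m (-(∑ i, a i) - m) := by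
    have h := (IsCoprime.of_mul_right_left c1)
    have e : -(∑ i, a i) - m = -(∑ i, a i) + m * (-1) := by ring
    rw [e]
    exact h.add_mul_left_right _
  have hsum : ∑ i, ext a m i = 0 := by
    rw [Fin.sum_univ_castSucc, Fin.sum_univ_castSucc]
    simp only [ext_last, ext_mid, ext_first]
    ring
  refine ⟨⟨?_, ?_, hsum⟩, ?_, ?_⟩
  · refine ext_cases ?_ ?_ ?_
    · intro i; rw [ext_first]; exact ha.ne i
    · rw [ext_mid]; exact hm0
    · rw [ext_last]; exact hm0'
  · intro i j
    revert i j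
    refine ext_cases ?_ ?_ ?_
    · intro i
      refine ext_cases ?_ ?_ ?_
      · intro j hij
        rw [ext_first, ext_first]
        exact ha.cop i j (fun h => hij (by rw [h]))
      · intro _
        rw [ext_first, ext_mid]; exact (ca i).symm
      · intro _
        rw [ext_first, ext_last]; exact (ca' i).symm
    · refine ext_cases ?_ ?_ ?_
      · intro j _
        rw [ext_first, ext_mid]; exact ca j
      · intro h; exact absurd rfl h
      · intro _
        rw [ext_mid, ext_last]; exact cmm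
    · refine ext_cases ?_ ?_ ?_
      · intro j _
        rw [ext_first, ext_last]; exact ca' j
      · intro _
        rw [ext_mid, ext_last]; exact cmm.symm
      · intro h; exact absurd rfl h
  · intro S hne huniv
    rw [sum_ext]
    set U := univ.filter (fun i : Fin k => i.castSucc.castSucc ∈ S) with hU
    by_cases h1 : (Fin.last k).castSucc ∈ S <;> by_cases h2 : Fin.last (k + 1) ∈ S
    · rw [if_pos h1, if_pos h2]
      have hc : (univ \ U).Nonempty := by
        rw [Finset.nonempty_iff_ne_empty]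
        intro h
        apply huniv
        rw [Finset.eq_univ_iff_forall]
        refine ext_cases ?_ h1 h2
        intro i
        have : i ∈ U := by
          by_contra hi
          have : i ∈ univ \ U := mem_sdiff.mpr ⟨mem_univ i, hi⟩
          rw [h] at this
          simp at this
        simpa [hU] using this
      have h3 := ha.free _ hc
      have h4 : ∑ i ∈ univ \ U, a i + ∑ i ∈ U, a i = ∑ i, a i := sum_sdiff (subset_univ U)
      intro h5
      apply h3
      linarith
    · rw [if_pos h1, if_neg h2]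
      intro h
      apply hEx
      unfold ExS
      refine mem_union_left _ (mem_image.mpr ⟨U, mem_univ _, ?_⟩)
      linarith
    · rw [if_neg h1, if_pos h2]
      intro h
      apply hEx
      unfold ExS
      refine mem_union_right _ (mem_image.mpr ⟨U, mem_univ _, ?_⟩)
      linarith
    · rw [if_neg h1, if_neg h2]
      have hc : U.Nonempty := by
        obtain ⟨i, hi⟩ := hne
        revert hi
        revert i
        refine ext_cases ?_ ?_ ?_
        · intro i hi
          exact ⟨i, by simp [hU, hi]⟩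
        · intro h; exact absurd h h1
        · intro h; exact absurd h h2
      simpa using ha.free _ hc
  · rw [prod_ext, radN_mul, radN_mul cmm, radN_sqf hm, radN_sqf hm']
    exact (IsCoprime.mul_left (IsCoprime.of_mul_right_right c1) (IsCoprime.of_mul_right_right c2)).symm

end Pool.Agent.H42.SN
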