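import Pool.Agent.H42.SN.CaseI2

set_option autoImplicit false

/-!
# Families from polynomial identities with constant sum
-/

namespace Pool.Agent.H42.SN

open Finset

/-- A polynomial identity with constant sum. -/
structure PolyCore (j D ρ : ℕ) where
  b : ℤ → Fin j → ℤ
  M : ℤ → ℤ
  W : ℕ
  hW : 0 < W
  X₁ : ℤ
  hX₁ : 1 ≤ X₁
  C : ℝ
  hC : 1 ≤ C
  τ : ℤ
  hτ : τ ≠ 0
  hτ2 : Even τ
  hj : 2 ≤ j
  cop : ∀ X, X₁ ≤ X → (W : ℤ) ∣ X - 1 → ∀ i i', i ≠ i' → IsCoprime (b X i) (b X i')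
  sum : ∀ X, ∑ i, b X i = τ
  big : ∀ B : ℤ, ∃ X₀ : ℤ, ∀ X, X₀ ≤ X → ∀ U : Finset (Fin j), U.Nonempty → U ≠ univ →
    B < |∑ i ∈ U, b X i|
  top : Fin j
  htop : ∀ X, b X top = X ^ D
  le : ∀ X, X₁ ≤ X → ∀ i, |b X i| ≤ X ^ D
  rad : ∀ X, X₁ ≤ X → M X ≠ 0 ∧ (∀ p : ℕ, p.Prime → (p : ℤ) ∣ ∏ i, b X i → (p : ℤ) ∣ X * M X) ∧
    |(M X : ℝ)| ≤ C * (X : ℝ) ^ ρ
  cong : ∀ X i, (X - 1) ∣ b X i - b 1 i
  one : ∏ i, b 1 i ≠ 0

theorem radN_le {N M : ℤ} (hM : M ≠ 0) (h : ∀ p : ℕ, p.Prime → (p : ℤ) ∣ N → (p : ℤ) ∣ M) :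
    (radN N : ℝ) ≤ |(M : ℝ)| := by
  have h1 : radN N ≤ M.natAbs := by
    apply Nat.le_of_dvd (Int.natAbs_pos.mpr hM)
    unfold radN
    apply Finset.prod_primes_dvd
    · intro p hp
      exact (Nat.prime_of_mem_primeFactors hp).prime
    · intro p hp
      have hp' := Nat.prime_of_mem_primeFactors hp
      have := Nat.dvd_of_mem_primeFactors hp
      exact natAbs_prime_dvd.mpr (h p hp' (natAbs_prime_dvd.mp this))
  have h2 : (radN N : ℝ) ≤ (M.natAbs : ℝ) := by exact_mod_cast h1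
  rwa [Nat.cast_natAbs, Int.cast_abs] at h2

/-- Distinct large primes. -/
theorem exists_primes (t N : ℕ) : ∃ p : Fin t → ℕ, (∀ i, (p i).Prime) ∧ Function.Injective p ∧ ∀ i, N < p i := by
  refine ⟨fun i => Nat.nth Nat.Prime (N + 1 + i), fun i => Nat.prime_nth_prime _, ?_, ?_⟩
  · intro i i' h
    have := (Nat.nth_strictMono Nat.infinite_setOfPred_prime).injective h
    exact Fin.ext (by omega)
  · intro i
    have : N + 1 + (i : ℕ) ≤ Nat.nth Nat.Prime (N + 1 + i) :=
      (Nat.nth_strictMono Nat.infinite_setOfPred_prime).le_apply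
    show N < Nat.nth Nat.Prime (N + 1 + i)
    omega

theorem append_cases {j t : ℕ} {Q : Fin (j + t) → Prop} (h1 : ∀ i : Fin j, Q (Fin.castAdd t i))
    (h2 : ∀ i : Fin t, Q (Fin.natAdd j i)) : ∀ i, Q i := by
  intro i
  induction i using Fin.addCases with
  | left i => exact h1 i
  | right i => exact h2 i

theorem sum_append {j t : ℕ} (b : Fin j → ℤ) (c : Fin t → ℤ) (S : Finset (Fin (j + t))) :
    ∑ i ∈ S, Fin.append b c i = ∑ i ∈ univ.filter (fun i : Fin j => Fin.castAdd t i ∈ S), b i +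
      ∑ i ∈ univ.filter (fun i : Fin t => Fin.natAdd j i ∈ S), c i := by
  have h : ∑ i ∈ S, Fin.append b c i = ∑ i, if i ∈ S then Fin.append b c i else 0 := by
    rw [Finset.sum_ite_mem, Finset.univ_inter]
  rw [h, Fin.sum_univ_add]
  simp only [Fin.append_left, Fin.append_right]
  rw [Finset.sum_filter, Finset.sum_filter]

theorem exFam {j D ρ : ℕ} (G : PolyCore j D ρ) {t : ℕ} (ht : Even t) {e : ℕ} (he : 1 ≤ e) :
    Nonempty (Fam (j + t) D ρ e) := by
  obtain ⟨p, hp, hinj, hN⟩ := exists_primes t (max 2 (∏ i, G.b 1 i).natAbs)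
  have hp2 : ∀ i, 2 < p i := fun i => lt_of_le_of_lt (le_max_left _ _) (hN i)
  have hpb : ∀ i i', ¬ ((p i : ℕ) : ℤ) ∣ G.b 1 i' := by
    intro i i' h
    have h1 : ((p i : ℕ) : ℤ) ∣ ∏ i, G.b 1 i := h.trans (dvd_prod_of_mem _ (mem_univ i'))
    have h2 : p i ∣ (∏ i, G.b 1 i).natAbs := natAbs_prime_dvd.mpr h1
    have h3 := Nat.le_of_dvd (Int.natAbs_pos.mpr G.one) h2
    have h4 := hN i
    have h5 := le_max_right 2 (∏ i, G.b 1 i).natAbs
    omega
  set σ : ℤ := G.τ.sign with hσ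
  have hσ1 : |σ| = 1 := Int.abs_sign_of_ne_zero G.hτ
  have hστ : 0 < σ * G.τ := by
    rw [hσ, Int.sign_mul_self_eq_abs]; exact abs_pos.mpr G.hτ
  have hσ0 : σ ≠ 0 := by
    intro h; rw [h] at hστ; simp at hστ
  have hσσ : σ * σ = 1 := by
    have : |σ| * |σ| = 1 := by rw [hσ1]; norm_num
    rwa [abs_mul_abs_self] at this
  set c : Fin t → ℤ := fun i => σ * p i with hc
  set Sp : ℤ := ∑ i, (p i : ℤ) with hSp
  have hSp0 : 0 ≤ Sp := Finset.sum_nonneg fun i _ => by positivity
  have hpS : ∀ i, (p i : ℤ) ≤ Sp := fun i =>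
    Finset.single_le_sum (f := fun i => (p i : ℤ)) (fun i _ => by positivity) (mem_univ i)
  obtain ⟨X₀, hX₀⟩ := G.big Sp
  set a : ℕ → Fin (j + t) → ℤ := fun y => Fin.append (G.b ((y : ℤ) ^ e)) c with ha
  have hsumc : ∑ i, c i = σ * Sp := by rw [hc, hSp, Finset.mul_sum]
  have hSeven : Even Sp := by
    have h1 : Sp = ∑ i : Fin t, ((p i : ℤ) - 1) + t := by
      rw [Finset.sum_sub_distrib]; simp [hSp]
    rw [h1]
    have ht' : Even (t : ℤ) := by exact_mod_cast ht
    refine Even.add (Finset.even_sum _ fun i _ => ?_) ht'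
    have h2 : ¬ 2 ∣ p i := by
      intro h
      have := (Nat.prime_dvd_prime_iff_eq Nat.prime_two (hp i)).mp h
      have := hp2 i
      omega
    have h3 : Odd (p i) := by
      rw [← Nat.not_even_iff_odd, even_iff_two_dvd]; exact h2
    obtain ⟨u, hu⟩ := h3
    exact ⟨u, by rw [hu]; push_cast; ring⟩
  have hye : ∀ y : ℕ, 1 ≤ y → (y : ℤ) ≤ (y : ℤ) ^ e := by
    intro y hy
    have : y ≤ y ^ e := Nat.le_self_pow (by omega) y
    exact_mod_cast this
  set y₀ : ℕ := (max (max X₀ G.X₁) Sp).toNat with hy₀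
  have hy₀1 : ∀ y : ℕ, y₀ ≤ y → X₀ ≤ (y : ℤ) ^ e ∧ G.X₁ ≤ (y : ℤ) ^ e ∧ Sp ≤ (y : ℤ) ^ e ∧ 1 ≤ y := by
    intro y hy
    have h1 : max (max X₀ G.X₁) Sp ≤ y := Int.toNat_le.mp hy
    have h2 : X₀ ≤ (y : ℤ) := (le_max_left _ _).trans ((le_max_left _ _).trans h1)
    have h3 : G.X₁ ≤ (y : ℤ) := (le_max_right _ _).trans ((le_max_left _ _).trans h1)
    have h4 : Sp ≤ (y : ℤ) := (le_max_right _ _).trans h1
    have h5 := G.hX₁
    have h6 : 1 ≤ y := by omega
    have h7 := hye y h6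
    exact ⟨h2.trans h7, h3.trans h7, h4.trans h7, h6⟩
  have hyW : ∀ y : ℕ, y ≡ 1 [MOD G.W * ∏ i, p i] → ((G.W * ∏ i, p i : ℕ) : ℤ) ∣ (y : ℤ) ^ e - 1 := by
    intro y hy
    have h1 : ((G.W * ∏ i, p i : ℕ) : ℤ) ∣ (y : ℤ) - 1 := by
      have h2 := (Int.natCast_modEq_iff.mpr hy).symm.dvd
      simpa using h2
    have h3 : (y : ℤ) - 1 ∣ (y : ℤ) ^ e - 1 := by
      have := sub_dvd_pow_sub_pow (y : ℤ) 1 e
      simpa using this
    exact h1.trans h3
  have hne : ∀ y, y₀ ≤ y → ∀ i, G.b ((y : ℤ) ^ e) i ≠ 0 := by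
    intro y hy i h0
    have h1 := hX₀ _ (hy₀1 y hy).1 {i} (singleton_nonempty i) (by
      intro h
      have h2 : ({i} : Finset (Fin j)).card = (univ : Finset (Fin j)).card := by rw [h]
      have h3 := G.hj
      simp at h2
      omega)
    rw [sum_singleton, h0, abs_zero] at h1
    omega
  have hcop : ∀ y, y₀ ≤ y → y ≡ 1 [MOD G.W * ∏ i, p i] → ∀ i i', IsCoprime (G.b ((y : ℤ) ^ e) i) (c i') := by
    intro y hy hy1 i i'
    have h1 : ((p i' : ℕ) : ℤ) ∣ (y : ℤ) ^ e - 1 := by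
      refine dvd_trans ?_ (hyW y hy1)
      have : p i' ∣ G.W * ∏ i, p i := (dvd_prod_of_mem _ (mem_univ i')).mul_left _
      exact_mod_cast this
    have h2 : ¬ ((p i' : ℕ) : ℤ) ∣ G.b ((y : ℤ) ^ e) i := by
      intro h
      apply hpb i' i
      have h3 := dvd_sub h (h1.trans (G.cong ((y : ℤ) ^ e) i))
      have e1 : G.b ((y : ℤ) ^ e) i - (G.b ((y : ℤ) ^ e) i - G.b 1 i) = G.b 1 i := by ring
      rwa [e1] at h3
    have h3 : IsCoprime ((p i' : ℕ) : ℤ) (G.b ((y : ℤ) ^ e) i) :=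
      (Nat.prime_iff_prime_int.mp (hp i')).coprime_iff_not_dvd.mpr h2
    have h4 : IsCoprime σ (G.b ((y : ℤ) ^ e) i) := ⟨σ, 0, by rw [hσσ]; ring⟩
    exact (IsCoprime.mul_left h4 h3).symm
  have hcc : ∀ i i', i ≠ i' → IsCoprime (c i) (c i') := by
    intro i i' hii
    have h1 : Nat.Coprime (p i) (p i') := (Nat.coprime_primes (hp i) (hp i')).mpr (fun h => hii (hinj h))
    have h2 : IsCoprime ((p i : ℕ) : ℤ) ((p i' : ℕ) : ℤ) := Nat.isCoprime_iff_coprime.mpr h1
    have h3 : ∀ z : ℤ, IsCoprime σ z := fun z => ⟨σ, 0, by rw [hσσ]; ring⟩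
    exact IsCoprime.mul_left (h3 _) (IsCoprime.mul_right (h3 _).symm h2)
  refine ⟨⟨a, G.W * ∏ i, p i, Nat.mul_pos G.hW (Finset.prod_pos fun i _ => (hp i).pos), y₀, -(G.τ + σ * Sp),
    G.C * ∏ i, (p i : ℝ), ?_, ?_, ?_, ?_, Fin.castAdd t G.top, ?_, ?_, ?_, ?_, ?_⟩⟩
  · have h1 : (1 : ℝ) ≤ ∏ i, (p i : ℝ) := by
      have : 1 ≤ ∏ i, p i := Nat.one_le_iff_ne_zero.mpr (Finset.prod_ne_zero_iff.mpr fun i _ => (hp i).ne_zero)
      exact_mod_cast this
    have := G.hC
    nlinarith
  · -- core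
    intro y hy hy1
    refine ⟨?_, ?_, ?_⟩
    · refine append_cases ?_ ?_
      · intro i; simp only [ha, Fin.append_left]; exact hne y hy i
      · intro i; simp only [ha, Fin.append_right, hc]
        exact mul_ne_zero hσ0 (by exact_mod_cast (hp i).ne_zero)
    · intro i i'
      revert i i'
      refine append_cases ?_ ?_
      · intro i
        refine append_cases ?_ ?_
        · intro i' hii
          simp only [ha, Fin.append_left]
          refine G.cop _ (hy₀1 y hy).2.1 ?_ i i' (fun h => hii (by rw [h]))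
          refine dvd_trans ?_ (hyW y hy1)
          exact ⟨((∏ i, p i : ℕ) : ℤ), by push_cast; ring⟩
        · intro i' _
          simp only [ha, Fin.append_left, Fin.append_right]
          exact hcop y hy hy1 i i'
      · intro i
        refine append_cases ?_ ?_
        · intro i' _
          simp only [ha, Fin.append_left, Fin.append_right]
          exact (hcop y hy hy1 i' i).symm
        · intro i' hii
          simp only [ha, Fin.append_right]
          exact hcc i i' (fun h => hii (by rw [h]))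
    · intro S hS
      simp only [ha]
      rw [sum_append]
      set U := univ.filter (fun i : Fin j => Fin.castAdd t i ∈ S) with hU
      set V := univ.filter (fun i : Fin t => Fin.natAdd j i ∈ S) with hV
      have hVs : ∑ i ∈ V, c i = σ * ∑ i ∈ V, (p i : ℤ) := by rw [hc, Finset.mul_sum]
      have hV0 : 0 ≤ ∑ i ∈ V, (p i : ℤ) := Finset.sum_nonneg fun i _ => by positivity
      have hV1 : ∑ i ∈ V, (p i : ℤ) ≤ Sp :=
        Finset.sum_le_sum_of_subset_of_nonneg (subset_univ _) (fun i _ _ => by positivity)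
      rw [hVs]
      by_cases hUe : U = ∅
      · have hVn : V.Nonempty := by
          obtain ⟨i, hi⟩ := hS
          revert hi
          revert i
          refine append_cases ?_ ?_
          · intro i hi
            have : i ∈ U := by simp [hU, hi]
            rw [hUe] at this
            simp at this
          · intro i hi
            exact ⟨i, by simp [hV, hi]⟩
        rw [hUe, sum_empty, zero_add]
        have : 0 < ∑ i ∈ V, (p i : ℤ) := Finset.sum_pos (fun i _ => by exact_mod_cast (hp i).pos) hVn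
        exact mul_ne_zero hσ0 this.ne'
      · by_cases hUu : U = univ
        · rw [hUu, G.sum]
          intro h
          have h2 : σ * (G.τ + σ * ∑ i ∈ V, (p i : ℤ)) = 0 := by rw [h, mul_zero]
          have h3 : σ * (G.τ + σ * ∑ i ∈ V, (p i : ℤ)) = σ * G.τ + (σ * σ) * ∑ i ∈ V, (p i : ℤ) := by ring
          rw [h3, hσσ] at h2
          omega
        · have h1 := hX₀ _ (hy₀1 y hy).1 U (Finset.nonempty_iff_ne_empty.mpr hUe) hUu
          intro h
          have h2 : ∑ i ∈ U, G.b ((y : ℤ) ^ e) i = -(σ * ∑ i ∈ V, (p i : ℤ)) := by linarith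
          rw [h2, abs_neg, abs_mul, hσ1, one_mul, abs_of_nonneg hV0] at h1
          omega
  · intro y
    simp only [ha]
    rw [Fin.sum_univ_add]
    simp only [Fin.append_left, Fin.append_right]
    rw [G.sum, hsumc]
  · exact ((G.hτ2).add (hSeven.mul_left σ)).neg
  · intro y
    simp only [ha, Fin.append_left]
    rw [G.htop, ← pow_mul, mul_comm e D]
  · intro y hy
    have hpow : (y : ℤ) ^ (D * e) = ((y : ℤ) ^ e) ^ D := by rw [← pow_mul, mul_comm]
    refine append_cases ?_ ?_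
    · intro i
      simp only [ha, Fin.append_left]
      rw [hpow]
      exact G.le _ (hy₀1 y hy).2.1 i
    · intro i
      simp only [ha, Fin.append_right, hc]
      rw [abs_mul, hσ1, one_mul, abs_of_nonneg (by positivity), hpow]
      have hD : D ≠ 0 := by
        intro hD
        have h1 := G.htop 2
        have h2 := G.htop (G.X₁ + 1)
        have h3 := hX₀ (max X₀ 2) (le_max_left _ _) {G.top} (singleton_nonempty _) (by
          intro h
          have h2 : ({G.top} : Finset (Fin j)).card = (univ : Finset (Fin j)).card := by rw [h]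
          have h3 := G.hj
          simp at h2
          omega)
        rw [sum_singleton, G.htop, hD, pow_zero, abs_one] at h3
        have h4 := hpS i
        have h5 := hp2 i
        omega
      calc (p i : ℤ) ≤ Sp := hpS i
        _ ≤ (y : ℤ) ^ e := (hy₀1 y hy).2.2.1
        _ ≤ ((y : ℤ) ^ e) ^ D := by
          have h6 := (hy₀1 y hy).2.2.2
          have : y ^ e ≤ (y ^ e) ^ D := Nat.le_self_pow hD _
          exact_mod_cast this
  · intro y hy
    obtain ⟨r1, r2, r3⟩ := G.rad _ (hy₀1 y hy).2.1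
    have hy1 := (hy₀1 y hy).2.2.2
    set N : ℤ := (y : ℤ) * G.M ((y : ℤ) ^ e) * ∏ i, (p i : ℤ) with hNdef
    have hN0 : N ≠ 0 := by
      refine mul_ne_zero (mul_ne_zero (by omega) r1) (Finset.prod_ne_zero_iff.mpr fun i _ => ?_)
      exact_mod_cast (hp i).ne_zero
    have h1 : (radN (∏ i, a y i) : ℝ) ≤ |(N : ℝ)| := by
      apply radN_le hN0
      intro q hq hd
      have hqp : Prime (q : ℤ) := Nat.prime_iff_prime_int.mp hq
      simp only [ha] at hd
      rw [Fin.prod_univ_add] at hd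
      simp only [Fin.append_left, Fin.append_right] at hd
      rcases hqp.dvd_or_dvd hd with h | h
      · have h2 := r2 q hq h
        rcases hqp.dvd_or_dvd h2 with h3 | h3
        · exact ((hqp.dvd_of_dvd_pow h3).mul_right _).mul_right _
        · exact (h3.mul_left _).mul_right _
      · obtain ⟨i, -, hi⟩ := (hqp.dvd_finsetProd_iff _).mp h
        simp only [hc] at hi
        rcases hqp.dvd_or_dvd hi with h2 | h2
        · exfalso
          have : (q : ℤ) ∣ σ * σ := h2.mul_left _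
          rw [hσσ] at this
          exact hqp.not_unit (isUnit_of_dvd_one this)
        · exact (h2.trans (dvd_prod_of_mem (fun i => (p i : ℤ)) (mem_univ i))).mul_left _
    refine h1.trans ?_
    rw [hNdef]
    push_cast
    rw [abs_mul, abs_mul, abs_of_nonneg (by positivity : (0 : ℝ) ≤ (y : ℝ)),
      abs_of_nonneg (by positivity : (0 : ℝ) ≤ ∏ i, (p i : ℝ))]
    push_cast at r3
    have h2 : (y : ℝ) * |(G.M ((y : ℤ) ^ e) : ℝ)| * ∏ i, (p i : ℝ) ≤
        (y : ℝ) * (G.C * ((y : ℝ) ^ e) ^ ρ) * ∏ i, (p i : ℝ) := by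
      apply mul_le_mul_of_nonneg_right _ (by positivity)
      apply mul_le_mul_of_nonneg_left r3 (by positivity)
    refine h2.trans (le_of_eq ?_)
    rw [← pow_mul, pow_succ, mul_comm e ρ]
    ring
  · intro y
    have hdv : (y : ℤ) - 1 ∣ (y : ℤ) ^ e - 1 := by
      have := sub_dvd_pow_sub_pow (y : ℤ) 1 e
      simpa using this
    refine append_cases ?_ ?_
    · intro i
      simp only [ha, Fin.append_left]
      have : G.b (((1 : ℕ) : ℤ) ^ e) i = G.b 1 i := by simp
      rw [this]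
      exact hdv.trans (G.cong _ i)
    · intro i
      simp only [ha, Fin.append_right]
      simp
  · simp only [ha]
    rw [Fin.prod_univ_add]
    simp only [Fin.append_left, Fin.append_right]
    have : G.b (((1 : ℕ) : ℤ) ^ e) = G.b 1 := by simp
    rw [this]
    refine mul_ne_zero G.one (Finset.prod_ne_zero_iff.mpr fun i _ => ?_)
    exact mul_ne_zero hσ0 (by exact_mod_cast (hp i).ne_zero)

end Pool.Agent.H42.SN
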