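import Pool.Agent.H42.SN.Sieve2
import Pool.Agent.H42.SN.Ext

set_option autoImplicit false

/-!
# Prime factors: counting and sums of reciprocals
-/

namespace Pool.Agent.H42.SN

open Finset

theorem card_gt_mul_log {N Y : ℕ} (hN : N ≠ 0) (hY : 1 ≤ Y) :
    ((#{p ∈ N.primeFactors | Y < p} : ℕ) : ℝ) * Real.log Y ≤ Real.log N := by
  have h1 : Y ^ #{p ∈ N.primeFactors | Y < p} ≤ ∏ p ∈ N.primeFactors with Y < p, p :=
    Finset.pow_card_le_prod _ _ _ (fun p hp => (mem_filter.mp hp).2.le)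
  have h2 : ∏ p ∈ N.primeFactors with Y < p, p ≤ ∏ p ∈ N.primeFactors, p :=
    Finset.prod_le_prod_of_subset_of_one_le' (filter_subset _ _)
      (fun p hp _ => (Nat.prime_of_mem_primeFactors hp).one_le)
  have h3 : ∏ p ∈ N.primeFactors, p ≤ N := Nat.le_of_dvd (Nat.pos_of_ne_zero hN) (Nat.prod_primeFactors_dvd N)
  have h4 : ((Y ^ #{p ∈ N.primeFactors | Y < p} : ℕ) : ℝ) ≤ N := by exact_mod_cast h1.trans (h2.trans h3)
  have h5 : (0 : ℝ) < Y := by exact_mod_cast hY
  have h6 := Real.log_le_log (by positivity) h4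
  push_cast at h6
  rwa [Real.log_pow] at h6

theorem card_mul_log_two {N : ℕ} (hN : N ≠ 0) : (N.primeFactors.card : ℝ) * Real.log 2 ≤ Real.log N := by
  have h1 : 2 ^ N.primeFactors.card ≤ ∏ p ∈ N.primeFactors, p :=
    Finset.pow_card_le_prod _ _ _ (fun p hp => (Nat.prime_of_mem_primeFactors hp).two_le)
  have h3 : ∏ p ∈ N.primeFactors, p ≤ N := Nat.le_of_dvd (Nat.pos_of_ne_zero hN) (Nat.prod_primeFactors_dvd N)
  have h4 : ((2 ^ N.primeFactors.card : ℕ) : ℝ) ≤ N := by exact_mod_cast h1.trans h3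
  have h6 := Real.log_le_log (by positivity) h4
  push_cast at h6
  rwa [Real.log_pow] at h6

theorem card_le_two_log {N : ℕ} (hN : N ≠ 0) : (N.primeFactors.card : ℝ) ≤ 2 * Real.log N := by
  have h := card_mul_log_two hN
  have h2 : (1 : ℝ) / 2 < Real.log 2 := by
    have := Real.log_two_gt_d9; linarith
  have h3 : (0 : ℝ) ≤ N.primeFactors.card := by positivity
  nlinarith

/-- If all the prime factors `> Y'` of `P` are `> Y` then the sum of their reciprocals is small. -/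
theorem sum_small {P : ℤ} (hP : P ≠ 0) {Y' Y : ℕ} (hY : 2 ≤ Y)
    (h : ∀ p : ℕ, p.Prime → (p : ℤ) ∣ P → Y' < p → Y < p) :
    ∑ p ∈ P.natAbs.primeFactors with Y' < p, (1 : ℝ) / p ≤ Real.log |(P : ℝ)| / (Y * Real.log Y) := by
  have hY0 : (0 : ℝ) < Y := by exact_mod_cast (by omega : 0 < Y)
  have hlY : 0 < Real.log Y := Real.log_pos (by exact_mod_cast (by omega : 1 < Y))
  have hPn : P.natAbs ≠ 0 := by simpa using hP
  have h1 : ∑ p ∈ P.natAbs.primeFactors with Y' < p, (1 : ℝ) / p ≤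
      ∑ p ∈ P.natAbs.primeFactors with Y < p, (1 : ℝ) / p := by
    refine sum_le_sum_of_subset_of_nonneg ?_ (fun i _ _ => by positivity)
    intro p hp
    simp only [mem_filter] at hp ⊢
    refine ⟨hp.1, h p (Nat.prime_of_mem_primeFactors hp.1) ?_ hp.2⟩
    exact natAbs_prime_dvd.mp (Nat.dvd_of_mem_primeFactors hp.1)
  have h2 : ∑ p ∈ P.natAbs.primeFactors with Y < p, (1 : ℝ) / p ≤
      ∑ p ∈ P.natAbs.primeFactors with Y < p, (1 : ℝ) / Y := by
    refine sum_le_sum fun p hp => ?_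
    have : (Y : ℝ) ≤ p := by exact_mod_cast (mem_filter.mp hp).2.le
    exact one_div_le_one_div_of_le hY0 this
  have h3 := card_gt_mul_log hPn (Y := Y) (by omega)
  have h4 : Real.log (P.natAbs : ℝ) = Real.log |(P : ℝ)| := by
    rw [Nat.cast_natAbs, Int.cast_abs]
  rw [h4] at h3
  refine h1.trans (h2.trans ?_)
  rw [sum_const, nsmul_eq_mul, mul_one_div, div_le_div_iff₀ hY0 (by positivity)]
  have := mul_le_mul_of_nonneg_right h3 hY0.le
  nlinarith

end Pool.Agent.H42.SN
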