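import Mathlib

set_option autoImplicit false

/-!
# A simple sieve for pairs `m`, `s - m`

Squarefree integers `m` in a residue class and an interval for which `s - m` is squarefree as well and
both are prime to a given integer.
-/

namespace Pool.Agent.H42.SN

open Finset

theorem count_le (A B r : ℤ) {W : ℕ} (hW : 0 < W) (hAB : A ≤ B) :
    ((#{m ∈ Ioc A B | m ≡ r [ZMOD W]} : ℕ) : ℝ) ≤ ((B : ℝ) - A) / W + 1 := by
  have hW' : (0 : ℤ) < (W : ℤ) := by exact_mod_cast hW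
  have h := Int.Ioc_filter_modEq_card A B hW' r
  have hWq : (0 : ℚ) < (W : ℚ) := by exact_mod_cast hW
  have h2 : ((#{m ∈ Ioc A B | m ≡ r [ZMOD W]} : ℕ) : ℚ) ≤ ((B : ℚ) - A) / W + 1 := by
    have h3 : ((#{m ∈ Ioc A B | m ≡ r [ZMOD W]} : ℕ) : ℤ) ≤
        max (⌊((B : ℚ) - r) / ((W : ℤ) : ℚ)⌋ - ⌊((A : ℚ) - r) / ((W : ℤ) : ℚ)⌋) 0 := by
      exact_mod_cast h.le
    have h4 : (((#{m ∈ Ioc A B | m ≡ r [ZMOD W]} : ℕ) : ℤ) : ℚ) ≤
        ((max (⌊((B : ℚ) - r) / ((W : ℤ) : ℚ)⌋ - ⌊((A : ℚ) - r) / ((W : ℤ) : ℚ)⌋) 0 : ℤ) : ℚ) := by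
      exact_mod_cast h3
    push_cast at h4 ⊢
    refine h4.trans (max_le ?_ ?_)
    · have e1 := Int.floor_le (((B : ℚ) - r) / (W : ℚ))
      have e2 := Int.lt_floor_add_one (((A : ℚ) - r) / (W : ℚ))
      have e3 : ((B : ℚ) - A) / W = ((B : ℚ) - r) / W - ((A : ℚ) - r) / W := by ring
      rw [e3]
      linarith
    · have : (0 : ℚ) ≤ ((B : ℚ) - A) / W := by
        apply div_nonneg _ hWq.le
        have : (A : ℚ) ≤ B := by exact_mod_cast hAB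
        linarith
      linarith
  have h5 : (((#{m ∈ Ioc A B | m ≡ r [ZMOD W]} : ℕ) : ℚ) : ℝ) ≤ ((((B : ℚ) - A) / W + 1 : ℚ) : ℝ) := by
    exact_mod_cast h2
  push_cast at h5
  exact h5

theorem le_count (A B r : ℤ) {W : ℕ} (hW : 0 < W) :
    ((B : ℝ) - A) / W - 1 ≤ ((#{m ∈ Ioc A B | m ≡ r [ZMOD W]} : ℕ) : ℝ) := by
  have hW' : (0 : ℤ) < (W : ℤ) := by exact_mod_cast hW
  have h := Int.Ioc_filter_modEq_card A B hW' r
  have h2 : ((B : ℚ) - A) / W - 1 ≤ ((#{m ∈ Ioc A B | m ≡ r [ZMOD W]} : ℕ) : ℚ) := by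
    have h3 : max (⌊((B : ℚ) - r) / ((W : ℤ) : ℚ)⌋ - ⌊((A : ℚ) - r) / ((W : ℤ) : ℚ)⌋) 0 ≤
        ((#{m ∈ Ioc A B | m ≡ r [ZMOD W]} : ℕ) : ℤ) := by
      exact_mod_cast h.ge
    have h4 : ((max (⌊((B : ℚ) - r) / ((W : ℤ) : ℚ)⌋ - ⌊((A : ℚ) - r) / ((W : ℤ) : ℚ)⌋) 0 : ℤ) : ℚ) ≤
        (((#{m ∈ Ioc A B | m ≡ r [ZMOD W]} : ℕ) : ℤ) : ℚ) := by
      exact_mod_cast h3
    push_cast at h4 ⊢
    refine le_trans ?_ ((le_max_left _ _).trans h4)
    have e1 := Int.lt_floor_add_one (((B : ℚ) - r) / (W : ℚ))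
    have e2 := Int.floor_le (((A : ℚ) - r) / (W : ℚ))
    have e3 : ((B : ℚ) - A) / W = ((B : ℚ) - r) / W - ((A : ℚ) - r) / W := by ring
    rw [e3]
    linarith
  have h5 : ((((B : ℚ) - A) / W - 1 : ℚ) : ℝ) ≤ (((#{m ∈ Ioc A B | m ≡ r [ZMOD W]} : ℕ) : ℚ) : ℝ) := by
    exact_mod_cast h2
  push_cast at h5
  exact h5

/-- The number of `m` in a residue class modulo `W` with `m ≡ c` modulo `q`, `q` prime to `W`. -/
theorem count_dvd_le (A B r c : ℤ) {W q : ℕ} (hW : 0 < W) (hq : 0 < q) (hWq : W.Coprime q)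
    (hAB : A ≤ B) :
    ((#{m ∈ {m ∈ Ioc A B | m ≡ r [ZMOD W]} | (q : ℤ) ∣ c - m} : ℕ) : ℝ) ≤
      ((B : ℝ) - A) / W / q + 1 := by
  rcases ({m ∈ {m ∈ Ioc A B | m ≡ r [ZMOD W]} | (q : ℤ) ∣ c - m}).eq_empty_or_nonempty with h | ⟨m₀, h₀⟩
  · rw [h]
    have : (A : ℝ) ≤ B := by exact_mod_cast hAB
    have : 0 ≤ ((B : ℝ) - A) / W / q := by
      apply div_nonneg (div_nonneg (by linarith) (by positivity)) (by positivity)
    simp only [card_empty, Nat.cast_zero]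
    linarith
  · have hsub : {m ∈ {m ∈ Ioc A B | m ≡ r [ZMOD W]} | (q : ℤ) ∣ c - m} ⊆
        {m ∈ Ioc A B | m ≡ m₀ [ZMOD (W * q : ℕ)]} := by
      intro m hm
      simp only [mem_filter] at hm h₀ ⊢
      refine ⟨hm.1.1, ?_⟩
      have e1 : m ≡ m₀ [ZMOD (W : ℤ)] := hm.1.2.trans h₀.1.2.symm
      have e2 : m ≡ m₀ [ZMOD (q : ℤ)] := by
        have : (q : ℤ) ∣ m₀ - m := by
          have := dvd_sub hm.2 h₀.2
          have e : c - m - (c - m₀) = m₀ - m := by ring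
          rwa [e] at this
        exact (Int.modEq_iff_dvd).mpr this
      push_cast
      exact (Int.modEq_and_modEq_iff_modEq_mul (by simpa using hWq)).mp ⟨e1, e2⟩
    have h1 := count_le A B m₀ (W := W * q) (Nat.mul_pos hW hq) hAB
    have h2 : ((#{m ∈ {m ∈ Ioc A B | m ≡ r [ZMOD W]} | (q : ℤ) ∣ c - m} : ℕ) : ℝ) ≤
        ((#{m ∈ Ioc A B | m ≡ m₀ [ZMOD (W * q : ℕ)]} : ℕ) : ℝ) := by
      exact_mod_cast card_le_card hsub
    refine h2.trans (h1.trans (le_of_eq ?_))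
    push_cast
    rw [div_div]

theorem natAbs_prime_dvd {p : ℕ} {m : ℤ} : p ∣ m.natAbs ↔ (p : ℤ) ∣ m := by
  exact Int.natCast_dvd.symm

/-- An integer `m ≠ 0`, `|m| ≤ N`, which has no square divisor `p ^ 2` with `p` prime, `p ≤ √N`. -/
theorem squarefree_of {m : ℤ} (hm : m ≠ 0) {N : ℝ} (hN : |(m : ℝ)| ≤ N)
    (h : ∀ p : ℕ, p.Prime → (p : ℝ) ≤ Real.sqrt N → ¬ ((p ^ 2 : ℕ) : ℤ) ∣ m) : Squarefree m := by
  rw [← Int.squarefree_natAbs, Nat.squarefree_iff_prime_squarefree]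
  intro p hp hd
  have h1 : ((p ^ 2 : ℕ) : ℤ) ∣ m := by
    rw [← natAbs_prime_dvd, pow_two]; exact hd
  refine h p hp ?_ h1
  apply Real.le_sqrt_of_sq_le
  refine le_trans ?_ hN
  have h2 := Int.le_of_dvd (abs_pos.mpr hm) ((dvd_abs _ _).mpr h1)
  have h3 : (((p ^ 2 : ℕ) : ℤ) : ℝ) ≤ ((|m| : ℤ) : ℝ) := by exact_mod_cast h2
  push_cast at h3
  exact h3

theorem isCoprime_of {a b : ℤ} (hb : b ≠ 0) (h : ∀ p ∈ b.natAbs.primeFactors, ¬ (p : ℤ) ∣ a) : IsCoprime a b := by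
  rw [Int.isCoprime_iff_gcd_eq_one]
  by_contra hg
  obtain ⟨p, hp, hpd⟩ := Nat.exists_prime_and_dvd hg
  have h1 : p ∣ b.natAbs := hpd.trans (Nat.gcd_dvd_right _ _)
  have h2 : p ∣ a.natAbs := hpd.trans (Nat.gcd_dvd_left _ _)
  exact h p (Nat.mem_primeFactors.mpr ⟨hp, h1, by simpa using hb⟩) (natAbs_prime_dvd.mp h2)

/-- **The sieve.** -/
theorem sieve {A B r s P : ℤ} {W Y : ℕ} {Ex : Finset ℤ} (hA : 0 ≤ A) (hAB : A < B) (hW : 0 < W)
    (hY : 16 ≤ Y) (hs : |s| ≤ B) (hP : P ≠ 0)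
    (h1 : ∀ p : ℕ, p.Prime → p ≤ Y → p ∣ W)
    (h2 : ∀ p : ℕ, p.Prime → p ∣ W → ¬ (p : ℤ) ∣ r ∧ ¬ (p : ℤ) ∣ (s - r))
    (h3 : ∑ p ∈ P.natAbs.primeFactors with Y < p, (1 : ℝ) / p ≤ 1 / 8)
    (h4 : 2 * Real.sqrt (2 * B) + 2 * P.natAbs.primeFactors.card + Ex.card + 2 <
      5 / 8 * (((B : ℝ) - A) / W)) :
    ∃ m : ℤ, A < m ∧ m ≤ B ∧ m ≡ r [ZMOD W] ∧ Squarefree m ∧ Squarefree (s - m) ∧
      IsCoprime m P ∧ IsCoprime (s - m) P ∧ m ∉ Ex := by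
  classical
  set S : Finset ℤ := {m ∈ Ioc A B | m ≡ r [ZMOD W]} with hS
  set Z : ℕ := ⌊Real.sqrt (2 * B)⌋₊ with hZ
  set T : Finset ℕ := {p ∈ Ioc Y Z | p.Prime ∧ ¬ p ∣ W} with hT
  set F : Finset ℕ := {p ∈ P.natAbs.primeFactors | Y < p ∧ ¬ p ∣ W} with hF
  set bad : Finset ℤ := (T.biUnion fun p => {m ∈ S | ((p ^ 2 : ℕ) : ℤ) ∣ 0 - m} ∪
      {m ∈ S | ((p ^ 2 : ℕ) : ℤ) ∣ s - m}) ∪
    ((F.biUnion fun p => {m ∈ S | (p : ℤ) ∣ 0 - m} ∪ {m ∈ S | (p : ℤ) ∣ s - m}) ∪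
      (Ex ∪ {s})) with hbad
  have hBA : (0 : ℝ) < (B : ℝ) - A := by
    have : (A : ℝ) < B := by exact_mod_cast hAB
    linarith
  have hWR : (0 : ℝ) < W := by exact_mod_cast hW
  set D : ℝ := ((B : ℝ) - A) / W with hD
  have hD0 : 0 < D := div_pos hBA hWR
  have hcop : ∀ p : ℕ, p.Prime → ¬ p ∣ W → W.Coprime p := fun p hp h =>
    ((Nat.Prime.coprime_iff_not_dvd hp).mpr h).symm
  -- the contribution of the squares
  have c1 : ((T.biUnion fun p => {m ∈ S | ((p ^ 2 : ℕ) : ℤ) ∣ 0 - m} ∪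
      {m ∈ S | ((p ^ 2 : ℕ) : ℤ) ∣ s - m}).card : ℝ) ≤ D / 8 + 2 * Real.sqrt (2 * B) := by
    have e1 : ((T.biUnion fun p => {m ∈ S | ((p ^ 2 : ℕ) : ℤ) ∣ 0 - m} ∪
        {m ∈ S | ((p ^ 2 : ℕ) : ℤ) ∣ s - m}).card : ℝ) ≤
        ∑ p ∈ T, (2 * D * ((p : ℝ) ^ 2)⁻¹ + 2) := by
      refine le_trans (b := ((∑ p ∈ T, #({m ∈ S | ((p ^ 2 : ℕ) : ℤ) ∣ 0 - m} ∪
        {m ∈ S | ((p ^ 2 : ℕ) : ℤ) ∣ s - m}) : ℕ) : ℝ)) (by exact_mod_cast card_biUnion_le) ?_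
      push_cast
      refine sum_le_sum fun p hp => ?_
      simp only [hT, mem_filter, mem_Ioc] at hp
      have hpos : 0 < p ^ 2 := pow_pos hp.2.1.pos 2
      have hc : W.Coprime (p ^ 2) := (hcop p hp.2.1 hp.2.2).pow_right 2
      have u1 := count_dvd_le A B r 0 hW hpos hc hAB.le
      have u2 := count_dvd_le A B r s hW hpos hc hAB.le
      have u3 : ((#({m ∈ S | ((p ^ 2 : ℕ) : ℤ) ∣ 0 - m} ∪
        {m ∈ S | ((p ^ 2 : ℕ) : ℤ) ∣ s - m}) : ℕ) : ℝ) ≤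
          (#{m ∈ S | ((p ^ 2 : ℕ) : ℤ) ∣ 0 - m} : ℝ) + (#{m ∈ S | ((p ^ 2 : ℕ) : ℤ) ∣ s - m} : ℝ) := by
        exact_mod_cast card_union_le _ _
      refine u3.trans ((add_le_add u1 u2).trans (le_of_eq ?_))
      rw [← hD]
      push_cast
      ring
    refine e1.trans ?_
    rw [sum_add_distrib, ← mul_sum]
    have e2 : ∑ p ∈ T, ((p : ℝ) ^ 2)⁻¹ ≤ 1 / 16 := by
      rcases le_or_gt Y Z with hYZ | hYZ
      · refine (sum_le_sum_of_subset_of_nonneg (filter_subset _ _) (fun i _ _ => by positivity)).trans ?_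
        refine (sum_Ioc_inv_sq_le_sub (by omega) hYZ).trans ?_
        have : (16 : ℝ) ≤ Y := by exact_mod_cast hY
        have h5 : (Y : ℝ)⁻¹ ≤ 1 / 16 := by
          rw [inv_eq_one_div]
          exact one_div_le_one_div_of_le (by norm_num) this
        have h6 : (0 : ℝ) ≤ (Z : ℝ)⁻¹ := by positivity
        linarith
      · have : T = ∅ := by
          rw [hT, Ioc_eq_empty (by omega)]; simp
        rw [this]; simp
    have e3 : (∑ p ∈ T, (2 : ℝ)) ≤ 2 * Real.sqrt (2 * B) := by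
      rw [sum_const, nsmul_eq_mul]
      have h7 : T.card ≤ Z := by
        refine (card_le_card (filter_subset _ _)).trans ?_
        rw [Nat.card_Ioc]; omega
      have h8 : (T.card : ℝ) ≤ (Z : ℝ) := by exact_mod_cast h7
      have h9 : (Z : ℝ) ≤ Real.sqrt (2 * B) := Nat.floor_le (Real.sqrt_nonneg _)
      linarith
    have e4 : 2 * D * ∑ p ∈ T, ((p : ℝ) ^ 2)⁻¹ ≤ 2 * D * (1 / 16) :=
      mul_le_mul_of_nonneg_left e2 (by positivity)
    linarith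
  have c2 : ((F.biUnion fun p => {m ∈ S | (p : ℤ) ∣ 0 - m} ∪ {m ∈ S | (p : ℤ) ∣ s - m}).card : ℝ) ≤
      D / 4 + 2 * P.natAbs.primeFactors.card := by
    have e1 : ((F.biUnion fun p => {m ∈ S | (p : ℤ) ∣ 0 - m} ∪ {m ∈ S | (p : ℤ) ∣ s - m}).card : ℝ) ≤
        ∑ p ∈ F, (2 * D * (1 / (p : ℝ)) + 2) := by
      refine le_trans (b := ((∑ p ∈ F, #({m ∈ S | (p : ℤ) ∣ 0 - m} ∪
        {m ∈ S | (p : ℤ) ∣ s - m}) : ℕ) : ℝ)) (by exact_mod_cast card_biUnion_le) ?_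
      push_cast
      refine sum_le_sum fun p hp => ?_
      simp only [hF, mem_filter, Nat.mem_primeFactors] at hp
      have hpos : 0 < p := hp.1.1.pos
      have hc : W.Coprime p := hcop p hp.1.1 hp.2.2
      have u1 := count_dvd_le A B r 0 hW hpos hc hAB.le
      have u2 := count_dvd_le A B r s hW hpos hc hAB.le
      have u3 : ((#({m ∈ S | (p : ℤ) ∣ 0 - m} ∪ {m ∈ S | (p : ℤ) ∣ s - m}) : ℕ) : ℝ) ≤
          (#{m ∈ S | (p : ℤ) ∣ 0 - m} : ℝ) + (#{m ∈ S | (p : ℤ) ∣ s - m} : ℝ) := by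
        exact_mod_cast card_union_le _ _
      refine u3.trans ((add_le_add u1 u2).trans (le_of_eq ?_))
      rw [← hD]
      ring
    refine e1.trans ?_
    rw [sum_add_distrib, ← mul_sum]
    have e2 : ∑ p ∈ F, 1 / (p : ℝ) ≤ 1 / 8 := by
      refine le_trans (sum_le_sum_of_subset_of_nonneg ?_ (fun i _ _ => by positivity)) h3
      intro p hp
      simp only [hF, mem_filter] at hp ⊢
      exact ⟨hp.1, hp.2.1⟩
    have e3 : (∑ p ∈ F, (2 : ℝ)) ≤ 2 * P.natAbs.primeFactors.card := by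
      rw [sum_const, nsmul_eq_mul]
      have : (F.card : ℝ) ≤ P.natAbs.primeFactors.card := by
        exact_mod_cast card_le_card (filter_subset _ _)
      linarith
    have e4 : 2 * D * ∑ p ∈ F, 1 / (p : ℝ) ≤ 2 * D * (1 / 8) :=
      mul_le_mul_of_nonneg_left e2 (by positivity)
    linarith
  have c3 : (((Ex ∪ {s} : Finset ℤ)).card : ℝ) ≤ Ex.card + 1 := by
    have := card_union_le Ex {s}
    rw [card_singleton] at this
    exact_mod_cast this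
  have hlt : (bad.card : ℝ) < S.card := by
    have l1 := le_count A B r hW
    have l2 : (bad.card : ℝ) ≤ (D / 8 + 2 * Real.sqrt (2 * B)) +
        ((D / 4 + 2 * P.natAbs.primeFactors.card) + (Ex.card + 1)) := by
      have k1 := card_union_le (T.biUnion fun p => {m ∈ S | ((p ^ 2 : ℕ) : ℤ) ∣ 0 - m} ∪
        {m ∈ S | ((p ^ 2 : ℕ) : ℤ) ∣ s - m})
        ((F.biUnion fun p => {m ∈ S | (p : ℤ) ∣ 0 - m} ∪ {m ∈ S | (p : ℤ) ∣ s - m}) ∪ (Ex ∪ {s}))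
      have k2 := card_union_le (F.biUnion fun p => {m ∈ S | (p : ℤ) ∣ 0 - m} ∪ {m ∈ S | (p : ℤ) ∣ s - m})
        (Ex ∪ {s})
      rw [← hbad] at k1
      have k3 : (bad.card : ℝ) ≤ ((T.biUnion fun p => {m ∈ S | ((p ^ 2 : ℕ) : ℤ) ∣ 0 - m} ∪
        {m ∈ S | ((p ^ 2 : ℕ) : ℤ) ∣ s - m}).card : ℝ) + (((F.biUnion fun p => {m ∈ S | (p : ℤ) ∣ 0 - m} ∪
          {m ∈ S | (p : ℤ) ∣ s - m}).card : ℝ) + (((Ex ∪ {s} : Finset ℤ)).card : ℝ)) := by
        exact_mod_cast k1.trans (Nat.add_le_add_left k2 _)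
      exact k3.trans (add_le_add c1 (add_le_add c2 c3))
    rw [← hD, ← hS] at l1
    linarith
  obtain ⟨m, hmS, hmb⟩ : ∃ m ∈ S, m ∉ bad := by
    by_contra hcon
    push Not at hcon
    have : S.card ≤ bad.card := card_le_card hcon
    have : (S.card : ℝ) ≤ bad.card := by exact_mod_cast this
    linarith
  have hm := hmS
  simp only [hS, mem_filter, mem_Ioc] at hm
  obtain ⟨⟨hmA, hmB⟩, hmr⟩ := hm
  simp only [hbad, mem_union, mem_biUnion, mem_filter, mem_singleton, not_or, not_exists, not_and] at hmb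
  obtain ⟨hb1, hb2, hb3, hb4⟩ := hmb
  -- primes dividing `W` divide neither `m` nor `s - m`
  have hpW : ∀ p : ℕ, p.Prime → p ∣ W → ¬ (p : ℤ) ∣ m ∧ ¬ (p : ℤ) ∣ s - m := by
    intro p hp hpW
    have hpW' : (p : ℤ) ∣ (W : ℤ) := by exact_mod_cast hpW
    have hd : (p : ℤ) ∣ r - m := hpW'.trans (Int.modEq_iff_dvd.mp hmr)
    obtain ⟨n1, n2⟩ := h2 p hp hpW
    constructor
    · intro h
      apply n1
      have := dvd_add hd h
      have e : r - m + m = r := by ring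
      rwa [e] at this
    · intro h
      apply n2
      have := dvd_sub h hd
      have e : s - m - (r - m) = s - r := by ring
      rwa [e] at this
  have hYp : ∀ p : ℕ, p.Prime → ¬ p ∣ W → Y < p := by
    intro p hp h
    by_contra hle
    exact h (h1 p hp (by omega))
  have hmpos : 0 < m := lt_of_le_of_lt hA hmA
  have hsm : s - m ≠ 0 := fun h => hb4 (by linarith)
  have hBpos : (0 : ℝ) < B := by
    have : (0 : ℤ) < B := lt_of_le_of_lt hA hAB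
    exact_mod_cast this
  have hsR : |(s : ℝ)| ≤ B := by
    have : ((|s| : ℤ) : ℝ) ≤ (B : ℝ) := by exact_mod_cast hs
    rwa [Int.cast_abs] at this
  have hmR : |(m : ℝ)| ≤ B := by
    rw [abs_of_pos (by exact_mod_cast hmpos)]
    exact_mod_cast hmB
  refine ⟨m, hmA, hmB, hmr, ?_, ?_, ?_, ?_, hb3⟩
  · refine squarefree_of (by omega) (N := 2 * B) (by linarith) fun p hp hle hd => ?_
    by_cases hpw : p ∣ W
    · refine (hpW p hp hpw).1 (dvd_trans ?_ hd)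
      push_cast
      exact dvd_pow_self _ two_ne_zero
    · refine (hb1 p ?_).1 hmS ?_
      · simp only [hT, mem_filter, mem_Ioc]
        exact ⟨⟨hYp p hp hpw, Nat.le_floor hle⟩, hp, hpw⟩
      · rw [zero_sub]; exact (dvd_neg).mpr hd
  · refine squarefree_of hsm (N := 2 * B) ?_ fun p hp hle hd => ?_
    · push_cast
      have := abs_sub (s : ℝ) (m : ℝ)
      linarith
    by_cases hpw : p ∣ W
    · refine (hpW p hp hpw).2 (dvd_trans ?_ hd)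
      push_cast
      exact dvd_pow_self _ two_ne_zero
    · refine (hb1 p ?_).2 hmS hd
      simp only [hT, mem_filter, mem_Ioc]
      exact ⟨⟨hYp p hp hpw, Nat.le_floor hle⟩, hp, hpw⟩
  · refine isCoprime_of hP fun p hp hd => ?_
    have hpp := (Nat.mem_primeFactors.mp hp).1
    by_cases hpw : p ∣ W
    · exact (hpW p hpp hpw).1 hd
    · refine (hb2 p ?_).1 hmS ?_
      · simp only [hF, mem_filter]
        exact ⟨hp, hYp p hpp hpw, hpw⟩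
      · rw [zero_sub]; exact (dvd_neg).mpr hd
  · refine isCoprime_of hP fun p hp hd => ?_
    have hpp := (Nat.mem_primeFactors.mp hp).1
    by_cases hpw : p ∣ W
    · exact (hpW p hpp hpw).2 hd
    · refine (hb2 p ?_).2 hmS hd
      simp only [hF, mem_filter]
      exact ⟨hp, hYp p hpp hpw, hpw⟩

end Pool.Agent.H42.SN
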