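import Pool.Agent.H42.SN.Sieve

set_option autoImplicit false

/-!
# The sieve with a fixed modulus
-/

namespace Pool.Agent.H42.SN

open Finset

/-- Chinese remainder theorem for the primes up to `Y`. -/
theorem exists_residue (Y : ℕ) (f : ℕ → ℕ) :
    ∃ r : ℤ, ∀ p : ℕ, p.Prime → p ≤ Y → r ≡ f p [ZMOD p] := by
  obtain ⟨k, hk⟩ := Nat.chineseRemainderOfFinset f id (Y.primesLE)
    (fun p hp => by
      have : p.Prime := by simpa using (Nat.mem_primesLE.mp hp).2
      exact this.ne_zero)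
    (fun p hp q hq hpq => by
      have h1 : p.Prime := (Nat.mem_primesLE.mp hp).2
      have h2 : q.Prime := (Nat.mem_primesLE.mp hq).2
      exact (Nat.coprime_primes h1 h2).mpr hpq)
  refine ⟨k, fun p hp hpY => ?_⟩
  have := hk p (Nat.mem_primesLE.mpr ⟨hpY, hp⟩)
  exact (Int.natCast_modEq_iff).mpr this

/-- A residue `r` with `r` and `s - r` prime to all primes up to `Y`, for even `s`. -/
theorem exists_res_pair (Y : ℕ) {s : ℤ} (hs : Even s) :
    ∃ r : ℤ, ∀ p : ℕ, p.Prime → p ≤ Y → ¬ (p : ℤ) ∣ r ∧ ¬ (p : ℤ) ∣ (s - r) := by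
  classical
  obtain ⟨r, hr⟩ := exists_residue Y (fun p => if (p : ℤ) ∣ s - 1 then 2 else 1)
  refine ⟨r, fun p hp hpY => ?_⟩
  have h := hr p hp hpY
  have hp1 : ¬ (p : ℤ) ∣ 1 := by
    intro h
    have : (p : ℕ) ∣ 1 := by exact_mod_cast h
    exact hp.one_lt.ne' (Nat.dvd_one.mp this)
  by_cases hc : (p : ℤ) ∣ s - 1
  · have hp2 : ¬ (p : ℤ) ∣ 2 := by
      intro h2
      have h3 : p ∣ 2 := by exact_mod_cast h2
      have : p = 2 := (Nat.prime_dvd_prime_iff_eq hp Nat.prime_two).mp h3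
      subst this
      have h4 : Even (s - 1) := even_iff_two_dvd.mpr (by exact_mod_cast hc)
      obtain ⟨u, hu⟩ := hs
      obtain ⟨v, hv⟩ := h4
      omega
    rw [if_pos hc] at h
    have hd := Int.modEq_iff_dvd.mp h
    push_cast at hd
    constructor
    · intro h2
      apply hp2
      have := dvd_add hd h2
      have e : 2 - r + r = (2 : ℤ) := by ring
      rwa [e] at this
    · intro h2
      apply hp1
      have := dvd_sub (dvd_sub hc h2) hd
      have e : s - 1 - (s - r) - (2 - r) = 2 * r - 3 := by ring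
      have h5 : (p : ℤ) ∣ s - 1 - (s - r) + (2 - r) := dvd_add (dvd_sub hc h2) hd
      have e2 : s - 1 - (s - r) + (2 - r) = (1 : ℤ) := by ring
      rwa [e2] at h5
  · rw [if_neg hc] at h
    have hd := Int.modEq_iff_dvd.mp h
    push_cast at hd
    constructor
    · intro h2
      apply hp1
      have := dvd_add hd h2
      have e : 1 - r + r = (1 : ℤ) := by ring
      rwa [e] at this
    · intro h2
      apply hc
      have := dvd_sub h2 hd
      have e : s - r - (1 - r) = s - 1 := by ring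
      rwa [e] at this

/-- **The sieve with a fixed modulus.** -/
theorem sieveM {η : ℝ} (hη : 0 < η) (hη1 : η < 1) {Y : ℕ} (hY : 16 ≤ Y) :
    ∃ c T₀ : ℝ, 0 < c ∧ 1 ≤ T₀ ∧ ∀ T : ℝ, T₀ ≤ T → ∀ s : ℤ, Even s → |(s : ℝ)| ≤ η / 2 * T →
      ∀ P : ℤ, P ≠ 0 → ∑ p ∈ P.natAbs.primeFactors with Y < p, (1 : ℝ) / p ≤ 1 / 8 →
        (P.natAbs.primeFactors.card : ℝ) ≤ c * T → ∀ Ex : Finset ℤ, (Ex.card : ℝ) ≤ c * T →
          ∃ m : ℤ, (1 - η) * T < m ∧ (m : ℝ) ≤ (1 - η / 2) * T ∧ Squarefree m ∧ Squarefree (s - m) ∧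
            IsCoprime m P ∧ IsCoprime (s - m) P ∧ m ∉ Ex := by
  set W : ℕ := primorial Y with hWdef
  have hW : 0 < W := primorial_pos Y
  have hWR : (1 : ℝ) ≤ W := by exact_mod_cast hW
  set l : ℝ := 5 * η / (16 * W) with hl
  have hl0 : 0 < l := by positivity
  refine ⟨l / 12, max (max 1 (128 / l ^ 2)) (max (12 / l) (2 / η)) + 1, by positivity, ?_, ?_⟩
  · have : (1 : ℝ) ≤ max (max 1 (128 / l ^ 2)) (max (12 / l) (2 / η)) := (le_max_left _ _).trans (le_max_left _ _)
    linarith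
  intro T hT s hs hsT P hP h3 hω Ex hEx
  have t1 : 1 ≤ T := by
    have : (1 : ℝ) ≤ max (max 1 (128 / l ^ 2)) (max (12 / l) (2 / η)) := (le_max_left _ _).trans (le_max_left _ _)
    linarith
  have t2 : 128 / l ^ 2 ≤ T := by
    have : 128 / l ^ 2 ≤ max (max 1 (128 / l ^ 2)) (max (12 / l) (2 / η)) := (le_max_right _ _).trans (le_max_left _ _)
    linarith
  have t3 : 12 / l ≤ T := by
    have : 12 / l ≤ max (max 1 (128 / l ^ 2)) (max (12 / l) (2 / η)) := (le_max_left _ _).trans (le_max_right _ _)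
    linarith
  have t4 : 2 / η + 1 ≤ T := by
    have : 2 / η ≤ max (max 1 (128 / l ^ 2)) (max (12 / l) (2 / η)) := (le_max_right _ _).trans (le_max_right _ _)
    linarith
  have t4' : 2 < η * T := by
    have h5 : 2 / η < T := by linarith
    rw [div_lt_iff₀ hη] at h5
    linarith
  obtain ⟨r, hr⟩ := exists_res_pair Y hs
  set A : ℤ := ⌊(1 - η) * T⌋ with hA
  set B : ℤ := ⌊(1 - η / 2) * T⌋ with hB
  have a1 : (A : ℝ) ≤ (1 - η) * T := Int.floor_le _
  have a2 : (1 - η) * T < A + 1 := Int.lt_floor_add_one _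
  have b1 : (B : ℝ) ≤ (1 - η / 2) * T := Int.floor_le _
  have b2 : (1 - η / 2) * T < B + 1 := Int.lt_floor_add_one _
  have hA0 : 0 ≤ A := Int.floor_nonneg.mpr (mul_nonneg (by linarith) (by linarith))
  have hAB : A < B := by
    have : (A : ℝ) < B := by nlinarith
    exact_mod_cast this
  have hBT : (B : ℝ) ≤ T := by nlinarith
  have hsB : |s| ≤ B := by
    have h1 : |(s : ℝ)| < (B : ℝ) + 1 := by nlinarith
    have h2 : ((|s| : ℤ) : ℝ) < ((B + 1 : ℤ) : ℝ) := by push_cast; exact h1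
    have h3 : |s| < B + 1 := by exact_mod_cast h2
    omega
  have h4 : 2 * Real.sqrt (2 * B) + 2 * P.natAbs.primeFactors.card + Ex.card + 2 <
      5 / 8 * (((B : ℝ) - A) / W) := by
    have hx : 5 / 8 * ((η / 2 * T - 1) / W) ≤ 5 / 8 * (((B : ℝ) - A) / W) := by
      apply mul_le_mul_of_nonneg_left _ (by norm_num)
      apply div_le_div_of_nonneg_right _ (by positivity)
      nlinarith
    have hy : 5 / 8 * ((η / 2 * T - 1) / W) = l * T - 5 / 8 / W := by
      rw [hl]; field_simp; ring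
    have hz : 5 / 8 / (W : ℝ) ≤ 1 := by
      rw [div_le_one (by positivity)]; linarith
    have hsq : 2 * Real.sqrt (2 * B) ≤ l * T / 4 := by
      have : Real.sqrt (2 * B) ≤ l * T / 8 := by
        apply Real.sqrt_le_iff.mpr
        refine ⟨by positivity, ?_⟩
        rw [div_le_iff₀ (by positivity)] at t2
        have : 2 * (B : ℝ) ≤ 2 * T := by linarith
        refine this.trans ?_
        have h6 : 128 * T ≤ (T * l ^ 2) * T := mul_le_mul_of_nonneg_right t2 (by linarith)
        nlinarith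
      linarith
    have ht : 12 ≤ T * l := by rwa [div_le_iff₀ hl0] at t3
    nlinarith
  obtain ⟨m, m1, m2, -, m3, m4, m5, m6, m7⟩ := sieve (r := r) (s := s) (P := P) (W := W) (Y := Y) (Ex := Ex)
    hA0 hAB hW hY hsB hP (fun p hp hpY => (hp.dvd_primorial_iff).mpr hpY)
    (fun p hp hpW => hr p hp ((hp.dvd_primorial_iff).mp hpW)) h3 h4
  refine ⟨m, ?_, ?_, m3, m4, m5, m6, m7⟩
  · have : A + 1 ≤ m := m1
    have : ((A + 1 : ℤ) : ℝ) ≤ m := by exact_mod_cast this
    push_cast at this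
    linarith
  · have : (m : ℝ) ≤ B := by exact_mod_cast m2
    linarith

end Pool.Agent.H42.SN
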